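import Pool.Agent.Lib_helper83.G3I

/-!
Type G3: the limit recurrence has no solution, infinite to the left, with bounded large terms.
-/

set_option autoImplicit false

namespace Pool.Agent.RatG3

/-- A uniform gain excludes boundedness. -/
theorem not_bddAbove_of_gain {z : ℕ → ℝ} (hz : ∀ j, 0 < z j) {v : ℕ → ℝ}
    (hv : ∀ j, z (j + 1) = z j * v j)
    (h : ∃ δ, 0 < δ ∧ ((∀ j, 1 + δ ≤ v j) ∨ (∀ j, 1 + δ ≤ v j * v (j + 1)))) :
    ¬ BddAbove (Set.range z) := by
  rintro ⟨C, hC⟩
  have hC' : ∀ j, z j ≤ C := fun j => hC ⟨j, rfl⟩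
  obtain ⟨δ, hδ, h | h⟩ := h
  · have e : ∀ n, z 0 * (1 + δ) ^ n ≤ z n := by
      intro n
      induction n with
      | zero => simp
      | succ n ih =>
        rw [hv, pow_succ]
        calc z 0 * ((1 + δ) ^ n * (1 + δ)) = (z 0 * (1 + δ) ^ n) * (1 + δ) := by ring
          _ ≤ z n * v n := mul_le_mul ih (h n) (by linarith) (hz n).le
    obtain ⟨n, hn⟩ := pow_unbounded_of_one_lt (C / z 0) (by linarith : 1 < 1 + δ)
    have h1 := e n
    have h2 := hC' n
    rw [div_lt_iff₀ (hz 0)] at hn
    linarith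
  · have e : ∀ n, z 0 * (1 + δ) ^ n ≤ z (2 * n) := by
      intro n
      induction n with
      | zero => simp
      | succ n ih =>
        have e1 : z (2 * (n + 1)) = z (2 * n) * (v (2 * n) * v (2 * n + 1)) := by
          have : 2 * (n + 1) = 2 * n + 1 + 1 := by ring
          rw [this, hv, hv]; ring
        rw [e1, pow_succ]
        calc z 0 * ((1 + δ) ^ n * (1 + δ)) = (z 0 * (1 + δ) ^ n) * (1 + δ) := by ring
          _ ≤ z (2 * n) * (v (2 * n) * v (2 * n + 1)) :=
            mul_le_mul ih (h _) (by linarith) (hz _).le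
    obtain ⟨n, hn⟩ := pow_unbounded_of_one_lt (C / z 0) (by linarith : 1 < 1 + δ)
    have h1 := e n
    have h2 := hC' (2 * n)
    rw [div_lt_iff₀ (hz 0)] at hn
    linarith

/-- The shift: the lower bound `mu` of the intermediate terms. -/
theorem shift_le {A al b1 b4 B1 B4 p mu : ℝ} (hA : 0 ≤ A) (hal : 0 ≤ al) (hpA : A ≤ p)
    (hB1 : 0 ≤ B1) (hB4 : 0 < B4) (h1 : mu * B1 ≤ b1) (h4 : mu * B4 ≤ b4)
    {y r : ℕ → ℝ} (hy : ∀ j, 0 ≤ y j) (hr : ∀ j, mu ≤ r j)
    (Hy : ∀ j, y j * (A + B1 * r j + B4 * r (j + 1)) = al + b1 * r j + b4 * r (j + 1) +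
      p * y (j + 1)) : ∀ j, mu ≤ y j := by
  rcases le_or_gt mu 0 with hmu | hmu
  · intro j; exact hmu.trans (hy j)
  have hbdd : BddBelow (Set.range y) := ⟨0, by rintro _ ⟨j, rfl⟩; exact hy j⟩
  set M : ℝ := ⨅ j, y j with hM
  have hMy : ∀ j, M ≤ y j := fun j => ciInf_le hbdd j
  have hM0 : 0 ≤ M := le_ciInf hy
  suffices h : mu ≤ M from fun j => h.trans (hMy j)
  by_contra hcon
  push Not at hcon
  set X0 : ℝ := (B1 + B4) * mu with hX0
  have hX0p : 0 < X0 := mul_pos (by linarith) hmu
  have hAX : 0 < A + X0 := by linarith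
  have hfin : ∀ j, M + (mu - M) * X0 / (A + X0) ≤ y j := by
    intro j
    set X : ℝ := B1 * r j + B4 * r (j + 1) with hX
    have hXX : X0 ≤ X := by
      have c1 := mul_le_mul_of_nonneg_left (hr j) hB1
      have c2 := mul_le_mul_of_nonneg_left (hr (j + 1)) hB4.le
      rw [hX0, hX]; linarith
    have e1 : (mu - M) * X ≤ (y j - M) * (A + X) := by
      have d1 : (y j - M) * (A + X) = al + (b1 - M * B1) * r j + (b4 - M * B4) * r (j + 1) +
          (p * y (j + 1) - M * A) := by
        have := Hy j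
        rw [hX]; linarith
      have hrj : 0 ≤ r j := hmu.le.trans (hr j)
      have hrj1 : 0 ≤ r (j + 1) := hmu.le.trans (hr (j + 1))
      have d2 : (mu - M) * B1 * r j ≤ (b1 - M * B1) * r j :=
        mul_le_mul_of_nonneg_right (by linarith) hrj
      have d3 : (mu - M) * B4 * r (j + 1) ≤ (b4 - M * B4) * r (j + 1) :=
        mul_le_mul_of_nonneg_right (by linarith) hrj1
      have d4 : M * A ≤ p * y (j + 1) := by
        calc M * A ≤ M * p := mul_le_mul_of_nonneg_left hpA hM0
          _ = p * M := by ring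
          _ ≤ p * y (j + 1) := mul_le_mul_of_nonneg_left (hMy _) (hA.trans hpA)
      rw [d1, hX]
      linarith
    have e2 : (mu - M) * X0 / (A + X0) ≤ y j - M := by
      rw [div_le_iff₀ hAX]
      -- (mu - M) X0 (A + X) ≤ (mu - M) X (A + X0) ≤ (y - M) (A + X) (A + X0)
      have hAX' : 0 < A + X := by linarith
      have f1 : (mu - M) * X0 * (A + X) ≤ (mu - M) * X * (A + X0) := by
        have g1 : 0 ≤ (mu - M) * (A * (X - X0)) :=
          mul_nonneg (by linarith) (mul_nonneg hA (by linarith))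
        nlinarith
      have f2 : (mu - M) * X * (A + X0) ≤ (y j - M) * (A + X) * (A + X0) :=
        mul_le_mul_of_nonneg_right e1 hAX.le
      have f3 : (mu - M) * X0 * (A + X) ≤ (y j - M) * (A + X0) * (A + X) := by
        calc (mu - M) * X0 * (A + X) ≤ (y j - M) * (A + X) * (A + X0) := f1.trans f2
          _ = (y j - M) * (A + X0) * (A + X) := by ring
      exact le_of_mul_le_mul_right f3 hAX'
    linarith
  have h7 : M + (mu - M) * X0 / (A + X0) ≤ M := le_ciInf hfin
  have h8 : 0 < (mu - M) * X0 / (A + X0) := div_pos (mul_pos (by linarith) hX0p) hAX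
  linarith

/-- The statement of the gain theorem for system (II). -/
def II_gain_Stmt : Prop :=
  ∀ {om be A p : ℝ}, 0 < om → 0 < be → om + be = 1 → 0 ≤ A → 0 < p → A ≤ p →
    ∀ {y v r : ℕ → ℝ}, (∀ j, 0 ≤ y j) → (∀ j, 0 < v j) →
    (∀ j, v j * p = A + om * y j + be * y (j + 1)) →
    (∀ j, r j * (om + be * v (j + 1)) = v (j + 1)) →
    (∀ j, r (j + 1) + p * y (j + 1) ≤ y j * (A + om * r j + be * r (j + 1))) →
    ∃ δ, 0 < δ ∧ ((∀ j, 1 + δ ≤ v j) ∨ (∀ j, 1 + δ ≤ v j * v (j + 1)))

theorem G3_gain (HII : II_gain_Stmt) {A al b1 b3 b4 B1 B4 : ℝ} (hA : 0 ≤ A) (hal : 0 ≤ al)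
    (hb1 : 0 ≤ b1) (hb3 : 0 < b3) (hb4 : 0 ≤ b4) (hB1 : 0 ≤ B1) (hB4 : 0 < B4)
    (hcase : (0 < b1 ∧ (0 < B1 ∨ 0 < A ∨ 0 < b4)) ∨ (0 < b4 ∧ 0 < B1))
    {v y r : ℕ → ℝ} (hv : ∀ j, 0 < v j) (hy : ∀ j, 0 < y j)
    (Hv : ∀ j, A + B1 * y j + B4 * y (j + 1) = b3 * v j)
    (Hy : ∀ j, y j * (A + B1 * r j + B4 * r (j + 1)) =
      al + b1 * r j + b4 * r (j + 1) + b3 * y (j + 1))
    (Hr : ∀ j, r j * (B1 + B4 * v (j + 1)) = b1 + b4 * v (j + 1)) :
    ∃ δ, 0 < δ ∧ ((∀ j, 1 + δ ≤ v j) ∨ (∀ j, 1 + δ ≤ v j * v (j + 1))) := by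
  -- a large constant term
  have hbig : ∀ K : ℝ, b3 < K → (∀ j, K ≤ b3 * v j) →
      ∃ δ, 0 < δ ∧ ((∀ j, 1 + δ ≤ v j) ∨ (∀ j, 1 + δ ≤ v j * v (j + 1))) := by
    intro K hK h
    refine ⟨(K - b3) / b3, div_pos (by linarith) hb3, Or.inl fun j => ?_⟩
    have h1 : 1 + (K - b3) / b3 = K / b3 := by field_simp; ring
    rw [h1, div_le_iff₀ hb3]
    have := h j
    linarith
  rcases lt_or_ge b3 A with hlt | hpA
  · apply hbig A hlt
    intro j
    rw [← Hv]
    have := mul_nonneg hB1 (hy j).le
    have := mul_nonneg hB4.le (hy (j + 1)).le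
    linarith
  have hS : 0 < B1 + B4 := by linarith
  have hden : ∀ j, 0 < B1 + B4 * v (j + 1) := by
    intro j
    have := mul_pos hB4 (hv (j + 1))
    linarith
  rcases le_or_gt (b4 * B1) (b1 * B4) with hm | hm
  · -- type MINUS
    set mu : ℝ := b4 / B4 with hmu
    have hmu0 : 0 ≤ mu := div_nonneg hb4 hB4.le
    have hmu4 : mu * B4 = b4 := by rw [hmu]; field_simp
    have hmu1 : mu * B1 ≤ b1 := by
      have : mu * B1 * B4 ≤ b1 * B4 := by
        calc mu * B1 * B4 = (mu * B4) * B1 := by ring
          _ = b4 * B1 := by rw [hmu4]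
          _ ≤ b1 * B4 := hm
      exact le_of_mul_le_mul_right this hB4
    have hrmu : ∀ j, mu ≤ r j := by
      intro j
      have h1 : mu * (B1 + B4 * v (j + 1)) ≤ r j * (B1 + B4 * v (j + 1)) := by
        rw [Hr, ← hmu4]; nlinarith
      exact le_of_mul_le_mul_right h1 (hden j)
    have hymu := shift_le hA hal hpA hB1 hB4 hmu1 hmu4.le (fun j => (hy j).le) hrmu Hy
    have hvA' : ∀ j, A + (B1 + B4) * mu ≤ b3 * v j := by
      intro j
      rw [← Hv]
      have c1 := mul_le_mul_of_nonneg_left (hymu j) hB1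
      have c2 := mul_le_mul_of_nonneg_left (hymu (j + 1)) hB4.le
      linarith
    rcases eq_or_lt_of_le hmu1 with h0 | h0
    · -- constant r
      have hrc : ∀ j, r j = mu := by
        intro j
        have h1 : r j * (B1 + B4 * v (j + 1)) = mu * (B1 + B4 * v (j + 1)) := by
          rw [Hr, ← hmu4, ← h0]; ring
        exact mul_right_cancel₀ (hden j).ne' h1
      have hmup : 0 < mu := by
        rcases eq_or_lt_of_le hmu0 with h1 | h1
        · exfalso
          rw [← h1] at h0 hmu4
          simp at h0 hmu4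
          rcases hcase with ⟨h2, _⟩ | ⟨h2, _⟩
          · linarith
          · linarith
        · exact h1
      apply hbig _ _ hvA'
      have hbdd : BddBelow (Set.range y) := ⟨0, by rintro _ ⟨j, rfl⟩; exact (hy j).le⟩
      set M : ℝ := ⨅ j, y j with hM
      have hMy : ∀ j, M ≤ y j := fun j => ciInf_le hbdd j
      have hM0 : 0 ≤ M := le_ciInf (fun j => (hy j).le)
      by_contra hcon
      push Not at hcon
      have hfin : ∀ j, M + (B1 + B4) * mu ^ 2 / b3 ≤ y j := by
        intro j
        have h1 := Hy j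
        rw [hrc, hrc] at h1
        have h2 := mul_le_mul_of_nonneg_left (hMy (j + 1)) hb3.le
        have h3 : y j * (A + B1 * mu + B4 * mu) ≤ y j * b3 :=
          mul_le_mul_of_nonneg_left (by linarith) (hy j).le
        have h4 : (B1 + B4) * mu ^ 2 / b3 ≤ y j - M := by
          rw [div_le_iff₀ hb3]
          have : b1 * mu + b4 * mu = (B1 + B4) * mu ^ 2 := by rw [← h0, ← hmu4]; ring
          nlinarith
        linarith
      have h7 : M + (B1 + B4) * mu ^ 2 / b3 ≤ M := le_ciInf hfin
      have h8 : 0 < (B1 + B4) * mu ^ 2 / b3 := by positivity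
      linarith
    · -- system (I)
      set b : ℝ := b1 - mu * B1 with hb
      have hb0 : 0 < b := by rw [hb]; linarith
      set S : ℝ := B1 + B4 with hSdef
      have hnd : 0 < B1 / S ∨ 0 < (A + S * mu) / b := by
        rcases eq_or_lt_of_le hB1 with h1 | h1
        · right
          apply div_pos _ hb0
          have hmuS : S * mu = b4 := by rw [hSdef, ← h1, ← hmu4]; ring
          rw [hmuS]
          rcases hcase with ⟨_, h2 | h2 | h2⟩ | ⟨_, h2⟩
          · rw [← h1] at h2; exact absurd h2 (lt_irrefl _)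
          · linarith
          · linarith
          · rw [← h1] at h2; exact absurd h2 (lt_irrefl _)
        · left; exact div_pos h1 hS
      have hI := I_gain (om := B1 / S) (be := B4 / S) (A := (A + S * mu) / b) (p := b3 / b)
        (div_nonneg hB1 hS.le) (div_nonneg hB4.le hS.le)
        (by rw [← add_div, ← hSdef]; exact div_self hS.ne')
        (div_nonneg (by have := mul_nonneg hS.le hmu0; linarith) hb0.le) (div_pos hb3 hb0) hnd
        (y := fun j => (y j - mu) * (S / b)) (v := v) (r := fun j => (r j - mu) * (S / b))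
        (fun j => mul_nonneg (by linarith [hymu j]) (div_nonneg hS.le hb0.le))
        (by
          intro j
          have h1 := Hv j
          have h2 : v j * (b3 / b) = (b3 * v j) / b := by ring
          rw [h2, ← h1]
          field_simp
          rw [hSdef]; ring)
        (by
          intro j
          have h1 := Hr j
          have h2 : (r j - mu) * (B1 + B4 * v (j + 1)) = b := by
            have : (r j - mu) * (B1 + B4 * v (j + 1)) =
                r j * (B1 + B4 * v (j + 1)) - mu * B1 - (mu * B4) * v (j + 1) := by ring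
            rw [this, h1, hmu4, hb]; ring
          have h3 : (r j - mu) * (S / b) * (B1 / S + B4 / S * v (j + 1)) =
              ((r j - mu) * (B1 + B4 * v (j + 1))) / b := by
            field_simp
          rw [h3, h2]; exact div_self hb0.ne')
        (by
          intro j
          have h1 := Hy j
          have h2 : b * (r j - mu) + b3 * (y (j + 1) - mu) ≤
              (y j - mu) * (A + S * mu + B1 * (r j - mu) + B4 * (r (j + 1) - mu)) := by
            have e1 : (y j - mu) * (A + S * mu + B1 * (r j - mu) + B4 * (r (j + 1) - mu)) =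
                y j * (A + B1 * r j + B4 * r (j + 1)) -
                  mu * (A + B1 * r j) - (mu * B4) * r (j + 1) := by rw [hSdef]; ring
            rw [e1, h1, hmu4, hb]
            have e2 : 0 ≤ mu * (b3 - A) := mul_nonneg hmu0 (by linarith)
            have e3 : 0 ≤ mu * (b1 - mu * B1) := mul_nonneg hmu0 (by linarith)
            nlinarith
          have h3 : (r j - mu) * (S / b) + b3 / b * ((y (j + 1) - mu) * (S / b)) =
              (b * (r j - mu) + b3 * (y (j + 1) - mu)) * (S / b ^ 2) := by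
            field_simp
          have h4 : (y j - mu) * (S / b) * ((A + S * mu) / b + B1 / S * ((r j - mu) * (S / b)) +
              B4 / S * ((r (j + 1) - mu) * (S / b))) =
              ((y j - mu) * (A + S * mu + B1 * (r j - mu) + B4 * (r (j + 1) - mu))) *
                (S / b ^ 2) := by
            field_simp
          rw [h3, h4]
          exact mul_le_mul_of_nonneg_right h2 (by positivity))
      obtain ⟨δ, hδ, h⟩ := hI
      exact ⟨δ, hδ, Or.inl h⟩
  · -- type PLUS
    have hB1' : 0 < B1 := by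
      rcases eq_or_lt_of_le hB1 with h1 | h1
      · rw [← h1] at hm
        have := mul_nonneg hb1 hB4.le
        linarith
      · exact h1
    set mu : ℝ := b1 / B1 with hmu
    have hmu0 : 0 ≤ mu := div_nonneg hb1 hB1
    have hmu1 : mu * B1 = b1 := by rw [hmu]; field_simp
    have hmu4 : mu * B4 < b4 := by
      have : mu * B4 * B1 < b4 * B1 := by
        calc mu * B4 * B1 = (mu * B1) * B4 := by ring
          _ = b1 * B4 := by rw [hmu1]
          _ < b4 * B1 := hm
      exact lt_of_mul_lt_mul_right this hB1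
    have hrmu : ∀ j, mu ≤ r j := by
      intro j
      have h1 : mu * (B1 + B4 * v (j + 1)) ≤ r j * (B1 + B4 * v (j + 1)) := by
        rw [Hr, ← hmu1]
        have := mul_le_mul_of_nonneg_right hmu4.le (hv (j + 1)).le
        nlinarith
      exact le_of_mul_le_mul_right h1 (hden j)
    have hymu := shift_le hA hal hpA hB1 hB4 hmu1.le hmu4.le (fun j => (hy j).le)
      hrmu Hy
    have hvA' : ∀ j, A + (B1 + B4) * mu ≤ b3 * v j := by
      intro j
      rw [← Hv]
      have c1 := mul_le_mul_of_nonneg_left (hymu j) hB1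
      have c2 := mul_le_mul_of_nonneg_left (hymu (j + 1)) hB4.le
      linarith
    rcases lt_or_ge b3 (A + (B1 + B4) * mu) with hlt | hle
    · exact hbig _ hlt hvA'
    set b : ℝ := b4 - mu * B4 with hb
    have hb0 : 0 < b := by rw [hb]; linarith
    set S : ℝ := B1 + B4 with hSdef
    exact HII (om := B1 / S) (be := B4 / S) (A := (A + S * mu) / b) (p := b3 / b)
      (div_pos hB1' hS) (div_pos hB4 hS)
      (by rw [← add_div, ← hSdef]; exact div_self hS.ne')
      (div_nonneg (by have := mul_nonneg hS.le hmu0; linarith) hb0.le) (div_pos hb3 hb0)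
      (div_le_div_of_nonneg_right hle hb0.le)
      (y := fun j => (y j - mu) * (S / b)) (v := v) (r := fun j => (r j - mu) * (S / b))
      (fun j => mul_nonneg (by linarith [hymu j]) (div_nonneg hS.le hb0.le))
      hv
      (by
        intro j
        have h1 := Hv j
        have h2 : v j * (b3 / b) = (b3 * v j) / b := by ring
        rw [h2, ← h1]
        field_simp
        rw [hSdef]; ring)
      (by
        intro j
        have h1 := Hr j
        have h2 : (r j - mu) * (B1 + B4 * v (j + 1)) = b * v (j + 1) := by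
          have : (r j - mu) * (B1 + B4 * v (j + 1)) =
              r j * (B1 + B4 * v (j + 1)) - mu * B1 - (mu * B4) * v (j + 1) := by ring
          rw [this, h1, hmu1, hb]; ring
        have h3 : (r j - mu) * (S / b) * (B1 / S + B4 / S * v (j + 1)) =
            ((r j - mu) * (B1 + B4 * v (j + 1))) / b := by
          field_simp
        rw [h3, h2]
        field_simp)
      (by
        intro j
        have h1 := Hy j
        have h2 : b * (r (j + 1) - mu) + b3 * (y (j + 1) - mu) ≤
            (y j - mu) * (A + S * mu + B1 * (r j - mu) + B4 * (r (j + 1) - mu)) := by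
          have e1 : (y j - mu) * (A + S * mu + B1 * (r j - mu) + B4 * (r (j + 1) - mu)) =
              y j * (A + B1 * r j + B4 * r (j + 1)) -
                mu * (A + B4 * r (j + 1)) - (mu * B1) * r j := by rw [hSdef]; ring
          rw [e1, h1, hmu1, hb]
          have e2 : 0 ≤ mu * (b3 - A) := mul_nonneg hmu0 (by linarith)
          have e3 : 0 ≤ mu * (b4 - mu * B4) := mul_nonneg hmu0 (by linarith)
          nlinarith
        have h3 : (r (j + 1) - mu) * (S / b) + b3 / b * ((y (j + 1) - mu) * (S / b)) =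
            (b * (r (j + 1) - mu) + b3 * (y (j + 1) - mu)) * (S / b ^ 2) := by
          field_simp
        have h4 : (y j - mu) * (S / b) * ((A + S * mu) / b + B1 / S * ((r j - mu) * (S / b)) +
            B4 / S * ((r (j + 1) - mu) * (S / b))) =
            ((y j - mu) * (A + S * mu + B1 * (r j - mu) + B4 * (r (j + 1) - mu))) *
              (S / b ^ 2) := by
          field_simp
        rw [h3, h4]
        exact mul_le_mul_of_nonneg_right h2 (by positivity))

/-- The limit recurrence of type G3 has no positive solution, infinite to the left, whose large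
terms are bounded. -/
theorem G3_of (HII : II_gain_Stmt) {A al b1 b3 b4 B1 B4 : ℝ} (hA : 0 ≤ A)
    (hal : 0 ≤ al) (hb1 : 0 ≤ b1) (hb3 : 0 < b3) (hb4 : 0 ≤ b4) (hB1 : 0 ≤ B1) (hB4 : 0 < B4)
    (hcase : (0 < b1 ∧ (0 < B1 ∨ 0 < A ∨ 0 < b4)) ∨ (0 < b4 ∧ 0 < B1))
    {z y r : ℕ → ℝ} (hz : ∀ j, 0 < z j) (hy : ∀ j, 0 < y j)
    (Hz : ∀ j, z j * (A + B1 * y j + B4 * y (j + 1)) = b3 * z (j + 1))
    (Hy : ∀ j, y j * (A + B1 * r j + B4 * r (j + 1)) =
      al + b1 * r j + b4 * r (j + 1) + b3 * y (j + 1))
    (Hr : ∀ j, r j * (B1 * z (j + 1) + B4 * z (j + 2)) = b1 * z (j + 1) + b4 * z (j + 2)) :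
    ¬ BddAbove (Set.range z) := by
  have hzv : ∀ j, z (j + 1) = z j * (z (j + 1) / z j) := by
    intro j
    have := (hz j).ne'
    field_simp
  refine not_bddAbove_of_gain hz hzv ?_
  refine G3_gain HII hA hal hb1 hb3 hb4 hB1 hB4 hcase (v := fun j => z (j + 1) / z j)
    (fun j => div_pos (hz _) (hz _)) hy ?_ Hy ?_
  · intro j
    have h1 := Hz j
    have h2 := (hz j).ne'
    rw [← mul_div_assoc, ← h1]
    field_simp
  · intro j
    have h1 := Hr j
    have h2 := (hz (j + 1)).ne'
    have e1 : z (j + 1 + 1) = z (j + 2) := rfl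
    rw [e1]
    field_simp
    linarith

end Pool.Agent.RatG3
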