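import Pool.Agent.Lib_helper83.ZFModel

/-!
# Cohen reals indexed by the integers with the 2-adic metric
-/

namespace Pool.Agent.Lib_helper83

open RO

/-- Conditions: finite partial functions from `ℤ × ℕ` to `Bool`. -/
structure Cond where
  f : ℤ → ℕ → Option Bool
  fin : {t : ℤ × ℕ | f t.1 t.2 ≠ none}.Finite

namespace Cond

instance : Preorder Cond where
  le q p := ∀ z m b, p.f z m = some b → q.f z m = some b
  le_refl _ _ _ _ h := h
  le_trans _ _ _ h h' z m b hb := h z m b (h' z m b hb)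

theorem le_def {p q : Cond} : q ≤ p ↔ ∀ z m b, p.f z m = some b → q.f z m = some b := Iff.rfl

/-- the empty condition -/
def nil : Cond := ⟨fun _ _ => none, by simp⟩

open Classical in
instance : Countable Cond := by
  refine Function.Injective.countable
    (f := fun p : Cond => p.fin.toFinset.image fun t => (t, p.f t.1 t.2)) fun p q h => ?_
  have key : ∀ (p q : Cond), (p.fin.toFinset.image fun t => (t, p.f t.1 t.2)) =
      (q.fin.toFinset.image fun t => (t, q.f t.1 t.2)) → ∀ z m, p.f z m ≠ none →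
      p.f z m = q.f z m := by
    intro p q h z m hz
    have h1 : ((z, m), p.f z m) ∈ (p.fin.toFinset.image fun t => (t, p.f t.1 t.2)) :=
      Finset.mem_image.2 ⟨(z, m), by simpa using hz, rfl⟩
    rw [h] at h1
    obtain ⟨t, ht, ht'⟩ := Finset.mem_image.1 h1
    simp only [Prod.mk.injEq] at ht'
    obtain ⟨rfl, h2⟩ := ht'
    exact h2.symm
  have h1 : p.f = q.f := by
    funext z m
    by_cases hz : p.f z m = none
    · by_cases hz' : q.f z m = none
      · rw [hz, hz']
      · exact (key q p h.symm z m hz').symm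
    · exact key p q h z m hz
  cases p; cases q
  congr

/-- indices occurring in a condition -/
theorem finite_dom (p : Cond) : {z : ℤ | ∃ m, p.f z m ≠ none}.Finite := by
  refine (p.fin.image Prod.fst).subset ?_
  rintro z ⟨m, hm⟩
  exact ⟨(z, m), hm, rfl⟩

/-- add one value to a condition -/
noncomputable def upd (p : Cond) (z : ℤ) (m : ℕ) (b : Bool) : Cond :=
  ⟨fun z' m' => if z' = z ∧ m' = m then some b else p.f z' m', by
    refine (p.fin.union (Set.finite_singleton (z, m))).subset ?_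
    rintro ⟨z', m'⟩ h
    by_cases h1 : z' = z ∧ m' = m
    · right; simp [h1]
    · left; simpa [h1] using h⟩

theorem upd_f (p : Cond) (z : ℤ) (m : ℕ) (b : Bool) (z' : ℤ) (m' : ℕ) :
    (p.upd z m b).f z' m' = if z' = z ∧ m' = m then some b else p.f z' m' := rfl

theorem upd_le {p : Cond} {z : ℤ} {m : ℕ} {b : Bool} (h : p.f z m = none) :
    p.upd z m b ≤ p := by
  intro z' m' b' h'
  rw [upd_f, if_neg]
  · exact h'
  · rintro ⟨rfl, rfl⟩
    rw [h] at h'
    exact absurd h' (by simp)

end Cond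

/-- The group of isometries of `ℤ` with the 2-adic metric. -/
def isoG : Subgroup (Equiv.Perm ℤ) where
  carrier := {g | ∀ (n : ℕ) (x y : ℤ), (2 : ℤ) ^ n ∣ x - y ↔ (2 : ℤ) ^ n ∣ g x - g y}
  mul_mem' := fun {g h} hg hh n x y => by
    rw [hh, hg]; rfl
  one_mem' := fun n x y => Iff.rfl
  inv_mem' := fun {g} hg n x y => by
    have := hg n (g⁻¹ x) (g⁻¹ y)
    simpa using this.symm

theorem isoG_smul_def (g : isoG) (z : ℤ) : g • z = (g : Equiv.Perm ℤ) z := rfl

theorem isoG_dvd (g : isoG) (n : ℕ) (x y : ℤ) :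
    (2 : ℤ) ^ n ∣ x - y ↔ (2 : ℤ) ^ n ∣ g • x - g • y := g.2 n x y

instance : MulAction isoG Cond where
  smul g p := ⟨fun z m => p.f (g⁻¹ • z) m, by
    refine (p.fin.image fun t => (g • t.1, t.2)).subset ?_
    rintro ⟨z, m⟩ h
    exact ⟨(g⁻¹ • z, m), h, by simp⟩⟩
  one_smul p := by
    cases p
    change Cond.mk _ _ = _
    congr 1
  mul_smul g h p := by
    cases p
    change Cond.mk _ _ = Cond.mk _ _
    congr 1

theorem smul_f (g : isoG) (p : Cond) (z : ℤ) (m : ℕ) : (g • p).f z m = p.f (g⁻¹ • z) m := rfl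

instance : ActsMono isoG Cond where
  smul_le _ _ _ h _ _ _ hb := h _ _ _ hb

/-- The truth value of `m` belonging to the generic real with index `z`. -/
def bit (z : ℤ) (m : ℕ) : RO Cond :=
  ⟨fun p => p.f z m = some true, fun p q hq hp => hq _ _ _ hp, fun p h => by
    match hpz : p.f z m with
    | none =>
      exfalso
      obtain ⟨r, hr, hr'⟩ := h (p.upd z m false) (Cond.upd_le hpz)
      have := hr z m false (by simp [Cond.upd_f])
      rw [this] at hr'
      exact absurd hr' (by simp)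
    | some true => rfl
    | some false =>
      exfalso
      obtain ⟨r, hr, hr'⟩ := h p le_rfl
      have := hr z m false hpz
      rw [this] at hr'
      exact absurd hr' (by simp)⟩

theorem mem_bit {z : ℤ} {m : ℕ} {p : Cond} : p ∈ bit z m ↔ p.f z m = some true := Iff.rfl

theorem act_bit (g : isoG) (z : ℤ) (m : ℕ) : RO.act g (bit z m) = bit (g • z) m := by
  ext p
  rw [RO.mem_act, mem_bit, mem_bit, smul_f, inv_inv]

/-! ### Isometries -/

section iso

/-- Translate by `a` on a set `A` of integers that is a union of classes modulo `2 ^ L`. -/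
noncomputable def transFun (A : ℤ → Prop) (a : ℤ) (z : ℤ) : ℤ := by
  classical exact if A z then z + a else z

open Classical in
theorem transFun_eq (A : ℤ → Prop) (a z : ℤ) : transFun A a z = if A z then z + a else z := rfl

/-- Translation by `a` on `A` as a permutation. -/
noncomputable def transPerm (L : ℕ) (A : ℤ → Prop) (a : ℤ)
    (hA : ∀ z w : ℤ, (2 : ℤ) ^ L ∣ z - w → (A z ↔ A w)) (ha : (2 : ℤ) ^ L ∣ a) :
    Equiv.Perm ℤ where
  toFun := transFun A a
  invFun := transFun A (-a)
  left_inv z := by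
    have h1 : A (z + a) ↔ A z := hA _ _ (by simpa using ha)
    by_cases h : A z
    · simp [transFun_eq, h, h1]
    · simp [transFun_eq, h]
  right_inv z := by
    have h1 : A (z + -a) ↔ A z := hA _ _ (by simpa using ha)
    by_cases h : A z
    · simp [transFun_eq, h, h1]
    · simp [transFun_eq, h]

theorem dvd_trans_iff {n L : ℕ} {a z w : ℤ} (ha : (2 : ℤ) ^ L ∣ a) (hzw : ¬ (2 : ℤ) ^ L ∣ z - w) :
    (2 : ℤ) ^ n ∣ z - w ↔ (2 : ℤ) ^ n ∣ z + a - w := by
  have e : z + a - w = (z - w) + a := by ring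
  rw [e]
  rcases le_or_gt n L with h | h
  · have h1 : (2 : ℤ) ^ n ∣ a := (pow_dvd_pow 2 h).trans ha
    exact (dvd_add_left h1).symm
  · have h1 : (2 : ℤ) ^ L ∣ (2 : ℤ) ^ n := pow_dvd_pow 2 h.le
    constructor
    · intro h2
      exact absurd (h1.trans h2) hzw
    · intro h2
      exact absurd ((dvd_add_left ha).1 (h1.trans h2)) hzw

/-- Translation by `a` on `A` as an isometry. -/
noncomputable def trans (L : ℕ) (A : ℤ → Prop) (a : ℤ)
    (hA : ∀ z w : ℤ, (2 : ℤ) ^ L ∣ z - w → (A z ↔ A w)) (ha : (2 : ℤ) ^ L ∣ a) : isoG :=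
  ⟨transPerm L A a hA ha, by
    intro n z w
    change _ ↔ (2 : ℤ) ^ n ∣ transFun A a z - transFun A a w
    by_cases hz : A z <;> by_cases hw : A w
    · simp [transFun_eq, hz, hw]
    · simp only [transFun_eq, hz, hw, if_true, if_false]
      exact dvd_trans_iff ha fun h => hw ((hA _ _ h).1 hz)
    · simp only [transFun_eq, hz, hw, if_true, if_false]
      rw [← dvd_neg, ← dvd_neg (b := z - (w + a))]
      have e1 : -(z - w) = w - z := by ring
      have e2 : -(z - (w + a)) = w + a - z := by ring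
      rw [e1, e2]
      exact dvd_trans_iff ha fun h => hz ((hA _ _ h).1 hw)
    · simp [transFun_eq, hz, hw]⟩

theorem trans_smul_of_mem {L : ℕ} {A : ℤ → Prop} {a : ℤ} {hA ha} {z : ℤ} (h : A z) :
    trans L A a hA ha • z = z + a := by
  change transFun A a z = _
  simp [transFun_eq, h]

theorem trans_smul_of_not_mem {L : ℕ} {A : ℤ → Prop} {a : ℤ} {hA ha} {z : ℤ} (h : ¬ A z) :
    trans L A a hA ha • z = z := by
  change transFun A a z = _
  simp [transFun_eq, h]

/-- There is a level separating two disjoint finite sets of integers. -/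
theorem exists_level (s t : Finset ℤ) : ∃ L : ℕ, ∀ x ∈ s, ∀ y ∈ t, x ≠ y →
    ¬ (2 : ℤ) ^ L ∣ x - y := by
  classical
  obtain ⟨L, hL⟩ : ∃ L : ℕ, ∀ x ∈ s, ∀ y ∈ t, |x - y| < (2 : ℤ) ^ L := by
    refine ⟨((s ×ˢ t).sup fun u => (u.1 - u.2).natAbs), fun x hx y hy => ?_⟩
    have h1 : (x - y).natAbs ≤ (s ×ˢ t).sup fun u => (u.1 - u.2).natAbs :=
      Finset.le_sup (f := fun u : ℤ × ℤ => (u.1 - u.2).natAbs) (Finset.mk_mem_product hx hy)
    have h2 := Nat.lt_two_pow_self (n := (s ×ˢ t).sup fun u => (u.1 - u.2).natAbs)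
    rw [Int.abs_eq_natAbs]
    exact_mod_cast lt_of_le_of_lt h1 h2
  refine ⟨L, fun x hx y hy hne h => hne ?_⟩
  have := Int.eq_zero_of_abs_lt_dvd h (hL x hx y hy)
  omega

/-- a power of two outside a finite set -/
theorem exists_pow_notMem (B : Finset ℤ) (m : ℕ) : ∃ k ≥ m, (2 : ℤ) ^ k ∉ B := by
  classical
  refine ⟨max m (B.sup Int.natAbs), le_max_left _ _, fun h => ?_⟩
  have h1 : ((2 : ℤ) ^ (max m (B.sup Int.natAbs))).natAbs ≤ B.sup Int.natAbs :=
    Finset.le_sup (f := Int.natAbs) h
  have h2 : ((2 : ℤ) ^ (max m (B.sup Int.natAbs))).natAbs = 2 ^ (max m (B.sup Int.natAbs)) := by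
    rw [Int.natAbs_pow]; rfl
  rw [h2] at h1
  have h3 := Nat.lt_two_pow_self (n := max m (B.sup Int.natAbs))
  have h4 : B.sup Int.natAbs ≤ max m (B.sup Int.natAbs) := le_max_right _ _
  omega

/-- **Homogeneity**: if the class of `x` modulo `2 ^ l` misses the finite set `e`, then there is an
isometry fixing `e` pointwise, mapping `x` close to a given point `y` of that class and moving all
points of a finite set `F` outside `e` off `F`. -/
theorem exists_iso (e F : Finset ℤ) (x y : ℤ) (l n : ℕ) (hx : ∀ z ∈ e, ¬ (2 : ℤ) ^ l ∣ z - x)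
    (hy : (2 : ℤ) ^ l ∣ y - x) : ∃ g : isoG, Fixes e g ∧ (2 : ℤ) ^ n ∣ g • x - y ∧
      ∀ u ∈ F, u ∉ e → g • u ∉ F := by
  classical
  let h1 : isoG := trans l (fun z => (2 : ℤ) ^ l ∣ z - x) (y - x)
    (fun z w h => by
      have e1 : z - x = (z - w) + (w - x) := by ring
      rw [e1]
      exact dvd_add_right h) hy
  have h1e : ∀ z ∈ e, h1 • z = z := fun z hz => trans_smul_of_not_mem (hx z hz)
  have h1x : h1 • x = y := by
    have : h1 • x = x + (y - x) := trans_smul_of_mem (by simp)
    rw [this]; ring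
  obtain ⟨L, hL⟩ := exists_level (F.image (h1 • ·)) e
  let B : Finset ℤ := (F ×ˢ F.image (h1 • ·)).image fun t => t.1 - t.2
  obtain ⟨k, hk, hkB⟩ := exists_pow_notMem B (max L n)
  let h2 : isoG := trans L (fun z => ∀ w ∈ e, ¬ (2 : ℤ) ^ L ∣ z - w) (2 ^ k)
    (fun z w h => by
      refine forall₂_congr fun u hu => not_congr ?_
      have e1 : z - u = (z - w) + (w - u) := by ring
      rw [e1]
      exact dvd_add_right h) (pow_dvd_pow 2 ((le_max_left _ _).trans hk))
  refine ⟨h2 * h1, fun z hz => ?_, ?_, fun u hu hue hF => ?_⟩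
  · rw [mul_smul, h1e z hz]
    exact trans_smul_of_not_mem fun h => h z hz (by simp)
  · rw [mul_smul, h1x]
    by_cases h : ∀ w ∈ e, ¬ (2 : ℤ) ^ L ∣ y - w
    · have : h2 • y = y + 2 ^ k := trans_smul_of_mem h
      rw [this]
      have e1 : y + 2 ^ k - y = (2 : ℤ) ^ k := by ring
      rw [e1]
      exact pow_dvd_pow 2 ((le_max_right _ _).trans hk)
    · have : h2 • y = y := trans_smul_of_not_mem h
      rw [this]; simp
  · have hu1 : h1 • u ∉ e := by
      intro h
      have : h1 • (h1 • u) = h1 • u := h1e _ h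
      have := smul_left_cancel h1 this
      rw [this] at h
      exact hue h
    have h3 : h2 • (h1 • u) = h1 • u + 2 ^ k := trans_smul_of_mem fun w hw => by
      refine hL _ (Finset.mem_image_of_mem _ hu) w hw ?_
      rintro rfl
      exact hu1 hw
    rw [mul_smul, h3] at hF
    refine hkB (Finset.mem_image.2 ⟨(h1 • u + 2 ^ k, h1 • u), ?_, by ring⟩)
    exact Finset.mk_mem_product hF (Finset.mem_image_of_mem _ hu)

end iso

/-- **Amalgamation of conditions**. -/
theorem exists_amalg (e : Finset ℤ) (x y : ℤ) (l n : ℕ) (hx : ∀ z ∈ e, ¬ (2 : ℤ) ^ l ∣ z - x)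
    (hy : (2 : ℤ) ^ l ∣ y - x) {p q : Cond} (hqp : q ≤ p) :
    ∃ g : isoG, Fixes e g ∧ (2 : ℤ) ^ n ∣ g • x - y ∧ ∃ r ≤ q, r ≤ g • p := by
  classical
  let F : Finset ℤ := p.finite_dom.toFinset ∪ q.finite_dom.toFinset
  obtain ⟨g, hg, hgx, hF⟩ := exists_iso e F x y l n hx hy
  let r : Cond := ⟨fun z m => (q.f z m).or ((g • p).f z m), by
    refine (q.fin.union (g • p).fin).subset ?_
    rintro ⟨z, m⟩ h
    by_contra hcon
    simp only [Set.mem_union, Set.mem_ofPred_eq, not_or, not_not] at hcon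
    apply h
    simp [hcon.1, hcon.2]⟩
  have hr : ∀ z m, r.f z m = (q.f z m).or ((g • p).f z m) := fun _ _ => rfl
  refine ⟨g, hg, hgx, r, fun z m b hb => by rw [hr, hb]; rfl, fun z m b hb => ?_⟩
  rw [hr]
  match hq : q.f z m with
  | none => simpa using hb
  | some b' =>
    have h1 : p.f (g⁻¹ • z) m = some b := hb
    have hu : g⁻¹ • z ∈ F := by
      refine Finset.mem_union_left _ (by simp only [Set.Finite.mem_toFinset]; exact ⟨m, by rw [h1]; simp⟩)
    have hz : z ∈ F := by
      refine Finset.mem_union_right _ (by simp only [Set.Finite.mem_toFinset]; exact ⟨m, by rw [hq]; simp⟩)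
    have hue : g⁻¹ • z ∈ e := by
      by_contra hcon
      exact hF _ hu hcon (by simpa using hz)
    have h2 : g⁻¹ • z = z := by
      have := hg _ hue
      rw [smul_inv_smul] at this
      exact this.symm
    rw [h2] at h1
    have := hqp z m b h1
    rw [hq] at this
    simpa using this

end Pool.Agent.Lib_helper83
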