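import Mathlib

/-!
# Models of ZF and the topological notions inside them

`E x y` is the membership relation `x ∈ y` of a structure `(M, E)` for the language of set theory.
-/

namespace Pool.Agent.Lib_helper83.Defs

open FirstOrder

/-- Satisfaction in `(M, E)` of a first-order formula with free variables `x₀, …, xₙ₋₁`.  The
language is Mathlib's language with exactly one symbol, a binary relation symbol (there called
`Language.order`); the symbol is interpreted as `E`. -/
def Sat {M : Type} (E : M → M → Prop) {n : ℕ} (φ : Language.order.BoundedFormula Empty n)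
    (v : Fin n → M) : Prop :=
  @Language.BoundedFormula.Realize Language.order M (@Language.orderStructure M ⟨E⟩) Empty n φ
    Empty.elim v

section notions

variable {M : Type} (E : M → M → Prop)

/-- `x ⊆ y` -/
def Incl (x y : M) : Prop := ∀ z, E z x → E z y

/-- `p = {a, b}` -/
def UPair (p a b : M) : Prop := ∀ z, E z p ↔ z = a ∨ z = b

/-- `p = (a, b)` (Kuratowski pair) -/
def OPair (p a b : M) : Prop := ∃ s t, UPair E s a a ∧ UPair E t a b ∧ UPair E p s t

/-- `(a, b) ∈ f` -/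
def PairMem (f a b : M) : Prop := ∃ p, OPair E p a b ∧ E p f

/-- `w` contains `∅` and is closed under `a ↦ a ∪ {a}` -/
def Inductive (w : M) : Prop :=
  (∀ z, (∀ x, ¬ E x z) → E z w) ∧ ∀ a s, E a w → (∀ x, E x s ↔ E x a ∨ x = a) → E s w

/-- `n` is a natural number, i.e. it belongs to every inductive set -/
def IsNat (n : M) : Prop := ∀ w, Inductive E w → E n w

/-- `f` is a bijection from `A` onto `B` -/
def Bij (f A B : M) : Prop :=
  (∀ p, E p f → ∃ a b, E a A ∧ E b B ∧ OPair E p a b) ∧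
  (∀ a, E a A → ∃ b, PairMem E f a b ∧ ∀ b', PairMem E f a b' → b' = b) ∧
  (∀ b, E b B → ∃ a, PairMem E f a b ∧ ∀ a', PairMem E f a' b → a' = a)

/-- `F` is in bijection with a natural number -/
def IsFin (F : M) : Prop := ∃ n f, IsNat E n ∧ Bij E f n F

/-- `(M, E)` is a model of Zermelo–Fraenkel set theory -/
structure IsZF : Prop where
  extensionality : ∀ x y, (∀ z, E z x ↔ E z y) → x = y
  foundation : ∀ x, (∃ y, E y x) → ∃ y, E y x ∧ ∀ z, E z y → ¬ E z x
  pairing : ∀ a b, ∃ p, ∀ z, E z p ↔ z = a ∨ z = b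
  union : ∀ a, ∃ u, ∀ z, E z u ↔ ∃ y, E y a ∧ E z y
  powerset : ∀ a, ∃ u, ∀ z, E z u ↔ Incl E z a
  infinity : ∃ w, Inductive E w
  separation : ∀ (n : ℕ) (φ : Language.order.BoundedFormula Empty (n + 1)) (v : Fin n → M) (a : M),
    ∃ b, ∀ x, E x b ↔ E x a ∧ Sat E φ (Fin.snoc v x)
  replacement : ∀ (n : ℕ) (φ : Language.order.BoundedFormula Empty (n + 2)) (v : Fin n → M) (a : M),
    (∀ x, E x a → ∃! y, Sat E φ (Fin.snoc (Fin.snoc v x : Fin (n + 1) → M) y)) →
      ∃ b, ∀ y, E y b ↔ ∃ x, E x a ∧ Sat E φ (Fin.snoc (Fin.snoc v x : Fin (n + 1) → M) y)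

/-! ### Ultrametric spaces in `(M, E)`

An ultrametric `d` on `X` with values in `{0} ∪ {2⁻ⁿ : n ∈ ω}` is coded by the set `r` of all
`(n, (x, y))` with `d(x, y) ≤ 2⁻ⁿ`. -/

/-- `(n, (x, y)) ∈ r`, read `d(x, y) ≤ 2⁻ⁿ` -/
def Near (r n x y : M) : Prop := ∃ t, OPair E t x y ∧ PairMem E r n t

/-- `r` codes an ultrametric `d` on `X` with values in `{0} ∪ {2⁻ⁿ : n ∈ ω}` -/
structure IsUltrametric (r X : M) : Prop where
  zero : ∀ n, (∀ m, ¬ E m n) → ∀ x, E x X → ∀ y, E y X → Near E r n x y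
  refl : ∀ n, IsNat E n → ∀ x, E x X → Near E r n x x
  symm : ∀ n, IsNat E n → ∀ x, E x X → ∀ y, E y X → Near E r n x y → Near E r n y x
  trans : ∀ n, IsNat E n → ∀ x, E x X → ∀ y, E y X → ∀ z, E z X →
    Near E r n x y → Near E r n y z → Near E r n x z
  anti : ∀ n, IsNat E n → ∀ m, E m n → ∀ x, E x X → ∀ y, E y X → Near E r n x y → Near E r m x y
  sep : ∀ x, E x X → ∀ y, E y X → (∀ n, IsNat E n → Near E r n x y) → x = y

/-- `O` is an open subset of the subspace `Y` -/
def OpenIn (r O Y : M) : Prop :=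
  Incl E O Y ∧ ∀ x, E x O → ∃ n, IsNat E n ∧ ∀ y, E y Y → Near E r n x y → E y O

/-- the subspace `Y` is compact: every cover of `Y` by open subsets of `Y` has a finite subcover -/
def Compact (r Y : M) : Prop :=
  ∀ C, (∀ U, E U C → OpenIn E r U Y) → (∀ x, E x Y → ∃ U, E U C ∧ E x U) →
    ∃ F, Incl E F C ∧ IsFin E F ∧ ∀ x, E x Y → ∃ U, E U F ∧ E x U

/-- the subspace `Y` is scattered: every nonempty subset `Z` has a point isolated in `Z` -/
def Scattered (r Y : M) : Prop :=
  ∀ Z, Incl E Z Y → (∃ z, E z Z) →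
    ∃ z, E z Z ∧ ∃ n, IsNat E n ∧ ∀ y, E y Z → Near E r n z y → y = z

end notions

end Pool.Agent.Lib_helper83.Defs
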