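import Pool.Agent.Lib_helper83.ZFModel

/-!
# Finite sets: two-valued lemmas and their transfer to forcing
-/

namespace Pool.Agent.Lib_helper83

open RO Defs

/-! ### Transfer of theorems of ZF -/

namespace Fml

/-- universal closure -/
def allN : (n : ℕ) → Fml n → Fml 0
  | 0, φ => φ
  | n + 1, φ => allN n (all φ)

theorem eq_vecCons {S : Type*} {n : ℕ} (w : Fin (n + 1) → S) :
    w = Matrix.vecCons (w 0) fun i => w i.succ := by
  funext i; refine Fin.cases ?_ (fun i => ?_) i <;> rfl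

theorem rz_allN {M : Type*} (E : M → M → Prop) : ∀ (n : ℕ) (φ : Fml n) (w : Fin 0 → M),
    rz E (allN n φ) w ↔ ∀ v, rz E φ v
  | 0, φ, w => ⟨fun h v => by rwa [Subsingleton.elim v w], fun h => h w⟩
  | n + 1, φ, w => by
    rw [allN, rz_allN E n]
    constructor
    · intro h v
      rw [eq_vecCons v]
      exact h _ _
    · intro h v x
      exact h _

theorem ev_allN {P : Type} [Preorder P] {S : Type*} (V : VStr P S) {p : P} :
    ∀ (n : ℕ) (φ : Fml n) (w : Fin 0 → S), p ∈ ev V (allN n φ) w ↔ ∀ v, p ∈ ev V φ v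
  | 0, φ, w => ⟨fun h v => by rwa [Subsingleton.elim v w], fun h => h w⟩
  | n + 1, φ, w => by
    rw [allN, ev_allN V n]
    constructor
    · intro h v
      rw [eq_vecCons v]
      exact h _ _
    · intro h v x
      exact h _

end Fml

/-- A formula that holds in all models of ZF is valid in every symmetric extension. -/
theorem valid_of_zf {P : Type} [Preorder P] {G : Type} [Group G] [MulAction G P] [ActsMono G P]
    {D : Type} [MulAction G D] [Countable P] {n : ℕ} (φ : Fml n)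
    (h : ∀ (M : Type) (E : M → M → Prop), IsZF E → ∀ v : Fin n → M, Fml.rz E φ v) :
    Valid P G D φ := by
  intro v p
  by_contra hp
  have h1 : p ∉ fv (Fml.allN n φ) (![] : Fin 0 → Sy P G D) := by
    intro h1
    exact hp ((Fml.ev_allN (SyV P G D) n φ _).1 h1 v)
  obtain ⟨q, _, hq⟩ := RO.exists_not h1
  obtain ⟨M, E, f, F, hF, hM, hZF⟩ := exists_zf_model (G := G) (D := D) q
  have h2 : Fml.rz E (Fml.not (Fml.allN n φ)) ![] := by
    rw [hM]
    refine hF _ ?_
    rw [Subsingleton.elim (f ∘ ![]) ![]]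
    exact hq
  rw [Fml.rz_not, Fml.rz_allN] at h2
  exact h2 fun v => h M E hZF v

/-! ### Two-valued lemmas -/

section two

variable {M : Type} {E : M → M → Prop}

theorem Defs.OPair.inj {p a b a' b' : M} (h : OPair E p a b) (h' : OPair E p a' b') :
    a = a' ∧ b = b' := by
  obtain ⟨s, t, hs, ht, hp⟩ := h
  obtain ⟨s', t', hs', ht', hp'⟩ := h'
  have e1 : a = a' := by
    rcases (hp' s).1 ((hp s).2 (Or.inl rfl)) with rfl | rfl
    · have := (hs' a).1 ((hs a).2 (Or.inl rfl)); simpa using this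
    · exact (or_self_iff.1 ((hs a').1 ((ht' a').2 (Or.inl rfl)))).symm
  subst e1
  refine ⟨rfl, ?_⟩
  rcases (hp' t).1 ((hp t).2 (Or.inr rfl)) with rfl | rfl
  · have hb : b = a := by
      have := (hs' b).1 ((ht b).2 (Or.inr rfl)); simpa using this
    rcases (hp t').1 ((hp' t').2 (Or.inr rfl)) with rfl | rfl
    · rw [hb]
      exact (or_self_iff.1 ((hs b').1 ((ht' b').2 (Or.inr rfl)))).symm
    · rw [hb]
      exact (or_self_iff.1 ((hs' b').1 ((ht' b').2 (Or.inr rfl)))).symm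
  · rcases (ht' b).1 ((ht b).2 (Or.inr rfl)) with h1 | h1
    · rcases (ht b').1 ((ht' b').2 (Or.inr rfl)) with h2 | h2
      · rw [h1, h2]
      · exact h2.symm
    · exact h1

variable (hZ : IsZF E)
include hZ

theorem Defs.IsZF.exists_upair (a b : M) : ∃ p, UPair E p a b := hZ.pairing a b

theorem Defs.IsZF.exists_opair (a b : M) : ∃ p, OPair E p a b := by
  obtain ⟨s, hs⟩ := hZ.exists_upair a a
  obtain ⟨t, ht⟩ := hZ.exists_upair a b
  obtain ⟨p, hp⟩ := hZ.exists_upair s t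
  exact ⟨p, s, t, hs, ht, hp⟩

theorem Defs.IsZF.upair_unique {p p' a b : M} (h : UPair E p a b) (h' : UPair E p' a b) : p = p' :=
  hZ.extensionality _ _ fun z => (h z).trans (h' z).symm

theorem Defs.IsZF.opair_unique {p p' a b : M} (h : OPair E p a b) (h' : OPair E p' a b) : p = p' := by
  obtain ⟨s, t, hs, ht, hp⟩ := h
  obtain ⟨s', t', hs', ht', hp'⟩ := h'
  obtain rfl := hZ.upair_unique hs hs'
  obtain rfl := hZ.upair_unique ht ht'
  exact hZ.upair_unique hp hp'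

/-- existence of `s ∪ {a}` -/
theorem Defs.IsZF.exists_insert (s a : M) : ∃ t, ∀ z, E z t ↔ E z s ∨ z = a := by
  obtain ⟨u, hu⟩ := hZ.exists_upair a a
  obtain ⟨w, hw⟩ := hZ.exists_upair s u
  obtain ⟨t, ht⟩ := hZ.union w
  refine ⟨t, fun z => ?_⟩
  rw [ht]
  constructor
  · rintro ⟨y, hy, hz⟩
    rcases (hw y).1 hy with rfl | rfl
    · exact Or.inl hz
    · exact Or.inr (by simpa using (hu z).1 hz)
  · rintro (h | rfl)
    · exact ⟨s, (hw s).2 (Or.inl rfl), h⟩
    · exact ⟨u, (hw u).2 (Or.inr rfl), (hu z).2 (Or.inl rfl)⟩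

theorem Defs.IsZF.not_mem_self (x : M) : ¬ E x x := by
  intro h
  obtain ⟨s, hs⟩ := hZ.exists_upair x x
  obtain ⟨y, hy, hy'⟩ := hZ.foundation s ⟨x, (hs x).2 (Or.inl rfl)⟩
  have : y = x := by simpa using (hs y).1 hy
  subst this
  exact hy' y h hy

theorem Defs.IsZF.isFin_insert {F t a : M} (hF : IsFin E F) (ht : ∀ z, E z t ↔ E z F ∨ z = a) :
    IsFin E t := by
  by_cases haF : E a F
  · have : t = F := hZ.extensionality _ _ fun z => by
      rw [ht]
      constructor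
      · rintro (h | rfl)
        · exact h
        · exact haF
      · exact Or.inl
    rwa [this]
  obtain ⟨n, f, hn, hf1, hf2, hf3⟩ := hF
  obtain ⟨n', hn'⟩ := hZ.exists_insert n n
  obtain ⟨p, hp⟩ := hZ.exists_opair n a
  obtain ⟨f', hf'⟩ := hZ.exists_insert f p
  have hPM : ∀ i b, PairMem E f' i b ↔ PairMem E f i b ∨ (i = n ∧ b = a) := by
    intro i b
    constructor
    · rintro ⟨q, hq, hq'⟩
      rcases (hf' q).1 hq' with h | rfl
      · exact Or.inl ⟨q, hq, h⟩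
      · exact Or.inr (hq.inj hp)
    · rintro (⟨q, hq, hq'⟩ | ⟨rfl, rfl⟩)
      · exact ⟨q, hq, (hf' q).2 (Or.inl hq')⟩
      · exact ⟨p, hp, (hf' p).2 (Or.inr rfl)⟩
  have hdom : ∀ i b, PairMem E f i b → E i n ∧ E b F := by
    rintro i b ⟨q, hq, hq'⟩
    obtain ⟨i', b', hi', hb', hq''⟩ := hf1 q hq'
    obtain ⟨rfl, rfl⟩ := hq.inj hq''
    exact ⟨hi', hb'⟩
  refine ⟨n', f', ?_, ?_, ?_, ?_⟩
  · intro w hw
    exact hw.2 n n' (hn w hw) hn'
  · intro q hq
    rcases (hf' q).1 hq with h | rfl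
    · obtain ⟨i, b, hi, hb, hq'⟩ := hf1 q h
      exact ⟨i, b, (hn' i).2 (Or.inl hi), (ht b).2 (Or.inl hb), hq'⟩
    · exact ⟨n, a, (hn' n).2 (Or.inr rfl), (ht a).2 (Or.inr rfl), hp⟩
  · intro i hi
    rcases (hn' i).1 hi with h | rfl
    · obtain ⟨b, hb, hb'⟩ := hf2 i h
      refine ⟨b, (hPM i b).2 (Or.inl hb), fun b' hb'' => ?_⟩
      rcases (hPM i b').1 hb'' with h1 | ⟨rfl, -⟩
      · exact hb' b' h1
      · exact (hZ.not_mem_self _ h).elim
    · refine ⟨a, (hPM i a).2 (Or.inr ⟨rfl, rfl⟩), fun b' hb'' => ?_⟩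
      rcases (hPM i b').1 hb'' with h1 | ⟨-, rfl⟩
      · exact (hZ.not_mem_self _ (hdom _ _ h1).1).elim
      · rfl
  · intro b hb
    rcases (ht b).1 hb with h | rfl
    · obtain ⟨i, hi, hi'⟩ := hf3 b h
      refine ⟨i, (hPM i b).2 (Or.inl hi), fun i' hi'' => ?_⟩
      rcases (hPM i' b).1 hi'' with h1 | ⟨-, rfl⟩
      · exact hi' i' h1
      · exact (haF h).elim
    · refine ⟨n, (hPM n b).2 (Or.inr ⟨rfl, rfl⟩), fun i' hi'' => ?_⟩
      rcases (hPM i' b).1 hi'' with h1 | ⟨rfl, -⟩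
      · exact (haF (hdom _ _ h1).2).elim
      · rfl

theorem Defs.IsZF.exists_empty : ∃ z, ∀ x, ¬ E x z := by
  obtain ⟨w, hw⟩ := hZ.infinity
  obtain ⟨b, hb⟩ := hZ.separation 0 (FirstOrder.Language.BoundedFormula.falsum) ![] w
  exact ⟨b, fun x hx => ((hb x).1 hx).2⟩

omit hZ in
theorem Defs.isFin_empty {F : M} (hF : ∀ x, ¬ E x F) : IsFin E F := by
  refine ⟨F, F, fun w hw => hw.1 F hF, fun p hp => (hF p hp).elim, fun a ha => (hF a ha).elim,
    fun b hb => (hF b hb).elim⟩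

end two

/-! ### Forced versions -/

namespace Sy

variable {P : Type} [Preorder P] {G : Type} [Group G] [MulAction G P] [ActsMono G P]
  {D : Type} [MulAction G D]

theorem rFin_insert [Countable P] {F t a : Sy P G D} {p : P} (hF : p ∈ rFin F)
    (ht : ∀ z, ∀ q ≤ p, q ∈ mem z t ↔ q ∈ RO.or (mem z F) (eq z a)) : p ∈ rFin t := by
  have h := valid_of_zf (P := P) (G := G) (D := D)
    (Fml.imp (Fml.fFin 0) (Fml.imp (Fml.all (Fml.iff (Fml.mem 0 2) (Fml.or (Fml.mem 0 1)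
      (Fml.eq 0 3)))) (Fml.fFin 1)) : Fml 3) (by
    intro M E hZ v
    rw [Fml.rz_imp, Fml.rz_imp, Fml.rz_fFin, Fml.rz_fFin, Fml.rz_all]
    intro h1 h2
    exact hZ.isFin_insert (a := v 2) h1 fun z => (Fml.rz_iff _ _ _ _).1 (h2 z)) ![F, t, a] p
  refine h p le_rfl hF p le_rfl fun z => ?_
  beta_reduce
  rw [Fml.ev_iff, RO.mem_iff]
  exact ht z

theorem rFin_empty [Countable P] {F : Sy P G D} {p : P} (hF : ∀ z, ∀ q ≤ p, q ∉ mem z F) :
    p ∈ rFin F := by
  have h := valid_of_zf (P := P) (G := G) (D := D)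
    (Fml.imp (Fml.all (Fml.not (Fml.mem 0 1))) (Fml.fFin 0) : Fml 1) (by
    intro M E hZ v
    rw [Fml.rz_imp, Fml.rz_fFin, Fml.rz_all]
    intro h1
    exact Defs.isFin_empty fun x => h1 x) ![F] p
  exact h p le_rfl hF

theorem exists_insert (s a : Sy P G D) : ∃ t : Sy P G D, ∀ z p, p ∈ mem z t ↔
    ∀ q ≤ p, ∃ r ≤ q, r ∈ mem z s ∨ r ∈ eq z a := by
  obtain ⟨t, ht⟩ := exists_union (pair s (pair a a))
  refine ⟨t, fun z p => ?_⟩
  rw [ht]
  constructor
  · intro h q hq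
    obtain ⟨r, hr, w, hw, hz⟩ := h q hq
    obtain ⟨r', hr', hw' | hw'⟩ := mem_mem_pair.1 hw r le_rfl
    · exact ⟨r', hr'.trans hr, Or.inl (mem_congr_right hw' (RO.mono hr' hz))⟩
    · exact ⟨r', hr'.trans hr, Or.inr (mem_mem_single.1 (mem_congr_right hw' (RO.mono hr' hz)))⟩
  · intro h q hq
    obtain ⟨r, hr, hz | hz⟩ := h q hq
    · exact ⟨r, hr, s, left_mem_pair _ _ _, hz⟩
    · exact ⟨r, hr, pair a a, right_mem_pair _ _ _, mem_mem_single.2 hz⟩

/-- finite sets of names -/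
theorem exists_fset [Countable P] (l : List (Sy P G D)) : ∃ F : Sy P G D,
    (∀ z p, p ∈ mem z F ↔ ∀ q ≤ p, ∃ r ≤ q, ∃ a ∈ l, r ∈ eq z a) ∧ ∀ p, p ∈ rFin F := by
  induction l with
  | nil =>
    obtain ⟨F, hF⟩ := exists_empty (P := P) (G := G) (D := D)
    refine ⟨F, fun z p => ?_, fun p => rFin_empty fun z q _ => hF z q⟩
    constructor
    · intro h; exact (hF _ _ h).elim
    · intro h
      obtain ⟨_, _, a, ha, _⟩ := h p le_rfl
      simp at ha
  | cons a l ih =>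
    obtain ⟨F, hF, hF'⟩ := ih
    obtain ⟨t, ht⟩ := exists_insert F a
    refine ⟨t, fun z p => ?_, fun p => rFin_insert (hF' p) fun z q _ => ht z q⟩
    rw [ht]
    constructor
    · intro h q hq
      obtain ⟨r, hr, hz | hz⟩ := h q hq
      · obtain ⟨s, hs, b, hb, hb'⟩ := (hF _ _).1 hz r le_rfl
        exact ⟨s, hs.trans hr, b, List.mem_cons_of_mem _ hb, hb'⟩
      · exact ⟨r, hr, a, List.mem_cons_self, hz⟩
    · intro h q hq
      obtain ⟨r, hr, b, hb, hb'⟩ := h q hq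
      rcases List.mem_cons.1 hb with rfl | hb
      · exact ⟨r, hr, Or.inr hb'⟩
      · exact ⟨r, hr, Or.inl ((hF _ _).2 fun s hs => ⟨s, le_rfl, b, hb, RO.mono hs hb'⟩)⟩

end Sy

end Pool.Agent.Lib_helper83
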