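import Pool.Agent.Lib_helper83.RO

/-!
# Formulas of set theory, their values in `RO P`-valued structures, and generic quotients
-/

namespace Pool.Agent.Lib_helper83

open RO

/-- Formulas of the language of set theory, with free variables in `Fin n` (de Bruijn indices: the
quantifiers bind the variable `0`). -/
inductive Fml : ℕ → Type
  | mem {n : ℕ} (i j : Fin n) : Fml n
  | eq {n : ℕ} (i j : Fin n) : Fml n
  | bot {n : ℕ} : Fml n
  | imp {n : ℕ} (φ ψ : Fml n) : Fml n
  | and {n : ℕ} (φ ψ : Fml n) : Fml n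
  | or {n : ℕ} (φ ψ : Fml n) : Fml n
  | not {n : ℕ} (φ : Fml n) : Fml n
  | all {n : ℕ} (φ : Fml (n + 1)) : Fml n
  | ex {n : ℕ} (φ : Fml (n + 1)) : Fml n

namespace Fml

/-- equivalence -/
def iff {n : ℕ} (φ ψ : Fml n) : Fml n := and (imp φ ψ) (imp ψ φ)

/-- An `RO P`-valued structure for the language of set theory. -/
structure VStr (P : Type) [Preorder P] (S : Type*) where
  mem : S → S → RO P
  eq : S → S → RO P
  refl : ∀ x p, p ∈ eq x x
  symm : ∀ {x y p}, p ∈ eq x y → p ∈ eq y x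
  trans : ∀ {x y z p}, p ∈ eq x y → p ∈ eq y z → p ∈ eq x z
  congr : ∀ {x y z w p}, p ∈ eq x y → p ∈ eq z w → p ∈ mem x z → p ∈ mem y w

variable {P : Type} [Preorder P] {S : Type*}

/-- The truth value of a formula. -/
def ev (V : VStr P S) : {n : ℕ} → Fml n → (Fin n → S) → RO P
  | _, mem i j, v => V.mem (v i) (v j)
  | _, eq i j, v => V.eq (v i) (v j)
  | _, bot, _ => RO.bot
  | _, imp φ ψ, v => RO.imp (ev V φ v) (ev V ψ v)
  | _, and φ ψ, v => RO.and (ev V φ v) (ev V ψ v)
  | _, or φ ψ, v => RO.or (ev V φ v) (ev V ψ v)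
  | _, not φ, v => RO.not (ev V φ v)
  | _, all φ, v => RO.all fun x : S => ev V φ (Matrix.vecCons x v)
  | _, ex φ, v => RO.ex fun x : S => ev V φ (Matrix.vecCons x v)

/-- Satisfaction in a two-valued structure. -/
def rz {M : Type*} (E : M → M → Prop) : {n : ℕ} → Fml n → (Fin n → M) → Prop
  | _, mem i j, v => E (v i) (v j)
  | _, eq i j, v => v i = v j
  | _, bot, _ => False
  | _, imp φ ψ, v => rz E φ v → rz E ψ v
  | _, and φ ψ, v => rz E φ v ∧ rz E ψ v
  | _, or φ ψ, v => rz E φ v ∨ rz E ψ v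
  | _, not φ, v => ¬ rz E φ v
  | _, all φ, v => ∀ x : M, rz E φ (Matrix.vecCons x v)
  | _, ex φ, v => ∃ x : M, rz E φ (Matrix.vecCons x v)

section ev_lemmas

variable (V : VStr P S) {n : ℕ} (v : Fin n → S)

@[simp] theorem ev_mem (i j : Fin n) : ev V (mem i j) v = V.mem (v i) (v j) := rfl
@[simp] theorem ev_eq (i j : Fin n) : ev V (eq i j) v = V.eq (v i) (v j) := rfl
@[simp] theorem ev_bot : ev V (bot : Fml n) v = RO.bot := rfl
@[simp] theorem ev_imp (φ ψ : Fml n) : ev V (imp φ ψ) v = RO.imp (ev V φ v) (ev V ψ v) := rfl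
@[simp] theorem ev_and (φ ψ : Fml n) : ev V (and φ ψ) v = RO.and (ev V φ v) (ev V ψ v) := rfl
@[simp] theorem ev_or (φ ψ : Fml n) : ev V (or φ ψ) v = RO.or (ev V φ v) (ev V ψ v) := rfl
@[simp] theorem ev_not (φ : Fml n) : ev V (not φ) v = RO.not (ev V φ v) := rfl
@[simp] theorem ev_iff (φ ψ : Fml n) : ev V (iff φ ψ) v = RO.iff (ev V φ v) (ev V ψ v) := rfl
@[simp] theorem ev_all (φ : Fml (n + 1)) :
    ev V (all φ) v = RO.all fun x : S => ev V φ (Matrix.vecCons x v) := rfl
@[simp] theorem ev_ex (φ : Fml (n + 1)) :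
    ev V (ex φ) v = RO.ex fun x : S => ev V φ (Matrix.vecCons x v) := rfl

end ev_lemmas

section rz_lemmas

variable {M : Type*} (E : M → M → Prop) {n : ℕ} (v : Fin n → M)

@[simp] theorem rz_mem (i j : Fin n) : rz E (mem i j) v ↔ E (v i) (v j) := Iff.rfl
@[simp] theorem rz_eq (i j : Fin n) : rz E (eq i j) v ↔ v i = v j := Iff.rfl
@[simp] theorem rz_bot : rz E (bot : Fml n) v ↔ False := Iff.rfl
@[simp] theorem rz_imp (φ ψ : Fml n) : rz E (imp φ ψ) v ↔ (rz E φ v → rz E ψ v) := Iff.rfl
@[simp] theorem rz_and (φ ψ : Fml n) : rz E (and φ ψ) v ↔ (rz E φ v ∧ rz E ψ v) := Iff.rfl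
@[simp] theorem rz_or (φ ψ : Fml n) : rz E (or φ ψ) v ↔ (rz E φ v ∨ rz E ψ v) := Iff.rfl
@[simp] theorem rz_not (φ : Fml n) : rz E (not φ) v ↔ ¬ rz E φ v := Iff.rfl
@[simp] theorem rz_iff (φ ψ : Fml n) : rz E (iff φ ψ) v ↔ (rz E φ v ↔ rz E ψ v) := by
  simp [iff, iff_def]
@[simp] theorem rz_all (φ : Fml (n + 1)) :
    rz E (all φ) v ↔ ∀ x : M, rz E φ (Matrix.vecCons x v) := Iff.rfl
@[simp] theorem rz_ex (φ : Fml (n + 1)) :
    rz E (ex φ) v ↔ ∃ x : M, rz E φ (Matrix.vecCons x v) := Iff.rfl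

end rz_lemmas

/-- Lift a renaming under a binder. -/
def liftR {m n : ℕ} (f : Fin m → Fin n) : Fin (m + 1) → Fin (n + 1) :=
  Fin.cases 0 (fun i => (f i).succ)

/-- Renaming of variables. -/
def ren : {m n : ℕ} → (Fin m → Fin n) → Fml m → Fml n
  | _, _, f, mem i j => mem (f i) (f j)
  | _, _, f, eq i j => eq (f i) (f j)
  | _, _, _, bot => bot
  | _, _, f, imp φ ψ => imp (ren f φ) (ren f ψ)
  | _, _, f, and φ ψ => and (ren f φ) (ren f ψ)
  | _, _, f, or φ ψ => or (ren f φ) (ren f ψ)
  | _, _, f, not φ => not (ren f φ)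
  | _, _, f, all φ => all (ren (liftR f) φ)
  | _, _, f, ex φ => ex (ren (liftR f) φ)

theorem vecCons_comp_liftR {m n : ℕ} {S : Type*} (f : Fin m → Fin n) (x : S) (v : Fin n → S) :
    Matrix.vecCons x v ∘ liftR f = Matrix.vecCons x (v ∘ f) := by
  funext i
  refine Fin.cases ?_ (fun i => ?_) i <;> simp [liftR]

theorem ev_ren (V : VStr P S) {m n : ℕ} (f : Fin m → Fin n) (φ : Fml m) (v : Fin n → S) :
    ev V (ren f φ) v = ev V φ (v ∘ f) := by
  induction φ generalizing n with
  | mem i j => rfl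
  | eq i j => rfl
  | bot => rfl
  | imp φ ψ ih1 ih2 => simp [ren, ih1, ih2]
  | and φ ψ ih1 ih2 => simp [ren, ih1, ih2]
  | or φ ψ ih1 ih2 => simp [ren, ih1, ih2]
  | not φ ih => simp [ren, ih]
  | all φ ih => simp [ren, ih, vecCons_comp_liftR]
  | ex φ ih => simp [ren, ih, vecCons_comp_liftR]

theorem rz_ren {M : Type*} (E : M → M → Prop) {m n : ℕ} (f : Fin m → Fin n) (φ : Fml m)
    (v : Fin n → M) : rz E (ren f φ) v ↔ rz E φ (v ∘ f) := by
  induction φ generalizing n with
  | mem i j => rfl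
  | eq i j => rfl
  | bot => rfl
  | imp φ ψ ih1 ih2 => simp [ren, ih1, ih2]
  | and φ ψ ih1 ih2 => simp [ren, ih1, ih2]
  | or φ ψ ih1 ih2 => simp [ren, ih1, ih2]
  | not φ ih => simp [ren, ih]
  | all φ ih => simp [ren, ih, vecCons_comp_liftR]
  | ex φ ih => simp [ren, ih, vecCons_comp_liftR]

/-- Formulas respect forced equality. -/
theorem ev_congr (V : VStr P S) {n : ℕ} (φ : Fml n) {v w : Fin n → S} {p : P}
    (h : ∀ i, p ∈ V.eq (v i) (w i)) : p ∈ ev V φ v ↔ p ∈ ev V φ w := by
  induction φ generalizing p with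
  | mem i j =>
    exact ⟨V.congr (h i) (h j), V.congr (V.symm (h i)) (V.symm (h j))⟩
  | eq i j =>
    exact ⟨fun h' => V.trans (V.trans (V.symm (h i)) h') (h j),
      fun h' => V.trans (V.trans (h i) h') (V.symm (h j))⟩
  | bot => rfl
  | imp φ ψ ih1 ih2 =>
    simp only [ev_imp, RO.mem_imp]
    refine forall₂_congr fun q hq => ?_
    rw [ih1 fun i => RO.mono hq (h i), ih2 fun i => RO.mono hq (h i)]
  | and φ ψ ih1 ih2 => simp only [ev_and, RO.mem_and, ih1 h, ih2 h]
  | or φ ψ ih1 ih2 =>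
    simp only [ev_or, RO.mem_or]
    refine forall₂_congr fun q hq => exists_congr fun r => and_congr_right fun hr => ?_
    rw [ih1 fun i => RO.mono (hr.trans hq) (h i), ih2 fun i => RO.mono (hr.trans hq) (h i)]
  | not φ ih =>
    simp only [ev_not, RO.mem_not]
    refine forall₂_congr fun q hq => ?_
    rw [ih fun i => RO.mono hq (h i)]
  | all φ ih =>
    simp only [ev_all, RO.mem_all]
    refine forall_congr' fun x => ih fun i => ?_
    refine Fin.cases ?_ (fun i => ?_) i
    · exact V.refl _ _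
    · exact h i
  | ex φ ih =>
    simp only [ev_ex, RO.mem_ex]
    refine forall₂_congr fun q hq => exists_congr fun r => and_congr_right fun hr =>
      exists_congr fun x => ih fun i => ?_
    refine Fin.cases ?_ (fun i => ?_) i
    · exact V.refl _ _
    · exact RO.mono (hr.trans hq) (h i)

/-! ### Countability of the set of formulas -/

/-- codes of formulas -/
def code : {n : ℕ} → Fml n → List ℕ
  | _, mem i j => [0, i, j]
  | _, eq i j => [1, i, j]
  | _, bot => [2]
  | _, imp φ ψ => 3 :: (code φ ++ code ψ)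
  | _, and φ ψ => 4 :: (code φ ++ code ψ)
  | _, or φ ψ => 5 :: (code φ ++ code ψ)
  | _, not φ => 6 :: code φ
  | _, all φ => 7 :: code φ
  | _, ex φ => 8 :: code φ

theorem code_append_inj : ∀ {n : ℕ} (φ ψ : Fml n) (l l' : List ℕ),
    code φ ++ l = code ψ ++ l' → φ = ψ ∧ l = l'
  | _, mem i j, ψ, l, l', h => by
    cases ψ with
    | mem a b =>
      simp only [code, List.cons_append, List.nil_append, List.cons.injEq, true_and] at h
      obtain ⟨h1, h2, h3⟩ := h
      exact ⟨by rw [Fin.ext h1, Fin.ext h2], h3⟩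
    | _ => simp [code] at h
  | _, eq i j, ψ, l, l', h => by
    cases ψ with
    | eq a b =>
      simp only [code, List.cons_append, List.nil_append, List.cons.injEq, true_and] at h
      obtain ⟨h1, h2, h3⟩ := h
      exact ⟨by rw [Fin.ext h1, Fin.ext h2], h3⟩
    | _ => simp [code] at h
  | _, bot, ψ, l, l', h => by
    cases ψ with
    | bot =>
      simp only [code, List.cons_append, List.nil_append, List.cons.injEq, true_and] at h
      exact ⟨rfl, h⟩
    | _ => simp [code] at h
  | _, imp φ₁ φ₂, ψ, l, l', h => by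
    cases ψ with
    | imp a b =>
      simp only [code, List.cons_append, List.append_assoc, List.cons.injEq, true_and] at h
      obtain ⟨h1, h2⟩ := code_append_inj _ _ _ _ h
      obtain ⟨h3, h4⟩ := code_append_inj _ _ _ _ h2
      exact ⟨by rw [h1, h3], h4⟩
    | _ => simp [code] at h
  | _, and φ₁ φ₂, ψ, l, l', h => by
    cases ψ with
    | and a b =>
      simp only [code, List.cons_append, List.append_assoc, List.cons.injEq, true_and] at h
      obtain ⟨h1, h2⟩ := code_append_inj _ _ _ _ h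
      obtain ⟨h3, h4⟩ := code_append_inj _ _ _ _ h2
      exact ⟨by rw [h1, h3], h4⟩
    | _ => simp [code] at h
  | _, or φ₁ φ₂, ψ, l, l', h => by
    cases ψ with
    | or a b =>
      simp only [code, List.cons_append, List.append_assoc, List.cons.injEq, true_and] at h
      obtain ⟨h1, h2⟩ := code_append_inj _ _ _ _ h
      obtain ⟨h3, h4⟩ := code_append_inj _ _ _ _ h2
      exact ⟨by rw [h1, h3], h4⟩
    | _ => simp [code] at h
  | _, not φ, ψ, l, l', h => by
    cases ψ with
    | not a =>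
      simp only [code, List.cons_append, List.cons.injEq, true_and] at h
      obtain ⟨h1, h2⟩ := code_append_inj _ _ _ _ h
      exact ⟨by rw [h1], h2⟩
    | _ => simp [code] at h
  | _, all φ, ψ, l, l', h => by
    cases ψ with
    | all a =>
      simp only [code, List.cons_append, List.cons.injEq, true_and] at h
      obtain ⟨h1, h2⟩ := code_append_inj _ _ _ _ h
      exact ⟨by rw [h1], h2⟩
    | _ => simp [code] at h
  | _, ex φ, ψ, l, l', h => by
    cases ψ with
    | ex a =>
      simp only [code, List.cons_append, List.cons.injEq, true_and] at h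
      obtain ⟨h1, h2⟩ := code_append_inj _ _ _ _ h
      exact ⟨by rw [h1], h2⟩
    | _ => simp [code] at h

instance {n : ℕ} : Countable (Fml n) := by
  refine Function.Injective.countable (f := fun φ : Fml n => code φ) fun φ ψ h => ?_
  have : code φ ++ [] = code ψ ++ [] := by simpa using h
  exact (code_append_inj _ _ _ _ this).1

end Fml

end Pool.Agent.Lib_helper83
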