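import Pool.Agent.Lib_helper83.G3Main
import Pool.Agent.Lib_helper36.Rat.G3II

/-!
Type G3: the theorem without hypotheses.
-/

set_option autoImplicit false

namespace Pool.Agent.RatG3

theorem ii_gain_stmt : II_gain_Stmt := by
  intro om be A p hom hbe hs hA hp hpA y v r hy hvp hv hr hrec
  obtain ⟨d, hd, h⟩ := II_gain hom hbe hs hA hp hpA hy hvp hv hr hrec
  exact ⟨d, hd, h⟩

/-- The limit recurrence of type G3 has no positive solution, infinite to the left, whose large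
terms are bounded. -/
theorem G3_not_bddAbove {A al b1 b3 b4 B1 B4 : ℝ} (hA : 0 ≤ A)
    (hal : 0 ≤ al) (hb1 : 0 ≤ b1) (hb3 : 0 < b3) (hb4 : 0 ≤ b4) (hB1 : 0 ≤ B1) (hB4 : 0 < B4)
    (hcase : (0 < b1 ∧ (0 < B1 ∨ 0 < A ∨ 0 < b4)) ∨ (0 < b4 ∧ 0 < B1))
    {z y r : ℕ → ℝ} (hz : ∀ j, 0 < z j) (hy : ∀ j, 0 < y j)
    (Hz : ∀ j, z j * (A + B1 * y j + B4 * y (j + 1)) = b3 * z (j + 1))
    (Hy : ∀ j, y j * (A + B1 * r j + B4 * r (j + 1)) =
      al + b1 * r j + b4 * r (j + 1) + b3 * y (j + 1))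
    (Hr : ∀ j, r j * (B1 * z (j + 1) + B4 * z (j + 2)) = b1 * z (j + 1) + b4 * z (j + 2)) :
    ¬ BddAbove (Set.range z) :=
  G3_of ii_gain_stmt hA hal hb1 hb3 hb4 hB1 hB4 hcase hz hy Hz Hy Hr

end Pool.Agent.RatG3
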