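import Mathlib

/-!
Type G3, system (I): the minimum principle for the limit recurrence.
-/

set_option autoImplicit false

namespace Pool.Agent.RatG3

/-- The key inequality of system (I): case `m * be ≤ 1`, `m * om ≤ 1`. -/
theorem keyI_a {om be A p m : ℝ} (hom : 0 ≤ om) (hbe : 0 ≤ be) (hs : om + be = 1) (hA : 0 ≤ A)
    (hm : 0 < m) (hmd : m ≤ p - A) (h1 : m * be ≤ 1) (h2 : m * om ≤ 1)
    {W : ℝ} (hW : W = om * p + be * (A + m)) {y1 r0 r1 : ℝ} (hy1 : m ≤ y1) (hr0 : 0 ≤ r0)
    (hr1 : W * r1 ≤ (A * W + p) * y1 - W * p * m) :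
    m ^ 2 * p * (om + m * be) ≤ W * (r0 + p * y1 - m * (A + om * r0 + be * r1)) := by
  have hp : 0 < p := by linarith
  have hWA : A + m ≤ W := by rw [hW]; nlinarith
  have hWp : W ≤ p := by rw [hW]; nlinarith
  have hW0 : 0 < W := by linarith
  -- the coefficient of y1
  have hc : 0 ≤ p * W - m * be * (A * W + p) := by
    have e1 : m * be * (A * W) ≤ A * W := by
      have := mul_nonneg hA hW0.le
      nlinarith
    have e2 : A * W ≤ A * p := mul_le_mul_of_nonneg_left hWp hA
    have e3 : m * be ≤ m := by nlinarith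
    have e4 : p * (A + m) ≤ p * W := mul_le_mul_of_nonneg_left hWA hp.le
    nlinarith
  have hd : m * p ≤ W * (p - A) := by
    rw [hW]
    have e : om = 1 - be := by linarith
    subst e
    nlinarith [mul_nonneg (mul_nonneg hbe hA) (by linarith : 0 ≤ p - A - m),
      mul_nonneg (mul_nonneg (by linarith : 0 ≤ 1 - be) hp.le) (by linarith : 0 ≤ p - A - m)]
  have g1 : 0 ≤ (1 - m * om) * r0 * W := by
    have : 0 ≤ 1 - m * om := by linarith
    positivity
  have g2 : m * be * (W * r1) ≤ m * be * ((A * W + p) * y1 - W * p * m) :=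
    mul_le_mul_of_nonneg_left hr1 (by positivity)
  have g3 : m * (p * W - m * be * (A * W + p)) ≤ y1 * (p * W - m * be * (A * W + p)) :=
    mul_le_mul_of_nonneg_right hy1 hc
  have g4 : m * (m * p) ≤ m * (W * (p - A)) := mul_le_mul_of_nonneg_left hd hm.le
  have g5 : m ^ 2 * be * (m * p) ≤ m ^ 2 * be * (W * (p - A)) :=
    mul_le_mul_of_nonneg_left hd (by positivity)
  have e : om = 1 - be := by linarith
  have : W * (r0 + p * y1 - m * (A + om * r0 + be * r1)) =
      (1 - m * om) * r0 * W + p * y1 * W - m * A * W - m * be * (W * r1) := by ring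
  rw [this]
  have e6 : m ^ 2 * p * (om + m * be) = m ^ 2 * p - m ^ 2 * be * p + m ^ 2 * be * (m * p) := by
    rw [e]; ring
  rw [e6]
  nlinarith

/-- The first `W` bound. -/
theorem keyI_W {om be A p m : ℝ} (hom : 0 ≤ om) (hbe : 0 ≤ be) (hs : om + be = 1) (hA : 0 ≤ A)
    (hm : 0 < m) (hmd : m ≤ p - A) {W : ℝ} (hW : W = om * p + be * (A + m)) :
    A + m ≤ W ∧ W ≤ p ∧ 0 < W ∧ m * p ≤ W * (p - A) := by
  have hp : 0 < p := by linarith
  have hWA : A + m ≤ W := by rw [hW]; nlinarith
  have hWp : W ≤ p := by rw [hW]; nlinarith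
  have hW0 : 0 < W := by linarith
  refine ⟨hWA, hWp, hW0, ?_⟩
  rw [hW]
  have e : om = 1 - be := by linarith
  subst e
  nlinarith [mul_nonneg (mul_nonneg hbe hA) (by linarith : 0 ≤ p - A - m),
    mul_nonneg (mul_nonneg (by linarith : 0 ≤ 1 - be) hp.le) (by linarith : 0 ≤ p - A - m)]

/-- The key inequality of system (I), case `1 ≤ m * om`. -/
theorem keyI_b {om be A p m : ℝ} (hom : 0 ≤ om) (hbe : 0 ≤ be) (hs : om + be = 1) (hA : 0 ≤ A)
    (hm : 0 < m) (hmd : m ≤ p - A) (h2 : 1 ≤ m * om)
    {W : ℝ} (hW : W = om * p + be * (A + m)) {y1 r0 r1 : ℝ} (hy1 : m ≤ y1)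
    (hr0 : W * r0 ≤ p) (hr1 : W * r1 ≤ p) :
    p * (1 - m + m ^ 2) ≤ W * (r0 + p * y1 - m * (A + om * r0 + be * r1)) := by
  obtain ⟨hWA, hWp, hW0, hd⟩ := keyI_W hom hbe hs hA hm hmd hW
  have hp : 0 < p := by linarith
  have g1 : (m * om - 1) * (W * r0) ≤ (m * om - 1) * p :=
    mul_le_mul_of_nonneg_left hr0 (by linarith)
  have g2 : m * be * (W * r1) ≤ m * be * p := mul_le_mul_of_nonneg_left hr1 (by positivity)
  have g3 : p * m * W ≤ p * y1 * W := by
    have := mul_le_mul_of_nonneg_left hy1 (mul_nonneg hp.le hW0.le)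
    nlinarith
  have g4 : m * (m * p) ≤ m * (W * (p - A)) := mul_le_mul_of_nonneg_left hd hm.le
  have : W * (r0 + p * y1 - m * (A + om * r0 + be * r1)) =
      p * y1 * W - m * A * W - (m * om - 1) * (W * r0) - m * be * (W * r1) := by ring
  rw [this]
  have e : om = 1 - be := by linarith
  subst e
  nlinarith

/-- The key inequality of system (I), case `1 ≤ m * be`, `m * om ≤ 1`. -/
theorem keyI_c {om be A p m : ℝ} (hom : 0 ≤ om) (hbe : 0 ≤ be) (hs : om + be = 1) (hA : 0 ≤ A)
    (hm : 0 < m) (hmd : m ≤ p - A) (h2 : m * om ≤ 1)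
    {W : ℝ} (hW : W = om * p + be * (A + m)) {y1 r0 r1 : ℝ} (hy1 : m ≤ y1)
    (hr0 : 0 ≤ r0) (hr1 : W * r1 ≤ p) :
    p * m * (m - be) ≤ W * (r0 + p * y1 - m * (A + om * r0 + be * r1)) := by
  obtain ⟨hWA, hWp, hW0, hd⟩ := keyI_W hom hbe hs hA hm hmd hW
  have hp : 0 < p := by linarith
  have g1 : 0 ≤ (1 - m * om) * r0 * W := by
    have : 0 ≤ 1 - m * om := by linarith
    positivity
  have g2 : m * be * (W * r1) ≤ m * be * p := mul_le_mul_of_nonneg_left hr1 (by positivity)
  have g3 : p * m * W ≤ p * y1 * W := by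
    have := mul_le_mul_of_nonneg_left hy1 (mul_nonneg hp.le hW0.le)
    nlinarith
  have g4 : m * (m * p) ≤ m * (W * (p - A)) := mul_le_mul_of_nonneg_left hd hm.le
  have : W * (r0 + p * y1 - m * (A + om * r0 + be * r1)) =
      (1 - m * om) * r0 * W + p * y1 * W - m * A * W - m * be * (W * r1) := by ring
  rw [this]
  nlinarith

/-- The key inequality of system (I) with a uniform positive gap. -/
theorem keyI {om be A p m : ℝ} (hom : 0 ≤ om) (hbe : 0 ≤ be) (hs : om + be = 1) (hA : 0 ≤ A)
    (hm : 0 < m) (hmd : m ≤ p - A) {W : ℝ} (hW : W = om * p + be * (A + m)) :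
    ∃ g, 0 < g ∧ ∀ y1 r0 r1 : ℝ, m ≤ y1 → 0 ≤ r0 → W * r0 ≤ p → W * r1 ≤ p →
      W * r1 ≤ (A * W + p) * y1 - W * p * m →
      g ≤ W * (r0 + p * y1 - m * (A + om * r0 + be * r1)) := by
  have hp : 0 < p := by linarith
  rcases le_total 1 (m * om) with h | h
  · refine ⟨p * (1 - m + m ^ 2), ?_, ?_⟩
    · have : 0 < 1 - m + m ^ 2 := by nlinarith [sq_nonneg (m - 1 / 2)]
      positivity
    · intro y1 r0 r1 hy1 _ h0 h1 _
      exact keyI_b hom hbe hs hA hm hmd h hW hy1 h0 h1
  · rcases le_or_gt (m * be) 1 with h' | h'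
    · refine ⟨m ^ 2 * p * (om + m * be), ?_, ?_⟩
      · have : 0 < om + m * be := by
          rcases eq_or_lt_of_le hbe with h0 | h0
          · rw [← h0] at hs ⊢; linarith
          · have := mul_pos hm h0; linarith
        positivity
      · intro y1 r0 r1 hy1 h0 _ _ h1
        exact keyI_a hom hbe hs hA hm hmd h' h hW hy1 h0 h1
    · refine ⟨p * m * (m - be), ?_, ?_⟩
      · have hb1 : be ≤ 1 := by linarith
        have : be < m := by nlinarith
        have : 0 < m - be := by linarith
        positivity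
      · intro y1 r0 r1 hy1 h0 _ h1 _
        exact keyI_c hom hbe hs hA hm hmd h hW hy1 h0 h1

/-- System (I): the gain is uniformly larger than one. -/
theorem I_gain {om be A p : ℝ} (hom : 0 ≤ om) (hbe : 0 ≤ be) (hs : om + be = 1) (hA : 0 ≤ A)
    (hp : 0 < p) (hnd : 0 < om ∨ 0 < A) {y v r : ℕ → ℝ} (hy : ∀ j, 0 ≤ y j)
    (hv : ∀ j, v j * p = A + om * y j + be * y (j + 1))
    (hr : ∀ j, r j * (om + be * v (j + 1)) = 1)
    (hrec : ∀ j, r j + p * y (j + 1) ≤ y j * (A + om * r j + be * r (j + 1))) :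
    ∃ δ, 0 < δ ∧ ∀ j, 1 + δ ≤ v j := by
  have hv0 : ∀ j, A ≤ v j * p := by
    intro j
    rw [hv]
    have := mul_nonneg hom (hy j)
    have := mul_nonneg hbe (hy (j + 1))
    linarith
  -- the bound of `r`
  set K : ℝ := om * p + be * A with hK
  have hK0 : 0 < K := by
    rcases hnd with h | h
    · have := mul_pos h hp
      have := mul_nonneg hbe hA
      rw [hK]; linarith
    · rcases eq_or_lt_of_le hbe with h0 | h0
      · have : om = 1 := by rw [← h0] at hs; linarith
        rw [hK, this]
        have := mul_nonneg hbe hA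
        linarith
      · have := mul_pos h0 h
        have := mul_nonneg hom hp.le
        rw [hK]; linarith
  have hden : ∀ j, 0 < om + be * v (j + 1) := by
    intro j
    have : K ≤ (om + be * v (j + 1)) * p := by
      have := mul_le_mul_of_nonneg_left (hv0 (j + 1)) hbe
      rw [hK]; nlinarith
    by_contra hcon
    push Not at hcon
    nlinarith
  have hr0 : ∀ j, 0 < r j := by
    intro j
    by_contra hcon
    push Not at hcon
    have := hr j
    nlinarith [hden j]
  have hrK : ∀ j, K * r j ≤ p := by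
    intro j
    have h1 : K ≤ (om + be * v (j + 1)) * p := by
      have := mul_le_mul_of_nonneg_left (hv0 (j + 1)) hbe
      rw [hK]; nlinarith
    have h2 := mul_le_mul_of_nonneg_right h1 (hr0 j).le
    have h3 := hr j
    calc K * r j ≤ (om + be * v (j + 1)) * p * r j := h2
      _ = p * (r j * (om + be * v (j + 1))) := by ring
      _ = p := by rw [h3, mul_one]
  set E : ℝ := A + p / K with hE
  have hE0 : 0 < E := by
    have := div_pos hp hK0
    rw [hE]; linarith
  have hrE : ∀ j, r j ≤ p / K := by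
    intro j
    rw [le_div_iff₀ hK0]
    have := hrK j
    linarith
  have hDE : ∀ j, A + om * r j + be * r (j + 1) ≤ E := by
    intro j
    have h1 := mul_le_mul_of_nonneg_left (hrE j) hom
    have h2 := mul_le_mul_of_nonneg_left (hrE (j + 1)) hbe
    have h3 : om * (p / K) + be * (p / K) = p / K := by rw [← add_mul, hs, one_mul]
    rw [hE]; linarith
  have hyE : ∀ j, r j + p * y (j + 1) ≤ y j * E := fun j =>
    (hrec j).trans (mul_le_mul_of_nonneg_left (hDE j) (hy j))
  -- a priori lower bound
  obtain ⟨η, hη, hyη⟩ : ∃ η, 0 < η ∧ ∀ j, η ≤ y j := by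
    set Q : ℝ := E * (p ^ 3 * om + be * (p ^ 2 * A) + be * (om * (p * E) + be * E ^ 2)) with hQ
    have hQ0 : 0 < Q := by
      rw [hQ]
      apply mul_pos hE0
      have h1 : p ^ 3 * om + be * (p ^ 2 * A) = p ^ 2 * K := by rw [hK]; ring
      rw [h1]
      have h2 : 0 < p ^ 2 * K := by positivity
      have h3 : 0 ≤ be * (om * (p * E) + be * E ^ 2) := by positivity
      linarith
    refine ⟨min 1 (p ^ 3 / Q), lt_min one_pos (by positivity), ?_⟩
    intro j
    rcases le_total 1 (y j) with h1 | h1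
    · exact (min_le_left _ _).trans h1
    · refine (min_le_right _ _).trans ?_
      have a1 : p * y (j + 1) ≤ y j * E := by
        have := hyE j
        have := hr0 j
        linarith
      have a2 : p * y (j + 1 + 1) ≤ y (j + 1) * E := by
        have := hyE (j + 1)
        have := hr0 (j + 1)
        linarith
      have a3 : r j ≤ y j * E := by
        have := hyE j
        have := mul_nonneg hp.le (hy (j + 1))
        linarith
      -- `p ^ 3 (om + be v) ≤ p ^ 3 om + p ^ 2 be A + ...`
      have a4 : p ^ 3 * (om + be * v (j + 1)) ≤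
          p ^ 3 * om + be * (p ^ 2 * A) + be * (om * (p * E) + be * E ^ 2) := by
        have b1 : p ^ 3 * (om + be * v (j + 1)) =
            p ^ 3 * om + be * p ^ 2 * (v (j + 1) * p) := by ring
        rw [b1, hv]
        have b2 : p * y (j + 1) ≤ E := a1.trans (by nlinarith)
        have b3 : p * (p * y (j + 1 + 1)) ≤ E ^ 2 := by
          calc p * (p * y (j + 1 + 1)) ≤ p * (y (j + 1) * E) :=
                mul_le_mul_of_nonneg_left a2 hp.le
            _ = (p * y (j + 1)) * E := by ring
            _ ≤ E * E := mul_le_mul_of_nonneg_right b2 hE0.le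
            _ = E ^ 2 := by ring
        have b4 : be * om * p * (p * y (j + 1)) ≤ be * om * p * E :=
          mul_le_mul_of_nonneg_left b2 (by positivity)
        have b5 : be * be * (p * (p * y (j + 1 + 1))) ≤ be * be * E ^ 2 :=
          mul_le_mul_of_nonneg_left b3 (by positivity)
        nlinarith
      have a5 : 0 < p ^ 3 * (om + be * v (j + 1)) := mul_pos (by positivity) (hden j)
      have a6 : p ^ 3 ≤ y j * Q := by
        calc p ^ 3 = p ^ 3 * (r j * (om + be * v (j + 1))) := by rw [hr j, mul_one]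
          _ = r j * (p ^ 3 * (om + be * v (j + 1))) := by ring
          _ ≤ (y j * E) * (p ^ 3 * (om + be * v (j + 1))) :=
              mul_le_mul_of_nonneg_right a3 a5.le
          _ ≤ (y j * E) * (p ^ 3 * om + be * (p ^ 2 * A) + be * (om * (p * E) + be * E ^ 2)) :=
              mul_le_mul_of_nonneg_left a4 (mul_nonneg (hy j) hE0.le)
          _ = y j * Q := by rw [hQ]; ring
      rw [div_le_iff₀ hQ0]
      exact a6
  -- the infimum
  have hbdd : BddBelow (Set.range y) := ⟨0, by rintro _ ⟨j, rfl⟩; exact hy j⟩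
  set M : ℝ := ⨅ j, y j with hM
  have hMy : ∀ j, M ≤ y j := fun j => ciInf_le hbdd j
  have hM0 : 0 < M := lt_of_lt_of_le hη (le_ciInf hyη)
  have hMd : p - A < M := by
    by_contra hcon
    push Not at hcon
    set W : ℝ := om * p + be * (A + M) with hW
    obtain ⟨hWA, hWp, hW0, -⟩ := keyI_W hom hbe hs hA hM0 hcon hW
    obtain ⟨g, hg, hgk⟩ := keyI hom hbe hs hA hM0 hcon hW
    have hrW : ∀ j, W * r j ≤ p := by
      intro j
      have h1 : W ≤ (om + be * v (j + 1)) * p := by
        have b1 : (om + be * v (j + 1)) * p = om * p + be * (v (j + 1) * p) := by ring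
        rw [b1, hv]
        have b2 : A + M ≤ A + om * y (j + 1) + be * y (j + 1 + 1) := by
          have c1 := mul_le_mul_of_nonneg_left (hMy (j + 1)) hom
          have c2 := mul_le_mul_of_nonneg_left (hMy (j + 1 + 1)) hbe
          have c3 : om * M + be * M = M := by rw [← add_mul, hs, one_mul]
          linarith
        have := mul_le_mul_of_nonneg_left b2 hbe
        rw [hW]; linarith
      have h2 := mul_le_mul_of_nonneg_right h1 (hr0 j).le
      calc W * r j ≤ (om + be * v (j + 1)) * p * r j := h2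
        _ = p * (r j * (om + be * v (j + 1))) := by ring
        _ = p := by rw [hr j, mul_one]
    -- the second constraint
    have hsec : ∀ j, W * r j ≤ (A * W + p) * y j - W * p * M := by
      intro j
      have h1 := hrec j
      have h2 : W * (A + om * r j + be * r (j + 1)) ≤ A * W + p := by
        have c1 := mul_le_mul_of_nonneg_left (hrW j) hom
        have c2 := mul_le_mul_of_nonneg_left (hrW (j + 1)) hbe
        have c3 : om * p + be * p = p := by rw [← add_mul, hs, one_mul]
        nlinarith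
      have h3 := mul_le_mul_of_nonneg_left h2 (hy j)
      have h4 := mul_le_mul_of_nonneg_left h1 hW0.le
      have h5 := mul_le_mul_of_nonneg_left (hMy (j + 1)) (mul_nonneg hW0.le hp.le)
      nlinarith
    have hfin : ∀ j, M + g / (W * E) ≤ y j := by
      intro j
      have h1 := hgk (y (j + 1)) (r j) (r (j + 1)) (hMy _) (hr0 j).le (hrW j) (hrW (j + 1))
        (hsec (j + 1))
      have h2 := hrec j
      have h3 : g ≤ W * ((y j - M) * (A + om * r j + be * r (j + 1))) := by
        refine h1.trans (mul_le_mul_of_nonneg_left ?_ hW0.le)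
        nlinarith
      have h4 : (y j - M) * (A + om * r j + be * r (j + 1)) ≤ (y j - M) * E :=
        mul_le_mul_of_nonneg_left (hDE j) (by linarith [hMy j])
      have h5 := mul_le_mul_of_nonneg_left h4 hW0.le
      have h6 : g / (W * E) ≤ y j - M := by
        rw [div_le_iff₀ (mul_pos hW0 hE0)]
        nlinarith
      linarith
    have h7 : M + g / (W * E) ≤ M := le_ciInf hfin
    have h8 : 0 < g / (W * E) := div_pos hg (mul_pos hW0 hE0)
    linarith
  refine ⟨(A + M - p) / p, div_pos (by linarith) hp, ?_⟩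
  intro j
  have h1 : A + M ≤ v j * p := by
    rw [hv]
    have c1 := mul_le_mul_of_nonneg_left (hMy j) hom
    have c2 := mul_le_mul_of_nonneg_left (hMy (j + 1)) hbe
    have c3 : om * M + be * M = M := by rw [← add_mul, hs, one_mul]
    linarith
  have h2 : 1 + (A + M - p) / p = (A + M) / p := by field_simp; ring
  rw [h2, div_le_iff₀ hp]
  exact h1

end Pool.Agent.RatG3
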