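import Pool.Agent.Lib_helper83.Fml

/-!
# Two-valued quotients of `RO P`-valued structures over a countable forcing notion
-/

namespace Pool.Agent.Lib_helper83

open RO Fml

/-- Meeting countably many dense sets (Rasiowa–Sikorski). -/
theorem exists_generic_seq {P : Type} [Preorder P] {ι : Type} [Countable ι] (D : ι → P → Prop)
    (hD : ∀ i p, ∃ q ≤ p, D i q) (p₀ : P) :
    ∃ s : ℕ → P, s 0 = p₀ ∧ (∀ m n, m ≤ n → s n ≤ s m) ∧ ∀ i, ∃ k, D i (s k) := by
  classical
  choose f hf hf' using hD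
  by_cases hι : Nonempty ι
  · obtain ⟨e, he⟩ := exists_surjective_nat ι
    let s : ℕ → P := fun n => Nat.rec p₀ (fun k p => f (e k) p) n
    have hs : ∀ n, s (n + 1) = f (e n) (s n) := fun n => rfl
    refine ⟨s, rfl, fun m n h => ?_, fun i => ?_⟩
    · exact antitone_nat_of_succ_le (fun n => by rw [hs]; exact hf _ _) h
    · obtain ⟨k, rfl⟩ := he i
      exact ⟨k + 1, by rw [hs]; exact hf' _ _⟩
  · exact ⟨fun _ => p₀, rfl, fun _ _ _ => le_rfl, fun i => (hι ⟨i⟩).elim⟩

section

variable {P : Type} [Preorder P] {S : Type*} (V : VStr P S)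

/-- The shape of witness terms. -/
abbrev WS (P : Type) : Type := Σ n : ℕ, Fml (n + 1) × P

/-- Witness terms. -/
abbrev WT (P : Type) : Type := WType (α := WS P) (fun a => Fin a.1)

open Classical in
/-- The value of a witness term. -/
noncomputable def wval [Inhabited S] : WT P → S
  | ⟨a, f⟩ => if h : ∃ x, a.2.2 ∈ ev V a.2.1 (Matrix.vecCons x fun i => wval (f i)) then
      h.choose else default

theorem wval_spec [Inhabited S] {n : ℕ} (φ : Fml (n + 1)) (p : P) (t : Fin n → WT P)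
    (h : ∃ x, p ∈ ev V φ (Matrix.vecCons x fun i => wval V (t i))) :
    p ∈ ev V φ (Matrix.vecCons (wval V (WType.mk (⟨n, φ, p⟩ : WS P) t))
      fun i => wval V (t i)) := by
  have : wval V (WType.mk (⟨n, φ, p⟩ : WS P) t) = h.choose := by
    rw [wval]
    exact dif_pos h
  rw [this]
  exact h.choose_spec

instance countable_WT [Countable P] : Countable (WT P) := by
  have : Nonempty (Encodable (WS P)) := nonempty_encodable _
  obtain ⟨e⟩ := this
  have h : Nonempty (Encodable (WT P)) := ⟨inferInstance⟩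
  obtain ⟨e'⟩ := h
  infer_instance

/-- **Generic two-valued quotient.** -/
theorem exists_quotient [Countable P] [Inhabited S] (p₀ : P) :
    ∃ (M : Type) (E : M → M → Prop) (h : M → S) (F : RO P → Prop),
      (∀ a, p₀ ∈ a → F a) ∧
      (∀ (n : ℕ) (φ : Fml n) (v : Fin n → M), rz E φ v ↔ F (ev V φ (h ∘ v))) := by
  classical
  let τ : WT P → S := wval V
  -- the dense sets
  let D1 : (Σ n : ℕ, Fml n × (Fin n → WT P)) → P → Prop := fun i p =>
    p ∈ ev V i.2.1 (τ ∘ i.2.2) ∨ p ∈ RO.not (ev V i.2.1 (τ ∘ i.2.2))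
  let D2 : (Σ n : ℕ, Fml (n + 1) × (Fin n → WT P)) → P → Prop := fun i p =>
    p ∈ RO.not (ev V (ex i.2.1) (τ ∘ i.2.2)) ∨
      ∃ s : WT P, p ∈ ev V i.2.1 (Matrix.vecCons (τ s) (τ ∘ i.2.2))
  let D : ((Σ n : ℕ, Fml n × (Fin n → WT P)) ⊕ (Σ n : ℕ, Fml (n + 1) × (Fin n → WT P))) →
      P → Prop := Sum.elim D1 D2
  have hD : ∀ i p, ∃ q ≤ p, D i q := by
    rintro (i | i) p
    · exact RO.em
    · obtain ⟨q, hq, h | h⟩ := RO.em (a := ev V (ex i.2.1) (τ ∘ i.2.2)) (p := p)
      · obtain ⟨r, hr, x, hx⟩ := h q le_rfl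
        exact ⟨r, hr.trans hq, Or.inr ⟨_, wval_spec V i.2.1 r i.2.2 ⟨x, hx⟩⟩⟩
      · exact ⟨q, hq, Or.inl h⟩
  obtain ⟨s, hs0, hs, hsD⟩ := exists_generic_seq D hD p₀
  let Tr : RO P → Prop := fun a => ∃ k, s k ∈ a
  have common : ∀ {a b : RO P}, Tr a → Tr b → ∃ k, s k ∈ a ∧ s k ∈ b := by
    rintro a b ⟨k, hk⟩ ⟨l, hl⟩
    exact ⟨max k l, RO.mono (hs _ _ (le_max_left _ _)) hk, RO.mono (hs _ _ (le_max_right _ _)) hl⟩
  have cons : ∀ {a : RO P}, Tr a → ¬ Tr (RO.not a) := by
    intro a ha hna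
    obtain ⟨k, hk, hk'⟩ := common ha hna
    exact hk' _ le_rfl hk
  have dec : ∀ {n : ℕ} (φ : Fml n) (t : Fin n → WT P),
      Tr (ev V φ (τ ∘ t)) ∨ Tr (RO.not (ev V φ (τ ∘ t))) := by
    intro n φ t
    obtain ⟨k, hk⟩ := hsD (Sum.inl ⟨n, φ, t⟩)
    exact hk.imp (fun h => ⟨k, h⟩) (fun h => ⟨k, h⟩)
  have wit : ∀ {n : ℕ} (φ : Fml (n + 1)) (t : Fin n → WT P), Tr (ev V (ex φ) (τ ∘ t)) →
      ∃ u : WT P, Tr (ev V φ (τ ∘ Matrix.vecCons u t)) := by
    intro n φ t h
    obtain ⟨k, hk⟩ := hsD (Sum.inr ⟨n, φ, t⟩)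
    rcases hk with hk | ⟨u, hu⟩
    · exact absurd ⟨k, hk⟩ (cons h)
    · refine ⟨u, k, ?_⟩
      have : τ ∘ Matrix.vecCons u t = Matrix.vecCons (τ u) (τ ∘ t) := by
        funext i
        refine Fin.cases ?_ (fun i => ?_) i <;> rfl
      rw [this]
      exact hu
  -- the quotient
  let R : Setoid (WT P) :=
    { r := fun t u => Tr (V.eq (τ t) (τ u))
      iseqv := by
        refine ⟨fun t => ⟨0, V.refl _ _⟩, fun h => h.imp fun k hk => V.symm hk, fun h h' => ?_⟩
        obtain ⟨k, hk, hk'⟩ := common h h'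
        exact ⟨k, V.trans hk hk'⟩ }
  let M := Quotient R
  let E : M → M → Prop := Quotient.lift₂ (fun t u => Tr (V.mem (τ t) (τ u))) (by
    intro a b a' b' h h'
    apply propext
    constructor
    · rintro ⟨k, hk⟩
      obtain ⟨l, hl, hl'⟩ := common h h'
      exact ⟨max k l, V.congr (RO.mono (hs _ _ (le_max_right _ _)) hl)
        (RO.mono (hs _ _ (le_max_right _ _)) hl') (RO.mono (hs _ _ (le_max_left _ _)) hk)⟩
    · rintro ⟨k, hk⟩
      obtain ⟨l, hl, hl'⟩ := common h h'
      exact ⟨max k l, V.congr (V.symm (RO.mono (hs _ _ (le_max_right _ _)) hl))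
        (V.symm (RO.mono (hs _ _ (le_max_right _ _)) hl'))
        (RO.mono (hs _ _ (le_max_left _ _)) hk)⟩)
  let cls : WT P → M := Quotient.mk R
  have hE : ∀ t u, E (cls t) (cls u) ↔ Tr (V.mem (τ t) (τ u)) := fun t u => Iff.rfl
  have hcls : ∀ t u, cls t = cls u ↔ Tr (V.eq (τ t) (τ u)) := fun t u =>
    ⟨fun h => Quotient.exact h, fun h => Quotient.sound h⟩
  have hsurj : ∀ x : M, ∃ t, cls t = x := Quotient.exists_rep
  have cons_comp : ∀ {n : ℕ} (u : WT P) (t : Fin n → WT P),
      Matrix.vecCons (cls u) (cls ∘ t) = cls ∘ Matrix.vecCons u t := by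
    intro n u t
    funext i
    refine Fin.cases ?_ (fun i => ?_) i <;> rfl
  have los : ∀ {n : ℕ} (φ : Fml n) (t : Fin n → WT P),
      rz E φ (cls ∘ t) ↔ Tr (ev V φ (τ ∘ t)) := by
    intro n φ
    induction φ with
    | mem i j => intro t; exact hE _ _
    | eq i j => intro t; exact hcls _ _
    | bot => intro t; simp [Tr]
    | imp φ ψ ih1 ih2 =>
      intro t
      rw [rz_imp, ih1, ih2, ev_imp]
      constructor
      · intro h
        rcases dec φ t with h1 | h1
        · obtain ⟨k, hk⟩ := h h1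
          exact ⟨k, fun q hq _ => RO.mono hq hk⟩
        · obtain ⟨k, hk⟩ := h1
          exact ⟨k, fun q hq hq' => (hk q hq hq').elim⟩
      · intro h h'
        obtain ⟨k, hk, hk'⟩ := common h h'
        exact ⟨k, hk _ le_rfl hk'⟩
    | and φ ψ ih1 ih2 =>
      intro t
      rw [rz_and, ih1, ih2, ev_and]
      constructor
      · rintro ⟨h, h'⟩
        exact common h h'
      · rintro ⟨k, hk⟩
        exact ⟨⟨k, hk.1⟩, ⟨k, hk.2⟩⟩
    | or φ ψ ih1 ih2 =>
      intro t
      rw [rz_or, ih1, ih2, ev_or]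
      constructor
      · rintro (⟨k, hk⟩ | ⟨k, hk⟩)
        · exact ⟨k, RO.or_inl hk⟩
        · exact ⟨k, RO.or_inr hk⟩
      · intro h
        rcases dec φ t with h1 | h1
        · exact Or.inl h1
        rcases dec ψ t with h2 | h2
        · exact Or.inr h2
        exfalso
        obtain ⟨k, hk, hk'⟩ := common h1 h2
        have h3 : Tr (RO.and (RO.not (ev V φ (τ ∘ t))) (RO.not (ev V ψ (τ ∘ t)))) := ⟨k, hk, hk'⟩
        obtain ⟨l, hl, hl', hl''⟩ := common h h3
        obtain ⟨r, hr, hr' | hr'⟩ := hl _ le_rfl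
        · exact hl' r hr hr'
        · exact hl'' r hr hr'
    | not φ ih =>
      intro t
      rw [rz_not, ih, ev_not]
      constructor
      · intro h
        exact (dec φ t).resolve_left h
      · intro h h'
        exact cons h' h
    | all φ ih =>
      intro t
      rw [rz_all]
      constructor
      · intro h
        by_contra hcon
        have h1 : Tr (RO.not (ev V (all φ) (τ ∘ t))) := (dec (all φ) t).resolve_left hcon
        have h2 : Tr (ev V (ex (not φ)) (τ ∘ t)) := by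
          rcases dec (ex (not φ)) t with h2 | h2
          · exact h2
          · exfalso
            obtain ⟨k, hk, hk'⟩ := common h1 h2
            refine hk _ le_rfl fun x => ?_
            rw [← RO.not_not]
            intro q hq hq'
            exact hk' q hq (RO.ex_intro x hq')
        obtain ⟨u, hu⟩ := wit _ _ h2
        have h3 := h (cls u)
        rw [cons_comp, ih] at h3
        exact cons h3 hu
      · rintro ⟨k, hk⟩ x
        obtain ⟨u, rfl⟩ := hsurj x
        rw [cons_comp, ih]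
        refine ⟨k, ?_⟩
        have := hk (τ u)
        convert this using 1
        congr 1
        funext i
        refine Fin.cases ?_ (fun i => ?_) i <;> rfl
    | ex φ ih =>
      intro t
      rw [rz_ex]
      constructor
      · rintro ⟨x, hx⟩
        obtain ⟨u, rfl⟩ := hsurj x
        rw [cons_comp, ih] at hx
        obtain ⟨k, hk⟩ := hx
        refine ⟨k, RO.ex_intro (τ u) ?_⟩
        convert hk using 1
        congr 1
        funext i
        refine Fin.cases ?_ (fun i => ?_) i <;> rfl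
      · intro h
        obtain ⟨u, hu⟩ := wit _ _ h
        exact ⟨cls u, by rw [cons_comp, ih]; exact hu⟩
  refine ⟨M, E, fun x => τ x.out, Tr, fun a ha => ⟨0, by rw [hs0]; exact ha⟩, fun n φ v => ?_⟩
  have h1 : v = cls ∘ (fun i => (v i).out) := by
    funext i
    exact (Quotient.out_eq (v i)).symm
  conv_lhs => rw [h1]
  rw [los]
  rfl

end

end Pool.Agent.Lib_helper83
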