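import Pool.Agent.Lib_helper83.Names

/-!
# Hereditarily symmetric names

`G` acts on the forcing notion `P` and on a set `D`; the relevant filter of subgroups of `G` is
generated by the pointwise stabilisers of the finite subsets of `D`.
-/

namespace Pool.Agent.Lib_helper83

open RO

variable {P : Type} [Preorder P]

/-- `g` fixes every point of the finite set `e`. -/
def Fixes {G D : Type} [Group G] [MulAction G D] (e : Finset D) (g : G) : Prop :=
  ∀ z ∈ e, g • z = z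

section Fixes

variable {G D : Type} [Group G] [MulAction G D]

theorem Fixes.mono {e e' : Finset D} {g : G} (h : e ⊆ e') (hg : Fixes e' g) : Fixes e g :=
  fun z hz => hg z (h hz)

theorem Fixes.inv {e : Finset D} {g : G} (hg : Fixes e g) : Fixes e g⁻¹ := fun z hz => by
  rw [inv_smul_eq_iff]; exact (hg z hz).symm

theorem fixes_empty (g : G) : Fixes (∅ : Finset D) g := fun z hz => by simp at hz

end Fixes

variable {G : Type} [Group G] [MulAction G P] [ActsMono G P] {D : Type} [MulAction G D]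

/-- The finite set `e` supports the name `x`: every group element fixing `e` pointwise moves `x`
to a name which is forced to be equal to `x`. -/
def Supports (G : Type) [Group G] [MulAction G P] [ActsMono G P] {D : Type} [MulAction G D]
    (e : Finset D) (x : Nm P) : Prop :=
  ∀ g : G, Fixes e g → ∀ p : P, p ∈ Nm.beq (Nm.act g x) x

/-- Hereditarily symmetric names. -/
def HS (G D : Type) [Group G] [MulAction G P] [ActsMono G P] [MulAction G D] : Nm P → Prop
  | Nm.mk ι A a => (∀ i, HS G D (A i)) ∧ ∃ e : Finset D, Supports G e (Nm.mk ι A a)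

variable (P G D)

/-- The type of hereditarily symmetric names. -/
def Sy : Type 1 := {x : Nm P // HS G D x}

variable {P G D}

theorem Supports.mono {e e' : Finset D} {x : Nm P} (h : e ⊆ e') (hx : Supports G e x) :
    Supports G e' x := fun g hg => hx g (hg.mono h)

theorem HS.supports {x : Nm P} (hx : HS G D x) : ∃ e : Finset D, Supports G e x := by
  cases x; exact hx.2

open Classical in
theorem Supports.act {e : Finset D} {x : Nm P} (hx : Supports G e x) (g : G) :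
    Supports G (e.image (g • ·)) (Nm.act g x) := by
  intro h hh p
  have h1 : Fixes e (g⁻¹ * h * g) := by
    intro z hz
    have := hh (g • z) (Finset.mem_image_of_mem _ hz)
    rw [mul_smul, mul_smul, this, inv_smul_smul]
  have h2 := hx _ h1 (g⁻¹ • p)
  rw [← RO.mem_act, Nm.act_beq, ← Nm.act_mul] at h2
  rw [← Nm.act_mul]
  convert h2 using 3
  group

theorem HS.act {x : Nm P} (hx : HS G D x) (g : G) : HS G D (Nm.act g x) := by
  induction x with
  | mk ι A a ih =>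
    obtain ⟨h1, e, h2⟩ := hx
    exact ⟨fun i => ih i (h1 i), _, h2.act g⟩

namespace Sy

/-- forced membership -/
def mem (x y : Sy P G D) : RO P := Nm.bmem x.1 y.1

/-- forced equality -/
def eq (x y : Sy P G D) : RO P := Nm.beq x.1 y.1

/-- action of the group -/
def act (g : G) (x : Sy P G D) : Sy P G D := ⟨Nm.act g x.1, x.2.act g⟩

theorem eq_refl (x : Sy P G D) (p : P) : p ∈ eq x x := Nm.beq_refl _ _

theorem eq_symm {x y : Sy P G D} {p : P} (h : p ∈ eq x y) : p ∈ eq y x := Nm.beq_symm h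

theorem eq_trans {x y z : Sy P G D} {p : P} (h : p ∈ eq x y) (h' : p ∈ eq y z) : p ∈ eq x z :=
  Nm.beq_trans h h'

theorem mem_congr_left {x y z : Sy P G D} {p : P} (h : p ∈ eq x y) (h' : p ∈ mem x z) :
    p ∈ mem y z := Nm.bmem_congr_left h h'

theorem mem_congr_right {x y z : Sy P G D} {p : P} (h : p ∈ eq y z) (h' : p ∈ mem x y) :
    p ∈ mem x z := Nm.bmem_congr_right h h'

theorem mem_congr {x y z w : Sy P G D} {p : P} (h : p ∈ eq x y) (h' : p ∈ eq z w) :
    p ∈ mem x z ↔ p ∈ mem y w :=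
  ⟨fun h1 => mem_congr_right h' (mem_congr_left h h1),
    fun h1 => mem_congr_right (eq_symm h') (mem_congr_left (eq_symm h) h1)⟩

@[simp] theorem act_one (x : Sy P G D) : act (1 : G) x = x := Subtype.ext (Nm.act_one _)

theorem act_mul (g h : G) (x : Sy P G D) : act (g * h) x = act g (act h x) :=
  Subtype.ext (Nm.act_mul _ _ _)

@[simp] theorem act_inv_act (g : G) (x : Sy P G D) : act g⁻¹ (act g x) = x :=
  Subtype.ext (Nm.act_inv_act _ _)

@[simp] theorem act_act_inv (g : G) (x : Sy P G D) : act g (act g⁻¹ x) = x :=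
  Subtype.ext (Nm.act_act_inv _ _)

theorem act_eq (g : G) (x y : Sy P G D) : RO.act g (eq x y) = eq (act g x) (act g y) :=
  Nm.act_beq _ _ _

theorem act_mem (g : G) (x y : Sy P G D) : RO.act g (mem x y) = mem (act g x) (act g y) :=
  Nm.act_bmem _ _ _

theorem smul_mem_mem (g : G) {x y : Sy P G D} {p : P} :
    g • p ∈ mem (act g x) (act g y) ↔ p ∈ mem x y := by
  rw [← act_mem, smul_mem_act]

theorem smul_mem_eq (g : G) {x y : Sy P G D} {p : P} :
    g • p ∈ eq (act g x) (act g y) ↔ p ∈ eq x y := by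
  rw [← act_eq, smul_mem_act]

theorem exists_supp (x : Sy P G D) : ∃ e : Finset D, Supports G e x.1 := x.2.supports

end Sy

/-- the elements of a hereditarily symmetric name -/
theorem HS.el {ι : Type} {A : ι → Nm P} {a : ι → RO P} (h : HS G D (Nm.mk ι A a)) (i : ι) :
    HS G D (A i) := h.1 i

/-- Extensionality for names all of whose elements are hereditarily symmetric. -/
theorem beq_of_forall_sy {ι κ : Type} {A : ι → Nm P} {a : ι → RO P} {C : κ → Nm P} {c : κ → RO P}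
    (hA : ∀ i, HS G D (A i)) (hC : ∀ j, HS G D (C j)) {p : P}
    (h : ∀ z : Sy P G D, ∀ q ≤ p, q ∈ Nm.bmem z.1 (Nm.mk ι A a) ↔ q ∈ Nm.bmem z.1 (Nm.mk κ C c)) :
    p ∈ Nm.beq (Nm.mk ι A a) (Nm.mk κ C c) := by
  constructor
  · intro i q hq hi
    exact (h ⟨A i, hA i⟩ q hq).1 (Nm.bmem_el hi)
  · intro j q hq hj
    have := (h ⟨C j, hC j⟩ q hq).2 (Nm.bmem_el hj)
    intro r hr
    obtain ⟨s, hs, i, hi, hi'⟩ := this r hr
    exact ⟨s, hs, i, hi, Nm.beq_symm hi'⟩

/-- Symmetry criterion. -/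
theorem supports_of_forall {ι : Type} {A : ι → Nm P} {a : ι → RO P}
    (hA : ∀ i, HS G D (A i)) {e : Finset D}
    (h : ∀ g : G, Fixes e g → ∀ z : Sy P G D, ∀ p : P, p ∈ Nm.bmem z.1 (Nm.mk ι A a) →
      g • p ∈ Nm.bmem (z.act g).1 (Nm.mk ι A a)) : Supports G e (Nm.mk ι A a) := by
  intro g hg p
  rw [Nm.act_mk]
  refine beq_of_forall_sy (G := G) (D := D) (fun i => (hA i).act g) hA fun z q _ => ?_
  rw [← Nm.act_mk]
  have key : ∀ (w : Sy P G D) (r : P), r ∈ Nm.bmem w.1 (Nm.mk ι A a) ↔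
      g • r ∈ Nm.bmem (w.act g).1 (Nm.mk ι A a) := by
    intro w r
    refine ⟨h g hg w r, fun h' => ?_⟩
    have := h g⁻¹ hg.inv _ _ h'
    simpa using this
  have h1 : q ∈ Nm.bmem z.1 (Nm.act g (Nm.mk ι A a)) ↔
      g⁻¹ • q ∈ Nm.bmem (z.act g⁻¹).1 (Nm.mk ι A a) := by
    have h2 := Nm.act_bmem g (z.act g⁻¹).1 (Nm.mk ι A a)
    have h3 : Nm.act g (z.act g⁻¹).1 = z.1 := congrArg Subtype.val (Sy.act_act_inv g z)
    rw [h3] at h2
    rw [← h2, RO.mem_act]
  rw [h1, key]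
  simp

/-- Build a hereditarily symmetric name. -/
def Sy.mk' {ι : Type} (A : ι → Sy P G D) (a : ι → RO P)
    (h : ∃ e : Finset D, ∀ g : G, Fixes e g → ∀ z : Sy P G D, ∀ p : P,
      p ∈ Nm.bmem z.1 (Nm.mk ι (fun i => (A i).1) a) →
      g • p ∈ Nm.bmem (z.act g).1 (Nm.mk ι (fun i => (A i).1) a)) : Sy P G D :=
  ⟨Nm.mk ι (fun i => (A i).1) a, fun i => (A i).2, by
    obtain ⟨e, he⟩ := h
    exact ⟨e, supports_of_forall (fun i => (A i).2) he⟩⟩

namespace Sy

theorem mem_mk' {ι : Type} {A : ι → Sy P G D} {a : ι → RO P} {h} {z : Sy P G D} {p : P} :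
    p ∈ mem z (Sy.mk' A a h) ↔ ∀ q ≤ p, ∃ r ≤ q, ∃ i, r ∈ a i ∧ r ∈ eq z (A i) := Iff.rfl

theorem mem_mk'_self {ι : Type} {A : ι → Sy P G D} {a : ι → RO P} {h} {i : ι} {p : P}
    (hi : p ∈ a i) : p ∈ mem (A i) (Sy.mk' A a h) :=
  fun q hq => ⟨q, le_rfl, i, RO.mono hq hi, eq_refl _ _⟩

/-- Every symmetric name is of the form `mk ι A a` with symmetric elements. -/
theorem exists_repr (x : Sy P G D) : ∃ (ι : Type) (A : ι → Sy P G D) (a : ι → RO P),
    x.1 = Nm.mk ι (fun i => (A i).1) a ∧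
    ∀ (z : Sy P G D) (p : P), p ∈ mem z x ↔ ∀ q ≤ p, ∃ r ≤ q, ∃ i, r ∈ a i ∧ r ∈ eq z (A i) := by
  obtain ⟨⟨ι, A, a⟩, hx⟩ := x
  exact ⟨ι, fun i => ⟨A i, hx.1 i⟩, a, rfl, fun z p => Iff.rfl⟩

/-- Extensionality. -/
theorem eq_iff {x y : Sy P G D} {p : P} :
    p ∈ eq x y ↔ ∀ z : Sy P G D, ∀ q ≤ p, q ∈ mem z x ↔ q ∈ mem z y := by
  constructor
  · intro h z q hq
    exact mem_congr (eq_refl _ _) (RO.mono hq h)
  · intro h
    obtain ⟨⟨ι, A, a⟩, hx⟩ := x
    obtain ⟨⟨κ, C, c⟩, hy⟩ := y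
    exact beq_of_forall_sy hx.1 hy.1 h

theorem supp_eq {x : Sy P G D} {e : Finset D} (he : Supports G e x.1) {g : G} (hg : Fixes e g)
    (p : P) : p ∈ eq (act g x) x := he g hg p

theorem smul_mem_of_supp {x z : Sy P G D} {e : Finset D} (he : Supports G e x.1) {g : G}
    (hg : Fixes e g) {p : P} (h : p ∈ mem z x) : g • p ∈ mem (act g z) x :=
  mem_congr_right (supp_eq he hg _) ((smul_mem_mem g).2 h)

/-- **Separation** for symmetric extensional predicates. -/
theorem exists_sep (x : Sy P G D) (φ : Sy P G D → RO P)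
    (hext : ∀ z w p, p ∈ eq z w → p ∈ φ z → p ∈ φ w)
    (hsym : ∃ e : Finset D, ∀ g : G, Fixes e g → ∀ z p, p ∈ φ z → g • p ∈ φ (act g z)) :
    ∃ y : Sy P G D, ∀ z p, p ∈ mem z y ↔ p ∈ mem z x ∧ p ∈ φ z := by
  classical
  obtain ⟨ι, A, a, hx, hx'⟩ := exists_repr x
  have key : ∀ (z : Sy P G D) (p : P),
      p ∈ Nm.bmem z.1 (Nm.mk ι (fun i => (A i).1) fun i => RO.and (a i) (φ (A i))) ↔
        p ∈ mem z x ∧ p ∈ φ z := by
    intro z p
    rw [hx']
    constructor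
    · intro h
      constructor
      · intro q hq
        obtain ⟨r, hr, i, hi, hi'⟩ := h q hq
        exact ⟨r, hr, i, hi.1, hi'⟩
      · refine RO.reg fun q hq => ?_
        obtain ⟨r, hr, i, hi, hi'⟩ := h q hq
        exact ⟨r, hr, hext _ _ _ (eq_symm hi') hi.2⟩
    · rintro ⟨h, h'⟩ q hq
      obtain ⟨r, hr, i, hi, hi'⟩ := h q hq
      exact ⟨r, hr, i, ⟨hi, hext _ _ _ hi' (RO.mono (hr.trans hq) h')⟩, hi'⟩
  obtain ⟨e, he⟩ := x.exists_supp
  obtain ⟨e', he'⟩ := hsym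
  refine ⟨Sy.mk' A (fun i => RO.and (a i) (φ (A i))) ⟨e ∪ e', fun g hg z p h => ?_⟩, key⟩
  rw [key] at h ⊢
  exact ⟨smul_mem_of_supp he (hg.mono Finset.subset_union_left) h.1,
    he' g (hg.mono Finset.subset_union_right) z p h.2⟩

/-- **Collection**. -/
theorem exists_coll (x : Sy P G D) (φ : Sy P G D → Sy P G D → RO P)
    (hext : ∀ z z' w p, p ∈ eq z z' → p ∈ φ z w → p ∈ φ z' w) :
    ∃ y : Sy P G D, ∀ z p, p ∈ mem z x → (∀ q ≤ p, ∃ r ≤ q, ∃ w, r ∈ φ z w) →
      ∀ q ≤ p, ∃ r ≤ q, ∃ w, r ∈ mem w y ∧ r ∈ φ z w := by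
  classical
  obtain ⟨ι, A, a, hx, hx'⟩ := exists_repr x
  let W : ι × P → Sy P G D := fun t =>
    if h : ∃ w, t.2 ∈ φ (A t.1) w then h.choose else x
  have hW : ∀ i p, (∃ w, p ∈ φ (A i) w) → p ∈ φ (A i) (W (i, p)) := by
    intro i p h
    have : W (i, p) = h.choose := dif_pos h
    rw [this]
    exact h.choose_spec
  refine ⟨Sy.mk' (ι := (ι × P) × G) (fun t => act t.2 (W t.1)) (fun _ => RO.top)
    ⟨∅, fun g _ z p h => ?_⟩, fun z p hz hw q hq => ?_⟩
  · intro q hq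
    obtain ⟨r, hr, ⟨t, k⟩, -, hi'⟩ := h (g⁻¹ • q) (by
      rw [← RO.smul_le_iff g]; simpa using hq)
    refine ⟨g • r, by rw [← RO.smul_le_iff g⁻¹]; simpa using hr, ⟨t, g * k⟩, trivial, ?_⟩
    have : r ∈ eq z (act k (W t)) := hi'
    have h2 := (smul_mem_eq g).2 this
    rw [← act_mul] at h2
    exact h2
  · obtain ⟨r, hr, i, hi, hi'⟩ := (hx' z p).1 hz q hq
    obtain ⟨s, hs, w, hw'⟩ := hw r (hr.trans hq)
    have h1 := hW i s ⟨w, hext _ _ _ _ (RO.mono hs hi') hw'⟩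
    refine ⟨s, hs.trans hr, W (i, s), ?_, hext _ _ _ _ (eq_symm (RO.mono hs hi')) h1⟩
    intro q' hq'
    exact ⟨q', le_rfl, ((i, s), 1), trivial, by
      show q' ∈ eq (W (i, s)) (act 1 (W (i, s)))
      rw [act_one]; exact eq_refl _ _⟩

/-- **Union**. -/
theorem exists_union (x : Sy P G D) : ∃ y : Sy P G D, ∀ z p, p ∈ mem z y ↔
    ∀ q ≤ p, ∃ r ≤ q, ∃ w, r ∈ mem w x ∧ r ∈ mem z w := by
  classical
  obtain ⟨ι, A, a, hx, hx'⟩ := exists_repr x
  choose κ C c _ hA using fun i => exists_repr (A i)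
  have key : ∀ (z : Sy P G D) (p : P),
      p ∈ Nm.bmem z.1 (Nm.mk (Σ i, κ i) (fun t => (C t.1 t.2).1)
        fun t => RO.and (a t.1) (c t.1 t.2)) ↔
        ∀ q ≤ p, ∃ r ≤ q, ∃ w, r ∈ mem w x ∧ r ∈ mem z w := by
    intro z p
    constructor
    · intro h q hq
      obtain ⟨r, hr, ⟨i, j⟩, hi, hi'⟩ := h q hq
      refine ⟨r, hr, A i, (hx' _ _).2 fun q' hq' => ⟨q', le_rfl, i, RO.mono hq' hi.1, eq_refl _ _⟩,
        (hA i _ _).2 fun q' hq' => ⟨q', le_rfl, j, RO.mono hq' hi.2, RO.mono hq' hi'⟩⟩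
    · intro h q hq
      obtain ⟨r, hr, w, hw, hw'⟩ := h q hq
      obtain ⟨s, hs, i, hi, hi'⟩ := (hx' _ _).1 hw r le_rfl
      obtain ⟨t, ht, j, hj, hj'⟩ := (hA i _ _).1 (mem_congr_right hi' (RO.mono hs hw')) s le_rfl
      exact ⟨t, ht.trans (hs.trans hr), ⟨i, j⟩, ⟨RO.mono ht hi, hj⟩, hj'⟩
  obtain ⟨e, he⟩ := x.exists_supp
  refine ⟨Sy.mk' (fun t : Σ i, κ i => C t.1 t.2) (fun t => RO.and (a t.1) (c t.1 t.2))
    ⟨e, fun g hg z p h => ?_⟩, key⟩
  rw [key] at h ⊢
  rw [RO.forall_le_iff g]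
  intro q hq
  rw [RO.exists_le_iff g]
  obtain ⟨r, hr, w, hw, hw'⟩ := h q hq
  exact ⟨r, hr, act g w, smul_mem_of_supp he hg hw, (smul_mem_mem g).2 hw'⟩

/-- **Pairing**. -/
theorem exists_pair (x y : Sy P G D) : ∃ w : Sy P G D, ∀ z p, p ∈ mem z w ↔
    ∀ q ≤ p, ∃ r ≤ q, r ∈ eq z x ∨ r ∈ eq z y := by
  classical
  have key : ∀ (z : Sy P G D) (p : P),
      p ∈ Nm.bmem z.1 (Nm.mk Bool (fun b => (cond b x y : Sy P G D).1) fun _ => RO.top) ↔
        ∀ q ≤ p, ∃ r ≤ q, r ∈ eq z x ∨ r ∈ eq z y := by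
    intro z p
    constructor
    · intro h q hq
      obtain ⟨r, hr, i, -, hi'⟩ := h q hq
      cases i
      · exact ⟨r, hr, Or.inr hi'⟩
      · exact ⟨r, hr, Or.inl hi'⟩
    · intro h q hq
      obtain ⟨r, hr, hi⟩ := h q hq
      rcases hi with hi | hi
      · exact ⟨r, hr, true, trivial, hi⟩
      · exact ⟨r, hr, false, trivial, hi⟩
  obtain ⟨e, he⟩ := x.exists_supp
  obtain ⟨e', he'⟩ := y.exists_supp
  refine ⟨Sy.mk' (fun b : Bool => cond b x y) (fun _ => RO.top)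
    ⟨e ∪ e', fun g hg z p h => ?_⟩, key⟩
  rw [key] at h ⊢
  rw [RO.forall_le_iff g]
  intro q hq
  rw [RO.exists_le_iff g]
  obtain ⟨r, hr, hi⟩ := h q hq
  refine ⟨r, hr, ?_⟩
  rcases hi with hi | hi
  · left
    exact eq_trans ((smul_mem_eq g).2 hi)
      (supp_eq he (hg.mono Finset.subset_union_left) _)
  · right
    exact eq_trans ((smul_mem_eq g).2 hi)
      (supp_eq he' (hg.mono Finset.subset_union_right) _)

/-- **Power set**. -/
theorem exists_power (x : Sy P G D) : ∃ y : Sy P G D, ∀ z p, p ∈ mem z y ↔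
    ∀ w, ∀ q ≤ p, q ∈ mem w z → q ∈ mem w x := by
  classical
  obtain ⟨ι, A, a, hx, hx'⟩ := exists_repr x
  let sub : Sy P G D → RO P := fun z => RO.all fun w : Sy P G D => RO.imp (mem w z) (mem w x)
  have hsub : ∀ z p, p ∈ sub z ↔ ∀ w, ∀ q ≤ p, q ∈ mem w z → q ∈ mem w x := fun z p => Iff.rfl
  have subext : ∀ z w p, p ∈ eq z w → p ∈ sub z → p ∈ sub w := by
    intro z w p h h' u q hq hu
    exact h' u q hq (mem_congr_right (eq_symm (RO.mono hq h)) hu)
  let I := {v : ι → RO P // HS G D (Nm.mk ι (fun i => (A i).1) v)}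
  let F : I → Sy P G D := fun v => ⟨Nm.mk ι (fun i => (A i).1) v.1, v.2⟩
  have key : ∀ (z : Sy P G D) (p : P),
      p ∈ Nm.bmem z.1 (Nm.mk I (fun v => (F v).1) fun v => sub (F v)) ↔ p ∈ sub z := by
    intro z p
    constructor
    · intro h
      refine RO.reg fun q hq => ?_
      obtain ⟨r, hr, v, hv, hv'⟩ := h q hq
      exact ⟨r, hr, subext _ _ _ (eq_symm hv') hv⟩
    · intro h q hq
      -- the separated subset `{w ∈ x : w ∈ z}`
      have hs : ∀ (w : Sy P G D) (p : P),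
          p ∈ Nm.bmem w.1 (Nm.mk ι (fun i => (A i).1) fun i => RO.and (a i) (mem (A i) z)) ↔
            p ∈ mem w x ∧ p ∈ mem w z := by
        intro w p
        rw [hx']
        constructor
        · intro h
          constructor
          · intro q hq
            obtain ⟨r, hr, i, hi, hi'⟩ := h q hq
            exact ⟨r, hr, i, hi.1, hi'⟩
          · refine RO.reg fun q hq => ?_
            obtain ⟨r, hr, i, hi, hi'⟩ := h q hq
            exact ⟨r, hr, mem_congr_left (eq_symm hi') hi.2⟩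
        · rintro ⟨h, h'⟩ q hq
          obtain ⟨r, hr, i, hi, hi'⟩ := h q hq
          exact ⟨r, hr, i, ⟨hi, mem_congr_left hi' (RO.mono (hr.trans hq) h')⟩, hi'⟩
      obtain ⟨e, he⟩ := x.exists_supp
      obtain ⟨e', he'⟩ := z.exists_supp
      let v : I := ⟨fun i => RO.and (a i) (mem (A i) z), fun i => (A i).2, e ∪ e',
        supports_of_forall (fun i => (A i).2) fun g hg w p hw => by
          rw [hs] at hw ⊢
          exact ⟨smul_mem_of_supp he (hg.mono Finset.subset_union_left) hw.1,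
            smul_mem_of_supp he' (hg.mono Finset.subset_union_right) hw.2⟩⟩
      refine ⟨q, le_rfl, v, ?_, ?_⟩
      · intro w r _ hw
        exact ((hs w r).1 hw).1
      · change q ∈ eq z (F v)
        rw [eq_iff]
        intro w r hr
        constructor
        · intro hw
          exact (hs w r).2 ⟨h w r (hr.trans hq) hw, hw⟩
        · intro hw
          exact ((hs w r).1 hw).2
  obtain ⟨e, he⟩ := x.exists_supp
  refine ⟨Sy.mk' F (fun v => sub (F v)) ⟨e, fun g hg z p h => ?_⟩, fun z p => key z p⟩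
  rw [key] at h ⊢
  intro w
  rw [RO.mem_imp, RO.forall_le_iff g]
  intro q hq hw
  have h1 : q ∈ mem (act g⁻¹ w) z := by
    rw [← smul_mem_mem g]; simpa using hw
  have h2 := smul_mem_of_supp he hg (h _ q hq h1)
  simpa using h2

/-- The empty set. -/
theorem exists_empty : ∃ y : Sy P G D, ∀ z p, p ∉ mem z y := by
  refine ⟨Sy.mk' (ι := Empty) (fun i => i.elim) (fun i => i.elim)
    ⟨∅, fun g _ z p h => ?_⟩, fun z p h => ?_⟩
  · obtain ⟨_, _, i, _⟩ := h p le_rfl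
    exact i.elim
  · obtain ⟨_, _, i, _⟩ := h p le_rfl
    exact i.elim

noncomputable instance : Inhabited (Sy P G D) := ⟨exists_empty.choose⟩

/-- **Foundation**. -/
theorem foundation (x : Sy P G D) {p : P} (h : ∀ q ≤ p, ∃ r ≤ q, ∃ y, r ∈ mem y x) :
    ∀ q ≤ p, ∃ r ≤ q, ∃ y, r ∈ mem y x ∧ ∀ z, ∀ s ≤ r, s ∈ mem z y → s ∉ mem z x := by
  intro q hq
  by_contra hcon
  push Not at hcon
  -- no name is forced into `x` below `q`
  have key : ∀ (y : Nm P) (hy : HS G D y), ∀ r ≤ q, r ∉ mem (⟨y, hy⟩ : Sy P G D) x := by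
    intro y
    induction y with
    | mk ι A a ih =>
      intro hy r hr hmem
      obtain ⟨z, s, hs, hz, hzx⟩ := hcon r hr _ hmem
      obtain ⟨t, ht, i, hi, hi'⟩ := hz s le_rfl
      exact ih i (hy.1 i) t (ht.trans (hs.trans hr))
        (mem_congr_left (x := z) (y := ⟨A i, hy.1 i⟩) hi' (RO.mono ht hzx))
  obtain ⟨r, hr, y, hy⟩ := h q hq
  exact key y.1 y.2 r hr hy

end Sy

end Pool.Agent.Lib_helper83
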