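import Pool.Agent.Lib_helper83.RO

/-!
# Names over a forcing notion

Names with `RO P`-valued membership, forced equality and forced membership, and the action of a
group.
-/

namespace Pool.Agent.Lib_helper83

open RO

/-- Names: small families of names together with truth values. -/
inductive Nm (P : Type) [Preorder P] : Type 1
  | mk (ι : Type) (A : ι → Nm P) (b : ι → RO P) : Nm P

namespace Nm

variable {P : Type} [Preorder P]

/-- The truth value of `x = y`. -/
def beq : Nm P → Nm P → RO P
  | mk _ A a, mk _ C c =>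
    RO.and (RO.all fun i => RO.imp (a i) (RO.ex fun j => RO.and (c j) (beq (A i) (C j))))
      (RO.all fun j => RO.imp (c j) (RO.ex fun i => RO.and (a i) (beq (A i) (C j))))

/-- The truth value of `x ∈ y`. -/
def bmem (x : Nm P) : Nm P → RO P
  | mk _ C c => RO.ex fun j => RO.and (c j) (beq x (C j))

theorem mem_beq_mk {ι κ : Type} {A : ι → Nm P} {a : ι → RO P} {C : κ → Nm P} {c : κ → RO P}
    {p : P} : p ∈ beq (mk ι A a) (mk κ C c) ↔
      (∀ i, ∀ q ≤ p, q ∈ a i → ∀ r ≤ q, ∃ s ≤ r, ∃ j, s ∈ c j ∧ s ∈ beq (A i) (C j)) ∧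
      (∀ j, ∀ q ≤ p, q ∈ c j → ∀ r ≤ q, ∃ s ≤ r, ∃ i, s ∈ a i ∧ s ∈ beq (A i) (C j)) := Iff.rfl

theorem mem_bmem_mk {x : Nm P} {κ : Type} {C : κ → Nm P} {c : κ → RO P} {p : P} :
    p ∈ bmem x (mk κ C c) ↔ ∀ q ≤ p, ∃ r ≤ q, ∃ j, r ∈ c j ∧ r ∈ beq x (C j) := Iff.rfl

theorem beq_refl (x : Nm P) (p : P) : p ∈ beq x x := by
  induction x generalizing p with
  | mk ι A a ih =>
    exact ⟨fun i q _ hi r hr => ⟨r, le_rfl, i, mono hr hi, ih i r⟩,
      fun i q _ hi r hr => ⟨r, le_rfl, i, mono hr hi, ih i r⟩⟩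

theorem beq_comm (x y : Nm P) : beq x y = beq y x := by
  induction x generalizing y with
  | mk ι A a ih =>
    cases y with
    | mk κ C c =>
      ext p
      simp only [mem_beq_mk, ih]
      exact and_comm

theorem beq_symm {x y : Nm P} {p : P} (h : p ∈ beq x y) : p ∈ beq y x := by
  rwa [beq_comm]

theorem beq_trans {x y z : Nm P} {p : P} (h : p ∈ beq x y) (h' : p ∈ beq y z) :
    p ∈ beq x z := by
  induction x generalizing y z p with
  | mk ι A a ih =>
    cases y with
    | mk κ C c =>
      cases z with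
      | mk μ D d =>
        rw [mem_beq_mk] at h h' ⊢
        constructor
        · intro i q hq hi r hr
          obtain ⟨s, hs, j, hj, hj'⟩ := h.1 i q hq hi r hr
          obtain ⟨t, ht, k, hk, hk'⟩ := h'.1 j s (hs.trans (hr.trans hq)) hj s le_rfl
          exact ⟨t, ht.trans hs, k, hk, ih i (mono ht hj') hk'⟩
        · intro k q hq hk r hr
          obtain ⟨s, hs, j, hj, hj'⟩ := h'.2 k q hq hk r hr
          obtain ⟨t, ht, i, hi, hi'⟩ := h.2 j s (hs.trans (hr.trans hq)) hj s le_rfl
          exact ⟨t, ht.trans hs, i, hi, ih i hi' (mono ht hj')⟩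

theorem bmem_congr_left {x y z : Nm P} {p : P} (h : p ∈ beq x y) (h' : p ∈ bmem x z) :
    p ∈ bmem y z := by
  cases z with
  | mk κ C c =>
    intro q hq
    obtain ⟨r, hr, j, hj, hj'⟩ := h' q hq
    exact ⟨r, hr, j, hj, beq_trans (beq_symm (mono (hr.trans hq) h)) hj'⟩

theorem bmem_congr_right {x y z : Nm P} {p : P} (h : p ∈ beq y z) (h' : p ∈ bmem x y) :
    p ∈ bmem x z := by
  cases y with
  | mk κ C c =>
    cases z with
    | mk μ D d =>
      intro q hq
      obtain ⟨r, hr, j, hj, hj'⟩ := h' q hq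
      obtain ⟨s, hs, k, hk, hk'⟩ := h.1 j r (hr.trans hq) hj r le_rfl
      exact ⟨s, hs.trans hr, k, hk, beq_trans (mono hs hj') hk'⟩

theorem bmem_el {κ : Type} {C : κ → Nm P} {c : κ → RO P} {j : κ} {p : P} (h : p ∈ c j) :
    p ∈ bmem (C j) (mk κ C c) :=
  fun q hq => ⟨q, le_rfl, j, mono hq h, beq_refl _ _⟩

/-- Extensionality, in terms of arbitrary names. -/
theorem beq_of_forall_el {x y : Nm P} {p : P}
    (h : ∀ z : Nm P, ∀ q ≤ p, q ∈ bmem z x ↔ q ∈ bmem z y) : p ∈ beq x y := by
  cases x with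
  | mk ι A a =>
    cases y with
    | mk κ C c =>
      constructor
      · intro i q hq hi
        exact (h (A i) q hq).1 (bmem_el hi)
      · intro j q hq hj
        have := (h (C j) q hq).2 (bmem_el hj)
        intro r hr
        obtain ⟨s, hs, i, hi, hi'⟩ := this r hr
        exact ⟨s, hs, i, hi, beq_symm hi'⟩

section act

variable {G : Type} [Group G] [MulAction G P] [ActsMono G P]

/-- The action of the group on names. -/
def act (g : G) : Nm P → Nm P
  | mk ι A a => mk ι (fun i => act g (A i)) (fun i => RO.act g (a i))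

theorem act_mk (g : G) {ι : Type} {A : ι → Nm P} {a : ι → RO P} :
    act g (mk ι A a) = mk ι (fun i => act g (A i)) (fun i => RO.act g (a i)) := rfl

@[simp] theorem act_one (x : Nm P) : act (1 : G) x = x := by
  induction x with
  | mk ι A a ih => simp [act_mk, ih]

theorem act_mul (g h : G) (x : Nm P) : act (g * h) x = act g (act h x) := by
  induction x with
  | mk ι A a ih => simp [act_mk, ih, RO.act_mul]

@[simp] theorem act_inv_act (g : G) (x : Nm P) : act g⁻¹ (act g x) = x := by
  rw [← act_mul]; simp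

@[simp] theorem act_act_inv (g : G) (x : Nm P) : act g (act g⁻¹ x) = x := by
  rw [← act_mul]; simp

theorem act_beq (g : G) (x y : Nm P) : RO.act g (beq x y) = beq (act g x) (act g y) := by
  induction x generalizing y with
  | mk ι A a ih =>
    cases y with
    | mk κ C c => simp [act_mk, beq, ih]

theorem act_bmem (g : G) (x y : Nm P) : RO.act g (bmem x y) = bmem (act g x) (act g y) := by
  cases y with
  | mk κ C c => simp [act_mk, bmem, act_beq]

end act

end Nm

end Pool.Agent.Lib_helper83
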