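import Mathlib

/-!
# Regular truth values of a forcing notion

`RO P` is the type of regular open subsets of a preorder `P` of forcing conditions (`q ≤ p` means
that `q` is stronger than `p`).  The membership `p ∈ a` is read `p forces a`.
-/

namespace Pool.Agent.Lib_helper83

/-- Regular truth values: downward closed sets of conditions `a` such that every condition below
which `a` is dense belongs to `a`. -/
structure RO (P : Type) [Preorder P] where
  /-- the set of conditions forcing the truth value -/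
  carrier : P → Prop
  mono' : ∀ p q, q ≤ p → carrier p → carrier q
  reg' : ∀ p, (∀ q ≤ p, ∃ r ≤ q, carrier r) → carrier p

namespace RO

variable {P : Type} [Preorder P]

instance : Membership P (RO P) := ⟨fun a p => a.carrier p⟩

theorem mem_mk {c : P → Prop} {h1 h2} {p : P} : p ∈ (⟨c, h1, h2⟩ : RO P) ↔ c p := Iff.rfl

@[ext]
theorem ext {a b : RO P} (h : ∀ p, p ∈ a ↔ p ∈ b) : a = b := by
  cases a; cases b
  congr
  funext p
  exact propext (h p)

theorem mono {a : RO P} {p q : P} (hqp : q ≤ p) (h : p ∈ a) : q ∈ a := a.mono' p q hqp h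

theorem reg {a : RO P} {p : P} (h : ∀ q ≤ p, ∃ r ≤ q, r ∈ a) : p ∈ a := a.reg' p h

theorem mem_iff_dense {a : RO P} {p : P} : p ∈ a ↔ ∀ q ≤ p, ∃ r ≤ q, r ∈ a :=
  ⟨fun h q hq => ⟨q, le_rfl, mono hq h⟩, reg⟩

/-- truth -/
def top : RO P := ⟨fun _ => True, fun _ _ _ _ => trivial, fun _ _ => trivial⟩

/-- falsity -/
def bot : RO P := ⟨fun _ => False, fun _ _ _ h => h, fun p h => (h p le_rfl).elim fun _ h => h.2⟩

/-- conjunction -/
def and (a b : RO P) : RO P :=
  ⟨fun p => p ∈ a ∧ p ∈ b, fun _ _ h h' => ⟨mono h h'.1, mono h h'.2⟩, fun _ h =>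
    ⟨reg fun q hq => (h q hq).imp fun _ h => ⟨h.1, h.2.1⟩,
      reg fun q hq => (h q hq).imp fun _ h => ⟨h.1, h.2.2⟩⟩⟩

/-- implication -/
def imp (a b : RO P) : RO P :=
  ⟨fun p => ∀ q ≤ p, q ∈ a → q ∈ b, fun _ _ h h' r hr => h' r (hr.trans h), fun p h q hq ha => by
    refine reg fun r hr => ?_
    obtain ⟨s, hs, hs'⟩ := h r (hr.trans hq)
    exact ⟨s, hs, hs' s le_rfl (mono (hs.trans hr) ha)⟩⟩

/-- negation -/
def not (a : RO P) : RO P :=
  ⟨fun p => ∀ q ≤ p, q ∉ a, fun _ _ h h' r hr => h' r (hr.trans h), fun p h q hq ha => by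
    obtain ⟨s, hs, hs'⟩ := h q hq
    exact hs' s le_rfl (mono hs ha)⟩

/-- universal quantification -/
def all {ι : Sort*} (f : ι → RO P) : RO P :=
  ⟨fun p => ∀ i, p ∈ f i, fun _ _ h h' i => mono h (h' i), fun _ h i =>
    reg fun q hq => (h q hq).imp fun _ h => ⟨h.1, h.2 i⟩⟩

/-- existential quantification -/
def ex {ι : Sort*} (f : ι → RO P) : RO P :=
  ⟨fun p => ∀ q ≤ p, ∃ r ≤ q, ∃ i, r ∈ f i, fun _ _ h h' q hq => h' q (hq.trans h),
    fun p h q hq => by
      obtain ⟨s, hs, hs'⟩ := h q hq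
      obtain ⟨t, ht, i, hi⟩ := hs' s le_rfl
      exact ⟨t, ht.trans hs, i, hi⟩⟩

/-- disjunction -/
def or (a b : RO P) : RO P :=
  ⟨fun p => ∀ q ≤ p, ∃ r ≤ q, r ∈ a ∨ r ∈ b, fun _ _ h h' q hq => h' q (hq.trans h),
    fun p h q hq => by
      obtain ⟨s, hs, hs'⟩ := h q hq
      obtain ⟨t, ht, i⟩ := hs' s le_rfl
      exact ⟨t, ht.trans hs, i⟩⟩

/-- equivalence -/
def iff (a b : RO P) : RO P := and (imp a b) (imp b a)

@[simp] theorem mem_top {p : P} : p ∈ (top : RO P) ↔ True := Iff.rfl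
@[simp] theorem mem_bot {p : P} : p ∈ (bot : RO P) ↔ False := Iff.rfl
@[simp] theorem mem_and {a b : RO P} {p : P} : p ∈ and a b ↔ p ∈ a ∧ p ∈ b := Iff.rfl
theorem mem_imp {a b : RO P} {p : P} : p ∈ imp a b ↔ ∀ q ≤ p, q ∈ a → q ∈ b := Iff.rfl
theorem mem_not {a : RO P} {p : P} : p ∈ not a ↔ ∀ q ≤ p, q ∉ a := Iff.rfl
@[simp] theorem mem_all {ι : Sort*} {f : ι → RO P} {p : P} : p ∈ all f ↔ ∀ i, p ∈ f i := Iff.rfl
theorem mem_ex {ι : Sort*} {f : ι → RO P} {p : P} :
    p ∈ ex f ↔ ∀ q ≤ p, ∃ r ≤ q, ∃ i, r ∈ f i := Iff.rfl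
theorem mem_or {a b : RO P} {p : P} : p ∈ or a b ↔ ∀ q ≤ p, ∃ r ≤ q, r ∈ a ∨ r ∈ b := Iff.rfl
theorem mem_iff {a b : RO P} {p : P} : p ∈ iff a b ↔ ∀ q ≤ p, q ∈ a ↔ q ∈ b :=
  ⟨fun h q hq => ⟨h.1 q hq, h.2 q hq⟩, fun h => ⟨fun q hq => (h q hq).1, fun q hq => (h q hq).2⟩⟩

theorem ex_intro {ι : Sort*} {f : ι → RO P} {p : P} (i : ι) (h : p ∈ f i) : p ∈ ex f :=
  fun q hq => ⟨q, le_rfl, i, mono hq h⟩

theorem or_inl {a b : RO P} {p : P} (h : p ∈ a) : p ∈ or a b :=
  fun q hq => ⟨q, le_rfl, Or.inl (mono hq h)⟩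

theorem or_inr {a b : RO P} {p : P} (h : p ∈ b) : p ∈ or a b :=
  fun q hq => ⟨q, le_rfl, Or.inr (mono hq h)⟩

theorem imp_mp {a b : RO P} {p : P} (h : p ∈ imp a b) (h' : p ∈ a) : p ∈ b := h p le_rfl h'

/-- elimination of an existential quantifier when proving a truth value -/
theorem ex_elim {ι : Sort*} {f : ι → RO P} {c : RO P} {p : P} (h : p ∈ ex f)
    (H : ∀ i, ∀ q ≤ p, q ∈ f i → q ∈ c) : p ∈ c :=
  reg fun q hq => by
    obtain ⟨r, hr, i, hi⟩ := h q hq
    exact ⟨r, hr, H i r (hr.trans hq) hi⟩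

theorem or_elim {a b c : RO P} {p : P} (h : p ∈ or a b)
    (H1 : ∀ q ≤ p, q ∈ a → q ∈ c) (H2 : ∀ q ≤ p, q ∈ b → q ∈ c) : p ∈ c :=
  reg fun q hq => by
    obtain ⟨r, hr, hi⟩ := h q hq
    exact ⟨r, hr, hi.elim (H1 r (hr.trans hq)) (H2 r (hr.trans hq))⟩

theorem em {a : RO P} {p : P} : ∃ q ≤ p, q ∈ a ∨ q ∈ not a := by
  by_cases h : ∃ q ≤ p, q ∈ a
  · obtain ⟨q, hq, ha⟩ := h
    exact ⟨q, hq, Or.inl ha⟩
  · refine ⟨p, le_rfl, Or.inr fun q hq ha => h ⟨q, hq, ha⟩⟩

/-- if `p` does not force `a` then some stronger condition forces `not a` -/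
theorem exists_not {a : RO P} {p : P} (h : p ∉ a) : ∃ q ≤ p, q ∈ not a := by
  by_contra hcon
  push Not at hcon
  refine h (reg fun q hq => ?_)
  have := hcon q hq
  rw [mem_not] at this
  push Not at this
  exact this

theorem not_not {a : RO P} {p : P} : p ∈ not (not a) ↔ p ∈ a := by
  constructor
  · intro h
    by_contra hp
    obtain ⟨q, hq, hq'⟩ := exists_not hp
    exact h q hq hq'
  · intro h q hq hq'
    exact hq' q le_rfl (mono hq h)

section act

variable {G : Type} [Group G] [MulAction G P]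

/-- A group acting on the conditions by order automorphisms. -/
class ActsMono (G P : Type) [Group G] [Preorder P] [MulAction G P] : Prop where
  smul_le : ∀ (g : G) {p q : P}, p ≤ q → g • p ≤ g • q

variable [ActsMono G P]

theorem smul_le_iff (g : G) {p q : P} : g • p ≤ g • q ↔ p ≤ q := by
  refine ⟨fun h => ?_, ActsMono.smul_le g⟩
  simpa using ActsMono.smul_le g⁻¹ h

/-- The action of a group element on truth values. -/
def act (g : G) (a : RO P) : RO P :=
  ⟨fun p => g⁻¹ • p ∈ a, fun _ _ h h' => mono (ActsMono.smul_le g⁻¹ h) h', fun p h => by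
    refine reg fun q hq => ?_
    obtain ⟨r, hr, hr'⟩ := h (g • q) (by simpa using ActsMono.smul_le g hq)
    exact ⟨g⁻¹ • r, by simpa using ActsMono.smul_le g⁻¹ hr, hr'⟩⟩

theorem mem_act {g : G} {a : RO P} {p : P} : p ∈ act g a ↔ g⁻¹ • p ∈ a := Iff.rfl

@[simp] theorem smul_mem_act {g : G} {a : RO P} {p : P} : g • p ∈ act g a ↔ p ∈ a := by
  simp [mem_act]

@[simp] theorem act_one (a : RO P) : act (1 : G) a = a := by ext p; simp [mem_act]

theorem act_mul (g h : G) (a : RO P) : act (g * h) a = act g (act h a) := by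
  ext p; simp [mem_act, mul_smul]

@[simp] theorem act_top (g : G) : act g (top : RO P) = top := by ext p; simp [mem_act]

@[simp] theorem act_bot (g : G) : act g (bot : RO P) = bot := by ext p; simp [mem_act]

@[simp] theorem act_and (g : G) (a b : RO P) : act g (and a b) = and (act g a) (act g b) := by
  ext p; simp [mem_act]

theorem forall_le_iff (g : G) {p : P} {F : P → Prop} :
    (∀ q ≤ g • p, F q) ↔ ∀ q ≤ p, F (g • q) := by
  constructor
  · intro h q hq
    exact h _ (ActsMono.smul_le g hq)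
  · intro h q hq
    have := h (g⁻¹ • q) (by simpa using ActsMono.smul_le g⁻¹ hq)
    simpa using this

theorem exists_le_iff (g : G) {p : P} {F : P → Prop} :
    (∃ q ≤ g • p, F q) ↔ ∃ q ≤ p, F (g • q) := by
  constructor
  · rintro ⟨q, hq, h⟩
    refine ⟨g⁻¹ • q, by simpa using ActsMono.smul_le g⁻¹ hq, by simpa using h⟩
  · rintro ⟨q, hq, h⟩
    exact ⟨_, ActsMono.smul_le g hq, h⟩

@[simp] theorem act_imp (g : G) (a b : RO P) : act g (imp a b) = imp (act g a) (act g b) := by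
  ext p
  rw [mem_act, mem_imp, mem_imp, forall_le_iff g⁻¹]
  simp only [mem_act]

@[simp] theorem act_not (g : G) (a : RO P) : act g (not a) = not (act g a) := by
  ext p
  rw [mem_act, mem_not, mem_not, forall_le_iff g⁻¹]
  simp only [mem_act]

@[simp] theorem act_or (g : G) (a b : RO P) : act g (or a b) = or (act g a) (act g b) := by
  ext p
  rw [mem_act, mem_or, mem_or, forall_le_iff g⁻¹]
  simp only [mem_act, exists_le_iff g⁻¹]

@[simp] theorem act_iff (g : G) (a b : RO P) : act g (iff a b) = iff (act g a) (act g b) := by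
  simp [iff]

@[simp] theorem act_all {ι : Sort*} (g : G) (f : ι → RO P) :
    act g (all f) = all (fun i => act g (f i)) := by
  ext p; simp [mem_act]

@[simp] theorem act_ex {ι : Sort*} (g : G) (f : ι → RO P) :
    act g (ex f) = ex (fun i => act g (f i)) := by
  ext p
  rw [mem_act, mem_ex, mem_ex, forall_le_iff g⁻¹]
  simp only [mem_act, exists_le_iff g⁻¹]

end act

end RO

end Pool.Agent.Lib_helper83
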