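import Pool.Agent.Lib_helper83.Topo

/-!
# ZF does not prove that compact metrizable dense-in-itself spaces contain infinite compact
scattered subspaces
-/

namespace Pool.Agent.Lib_helper83

open RO Defs Sy

/-- the ultrametric axioms as a formula -/
def fUltra {k : ℕ} (r X : Fin k) : Fml k :=
  .and (.all (.imp (.all (.not (.mem 0 1))) (.all (.imp (.mem 0 X.succ.succ)
    (.all (.imp (.mem 0 X.succ.succ.succ) (Fml.fNear r.succ.succ.succ 2 1 0)))))))
  (.and (.all (.imp (Fml.fNat 0) (.all (.imp (.mem 0 X.succ.succ)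
    (Fml.fNear r.succ.succ 1 0 0)))))
  (.and (.all (.imp (Fml.fNat 0) (.all (.imp (.mem 0 X.succ.succ)
    (.all (.imp (.mem 0 X.succ.succ.succ) (.imp (Fml.fNear r.succ.succ.succ 2 1 0)
      (Fml.fNear r.succ.succ.succ 2 0 1))))))))
  (.and (.all (.imp (Fml.fNat 0) (.all (.imp (.mem 0 X.succ.succ)
    (.all (.imp (.mem 0 X.succ.succ.succ) (.all (.imp (.mem 0 X.succ.succ.succ.succ)
      (.imp (Fml.fNear r.succ.succ.succ.succ 3 2 1) (.imp (Fml.fNear r.succ.succ.succ.succ 3 1 0)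
        (Fml.fNear r.succ.succ.succ.succ 3 2 0)))))))))))
  (.and (.all (.imp (Fml.fNat 0) (.all (.imp (.mem 0 1) (.all (.imp (.mem 0 X.succ.succ.succ)
    (.all (.imp (.mem 0 X.succ.succ.succ.succ) (.imp (Fml.fNear r.succ.succ.succ.succ 3 1 0)
      (Fml.fNear r.succ.succ.succ.succ 2 1 0))))))))))
  (.all (.imp (.mem 0 X.succ) (.all (.imp (.mem 0 X.succ.succ)
    (.imp (.all (.imp (Fml.fNat 0) (Fml.fNear r.succ.succ.succ 0 2 1))) (.eq 1 0)))))))))) 

theorem rz_fUltra {M : Type} (E : M → M → Prop) {k : ℕ} (v : Fin k → M) (r X : Fin k) :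
    Fml.rz E (fUltra r X) v ↔ IsUltrametric E (v r) (v X) := by
  constructor
  · intro h
    simp only [fUltra, Fml.rz_and, Fml.rz_all, Fml.rz_imp, Fml.rz_not, Fml.rz_mem, Fml.rz_fNear,
      Fml.rz_fNat, Fml.rz_eq] at h
    obtain ⟨h1, h2, h3, h4, h5, h6⟩ := h
    exact ⟨h1, h2, h3, h4, h5, h6⟩
  · intro h
    simp only [fUltra, Fml.rz_and, Fml.rz_all, Fml.rz_imp, Fml.rz_not, Fml.rz_mem, Fml.rz_fNear,
      Fml.rz_fNat, Fml.rz_eq]
    exact ⟨h.zero, h.refl, h.symm, h.trans, h.anti, h.sep⟩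

/-- the sentence to be forced -/
def sent : Fml 0 :=
  .ex (.ex (.and (fUltra 0 1) (.and (.ex (.mem 0 2)) (.and (Fml.fCompact 0 1)
    (.and (.all (.imp (.mem 0 2) (.all (.imp (Fml.fNat 0) (.ex (.and (.mem 0 4)
      (.and (.not (.eq 0 2)) (Fml.fNear 3 1 2 0))))))))
    (.all (.imp (Fml.fSub 0 2) (.imp (.not (Fml.fFin 0))
      (.not (.and (Fml.fCompact 1 0) (Fml.fScat 1 0)))))))))))

theorem rz_sent {M : Type} (E : M → M → Prop) (v : Fin 0 → M) : Fml.rz E sent v ↔
    ∃ X r, IsUltrametric E r X ∧ (∃ x, E x X) ∧ Compact E r X ∧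
      (∀ x, E x X → ∀ n, IsNat E n → ∃ y, E y X ∧ y ≠ x ∧ Near E r n x y) ∧
      ∀ Y, Incl E Y X → ¬ IsFin E Y → ¬ (Compact E r Y ∧ Scattered E r Y) := by
  simp only [sent, Fml.rz_ex, Fml.rz_and, rz_fUltra, Fml.rz_mem, Fml.rz_fCompact, Fml.rz_all,
    Fml.rz_imp, Fml.rz_fNat, Fml.rz_not, Fml.rz_eq, Fml.rz_fNear, Fml.rz_fSub, Fml.rz_fFin,
    Fml.rz_fScat]
  rfl

theorem forced_ultra (p : Cond) : p ∈ fv (fUltra 0 1) ![rr, X] := by
  refine ⟨?_, ?_, ?_, ?_, ?_, ?_⟩
  · intro n q _ hn x q1 hq1 hx y q2 hq2 hy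
    change q2 ∈ rNear rr n x y
    change q ∈ RO.all fun m => RO.not (mem m n) at hn
    change q1 ∈ mem x X at hx
    change q2 ∈ mem y X at hy
    refine X_elim hy fun w q3 hq3 hw => ?_
    refine X_elim (RO.mono (hq3.trans hq2) hx) fun z q4 hq4 hz => ?_
    have h0 : q4 ∈ eq n (num 0) := by
      rw [eq_iff]
      intro u s hs
      exact ⟨fun h => (hn u s (hs.trans (hq4.trans (hq3.trans (hq2.trans hq1)))) h).elim,
        fun h => (not_mem_zero _ _ h).elim⟩
    rw [near_congr h0 hz (RO.mono hq4 hw), near_iff]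
    simp
  · intro n q _ hn x q1 hq1 hx
    change q1 ∈ rNear rr n x x
    change q1 ∈ mem x X at hx
    refine nat_elim (RO.mono hq1 hn) fun m q2 hq2 hm => ?_
    refine X_elim (RO.mono hq2 hx) fun z q3 hq3 hz => ?_
    rw [near_congr (RO.mono hq3 hm) hz hz, near_iff]
    simp
  · intro n q _ hn x q1 hq1 hx y q2 hq2 hy q3 hq3 h
    change q3 ∈ rNear rr n y x
    change q1 ∈ mem x X at hx
    change q2 ∈ mem y X at hy
    change q3 ∈ rNear rr n x y at h
    refine nat_elim (RO.mono (hq3.trans (hq2.trans hq1)) hn) fun m q4 hq4 hm => ?_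
    refine X_elim (RO.mono (hq4.trans (hq3.trans hq2)) hx) fun z q5 hq5 hz => ?_
    refine X_elim (RO.mono (hq5.trans (hq4.trans hq3)) hy) fun w q6 hq6 hw => ?_
    have hm' := RO.mono (hq6.trans hq5) hm
    have hz' := RO.mono hq6 hz
    rw [near_congr hm' hw hz', near_iff, dvd_sub_comm', ← near_iff (p := q6),
      ← near_congr hm' hz' hw]
    exact RO.mono (hq6.trans (hq5.trans hq4)) h
  · intro n q _ hn x q1 hq1 hx y q2 hq2 hy z q3 hq3 hz q4 hq4 h q5 hq5 h'
    change q5 ∈ rNear rr n x z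
    change q1 ∈ mem x X at hx
    change q2 ∈ mem y X at hy
    change q3 ∈ mem z X at hz
    change q4 ∈ rNear rr n x y at h
    change q5 ∈ rNear rr n y z at h'
    have l3 := hq5.trans hq4
    have l2 := l3.trans hq3
    have l1 := l2.trans hq2
    refine nat_elim (RO.mono (l1.trans hq1) hn) fun m q6 hq6 hm => ?_
    refine X_elim (RO.mono (hq6.trans l1) hx) fun a q7 hq7 ha => ?_
    refine X_elim (RO.mono ((hq7.trans hq6).trans l2) hy) fun b q8 hq8 hb => ?_
    refine X_elim (RO.mono ((hq8.trans (hq7.trans hq6)).trans l3) hz) fun d q9 hq9 hd => ?_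
    have hm' := RO.mono (hq9.trans (hq8.trans hq7)) hm
    have ha' := RO.mono (hq9.trans hq8) ha
    have hb' := RO.mono hq9 hb
    have e9 := hq9.trans (hq8.trans (hq7.trans hq6))
    have h1 := (near_congr hm' ha' hb').1 (RO.mono (e9.trans hq5) h)
    have h2 := (near_congr hm' hb' hd).1 (RO.mono e9 h')
    rw [near_congr hm' ha' hd, near_iff]
    rw [near_iff] at h1 h2
    have e : a - d = (a - b) + (b - d) := by ring
    rw [e]
    exact dvd_add h1 h2
  · intro n q _ hn m q1 hq1 hm x q2 hq2 hx y q3 hq3 hy q4 hq4 h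
    change q4 ∈ rNear rr m x y
    change q2 ∈ mem x X at hx
    change q3 ∈ mem y X at hy
    change q4 ∈ rNear rr n x y at h
    change q1 ∈ mem m n at hm
    refine nat_elim (RO.mono (hq4.trans (hq3.trans (hq2.trans hq1))) hn) fun k q5 hq5 hk => ?_
    have hm1 : q5 ∈ mem m (num k) :=
      mem_congr_right hk (RO.mono (hq5.trans (hq4.trans (hq3.trans hq2))) hm)
    refine RO.reg fun q5' hq5' => ?_
    obtain ⟨q6, hq6, j, hj, hmj⟩ := mem_mem_num.1 hm1 q5' hq5'
    refine ⟨q6, hq6, ?_⟩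
    have e6 := hq6.trans hq5'
    refine X_elim (RO.mono ((e6.trans hq5).trans (hq4.trans hq3)) hx) fun z q7 hq7 hz => ?_
    refine X_elim (RO.mono ((hq7.trans (e6.trans hq5)).trans hq4) hy) fun w q8 hq8 hw => ?_
    have e8 := hq8.trans hq7
    have h1 := (near_congr (RO.mono (e8.trans e6) hk) (RO.mono hq8 hz) hw).1
      (RO.mono (e8.trans (e6.trans hq5)) h)
    rw [near_congr (RO.mono e8 hmj) (RO.mono hq8 hz) hw, near_iff]
    rw [near_iff] at h1
    exact (pow_dvd_pow 2 hj.le).trans h1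
  · intro x q _ hx y q1 hq1 hy q2 hq2 h
    change q2 ∈ eq x y
    change q ∈ mem x X at hx
    change q1 ∈ mem y X at hy
    change q2 ∈ RO.all fun n => RO.imp (rNat n) (rNear rr n x y) at h
    refine X_elim (RO.mono (hq2.trans hq1) hx) fun z q3 hq3 hz => ?_
    refine X_elim (RO.mono (hq3.trans hq2) hy) fun w q4 hq4 hw => ?_
    have hz' := RO.mono hq4 hz
    have h1 : z = w := by
      by_contra hne
      obtain ⟨k, hk⟩ := exists_level {z} {w}
      refine hk z (by simp) w (by simp) hne ?_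
      have h2 := h (num k) q4 (hq4.trans hq3) (mem_rNat.2 (num_mem_omega k q4))
      rw [near_congr (eq_refl _ _) hz' hw, near_iff] at h2
      exact h2
    subst h1
    exact eq_trans hz' (eq_symm hw)

theorem forced_sent (p : Cond) : p ∈ fv sent (![] : Fin 0 → SyC) := by
  refine RO.ex_intro X (RO.ex_intro rr ⟨forced_ultra p, ?_, ?_, ?_, ?_⟩)
  · exact RO.ex_intro (c 0) (c_mem_X 0 p)
  · exact rCompact_X p
  · intro x q _ hx n q1 hq1 hn
    change q ∈ mem x X at hx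
    refine nat_elim hn fun k q2 hq2 hk => ?_
    refine X_elim (RO.mono (hq2.trans hq1) hx) fun z q3 hq3 hz => ?_
    refine RO.ex_intro (c (z + 2 ^ k)) ⟨c_mem_X _ _, ?_, ?_⟩
    · intro q4 hq4 h
      change q4 ∈ eq (c (z + 2 ^ k)) x at h
      have h1 : z + 2 ^ k = z := c_inj (eq_trans h (RO.mono hq4 hz))
      have h2 : (2 : ℤ) ^ k = 0 := by simp at h1
      exact absurd h2 (by positivity)
    · change q3 ∈ rNear rr n x (c (z + 2 ^ k))
      rw [near_congr (RO.mono hq3 hk) hz (eq_refl _ _), near_iff]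
      have e : z - (z + 2 ^ k) = - (2 : ℤ) ^ k := by ring
      rw [e, dvd_neg]
  · intro Y q _ hY q1 hq1 hinf q2 hq2 h
    exact no_scattered (RO.mono (hq2.trans hq1) hY) (RO.mono hq2 hinf) h.1 h.2

/-- The model. -/
theorem exists_model_no_scattered : ∃ (M : Type) (E : M → M → Prop), IsZF E ∧
    ∃ X r, IsUltrametric E r X ∧ (∃ x, E x X) ∧ Compact E r X ∧
      (∀ x, E x X → ∀ n, IsNat E n → ∃ y, E y X ∧ y ≠ x ∧ Near E r n x y) ∧
      ∀ Y, Incl E Y X → ¬ IsFin E Y → ¬ (Compact E r Y ∧ Scattered E r Y) := by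
  obtain ⟨M, E, h, F, hF, hM, hZF⟩ := exists_zf_model (P := Cond) (G := isoG) (D := ℤ) Cond.nil
  refine ⟨M, E, hZF, ?_⟩
  rw [← rz_sent E ![], hM]
  refine hF _ ?_
  rw [Subsingleton.elim (h ∘ ![]) ![]]
  exact forced_sent _

end Pool.Agent.Lib_helper83
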