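import Pool.Agent.Lib_helper83.Cohen

/-!
# The space of Cohen reals with the 2-adic metric
-/

namespace Pool.Agent.Lib_helper83

open RO Defs

/-! ### Deep versions of the topological notions -/

namespace Fml

variable {k : ℕ}

/-- `(n, (x, y)) ∈ r` -/
def fNear (r n x y : Fin k) : Fml k := ex (and (fOPair 0 x.succ y.succ) (fPM r.succ n.succ 0))

/-- `O` is open in `Y` -/
def fOpen (r O Y : Fin k) : Fml k :=
  and (fSub O Y) (all (imp (mem 0 O.succ) (ex (and (fNat 0) (all (imp (mem 0 Y.succ.succ.succ)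
    (imp (fNear r.succ.succ.succ 1 2 0) (mem 0 O.succ.succ.succ))))))))

/-- `Y` is compact -/
def fCompact (r Y : Fin k) : Fml k :=
  all (imp (all (imp (mem 0 1) (fOpen r.succ.succ 0 Y.succ.succ)))
    (imp (all (imp (mem 0 Y.succ.succ) (ex (and (mem 0 2) (mem 1 0)))))
      (ex (and (fSub 0 1) (and (fFin 0)
        (all (imp (mem 0 Y.succ.succ.succ) (ex (and (mem 0 2) (mem 1 0))))))))))

/-- `Y` is scattered -/
def fScat (r Y : Fin k) : Fml k :=
  all (imp (fSub 0 Y.succ) (imp (ex (mem 0 1)) (ex (and (mem 0 1) (ex (and (fNat 0)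
    (all (imp (mem 0 3) (imp (fNear r.succ.succ.succ.succ 1 2 0) (eq 0 2))))))))))

section rz

variable {M : Type} (E : M → M → Prop) (v : Fin k → M)

@[simp] theorem rz_fNear (r n x y : Fin k) :
    rz E (fNear r n x y) v ↔ Near E (v r) (v n) (v x) (v y) := by
  simp [fNear, Near]

@[simp] theorem rz_fOpen (r O Y : Fin k) :
    rz E (fOpen r O Y) v ↔ OpenIn E (v r) (v O) (v Y) := by
  simp [fOpen, OpenIn]

@[simp] theorem rz_fCompact (r Y : Fin k) : rz E (fCompact r Y) v ↔ Compact E (v r) (v Y) := by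
  simp [fCompact, Compact]

@[simp] theorem rz_fScat (r Y : Fin k) : rz E (fScat r Y) v ↔ Scattered E (v r) (v Y) := by
  simp [fScat, Scattered]

end rz

end Fml

namespace Sy

section

variable {P : Type} [Preorder P] {G : Type} [Group G] [MulAction G P] [ActsMono G P]
  {D : Type} [MulAction G D]

/-- truth value of `(n, (x, y)) ∈ r` -/
def rNear (r n x y : Sy P G D) : RO P := RO.ex fun t => RO.and (rOPair t x y) (rPM r n t)

/-- truth value of `O` being open in `Y` -/
def rOpen (r O Y : Sy P G D) : RO P :=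
  RO.and (rSub O Y) (RO.all fun x => RO.imp (mem x O) (RO.ex fun n => RO.and (rNat n)
    (RO.all fun y => RO.imp (mem y Y) (RO.imp (rNear r n x y) (mem y O)))))

/-- truth value of `Y` being compact -/
def rCompact (r Y : Sy P G D) : RO P :=
  RO.all fun C => RO.imp (RO.all fun U => RO.imp (mem U C) (rOpen r U Y))
    (RO.imp (RO.all fun x => RO.imp (mem x Y) (RO.ex fun U => RO.and (mem U C) (mem x U)))
      (RO.ex fun F => RO.and (rSub F C) (RO.and (rFin F)
        (RO.all fun x => RO.imp (mem x Y) (RO.ex fun U => RO.and (mem U F) (mem x U))))))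

/-- truth value of `Y` being scattered -/
def rScat (r Y : Sy P G D) : RO P :=
  RO.all fun Z => RO.imp (rSub Z Y) (RO.imp (RO.ex fun z => mem z Z)
    (RO.ex fun z => RO.and (mem z Z) (RO.ex fun n => RO.and (rNat n)
      (RO.all fun y => RO.imp (mem y Z) (RO.imp (rNear r n z y) (eq y z))))))

variable {k : ℕ} (v : Fin k → Sy P G D)

@[simp] theorem fv_fNear (r n x y : Fin k) :
    fv (Fml.fNear r n x y) v = rNear (v r) (v n) (v x) (v y) := rfl
@[simp] theorem fv_fOpen (r O Y : Fin k) :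
    fv (Fml.fOpen r O Y) v = rOpen (v r) (v O) (v Y) := rfl
@[simp] theorem fv_fCompact (r Y : Fin k) : fv (Fml.fCompact r Y) v = rCompact (v r) (v Y) := rfl
@[simp] theorem fv_fScat (r Y : Fin k) : fv (Fml.fScat r Y) v = rScat (v r) (v Y) := rfl

theorem mem_rNear {r n x y : Sy P G D} {p : P} :
    p ∈ rNear r n x y ↔ p ∈ mem (opair n (opair x y)) r := by
  constructor
  · intro h
    refine RO.ex_elim h fun t q hq ht => ?_
    obtain ⟨h1, h2⟩ := ht
    rw [mem_rOPair] at h1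
    rw [mem_rPM] at h2
    exact mem_congr_left (opair_congr (eq_refl _ _) h1) h2
  · intro h
    exact RO.ex_intro (opair x y) ⟨mem_rOPair.2 (eq_refl _ _), mem_rPM.2 h⟩

/-- Replacing the first argument of a formula by an equal one. -/
theorem fv_congr_head {n : ℕ} (φ : Fml (n + 1)) (v : Fin n → Sy P G D) {z w : Sy P G D} {p : P}
    (h : p ∈ eq z w) (h' : p ∈ fv φ (Matrix.vecCons z v)) : p ∈ fv φ (Matrix.vecCons w v) := by
  refine (Fml.ev_congr (SyV P G D) φ fun i => ?_).1 h'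
  refine Fin.cases ?_ (fun i => ?_) i
  · exact h
  · exact eq_refl _ _

theorem fv_congr {n : ℕ} (φ : Fml n) {v w : Fin n → Sy P G D} {p : P}
    (h : ∀ i, p ∈ eq (v i) (w i)) (h' : p ∈ fv φ v) : p ∈ fv φ w :=
  (Fml.ev_congr (SyV P G D) φ h).1 h'

end

end Sy

/-! ### The names -/

/-- symmetric names over the Cohen forcing -/
abbrev SyC : Type 1 := Sy Cond isoG ℤ

/-- generic reals -/
def cNm (z : ℤ) : Nm Cond := Nm.mk ℕ Nm.num (bit z)

theorem act_cNm (g : isoG) (z : ℤ) : Nm.act g (cNm z) = cNm (g • z) := by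
  rw [cNm, Nm.act_mk, cNm]
  congr 1
  funext n; exact Nm.act_num g n

/-- generic reals -/
def c (z : ℤ) : SyC :=
  ⟨cNm z, fun n => HS_num n, {z}, supports_of_act_eq fun g hg => by
    have h1 := act_cNm g z
    have h2 : g • z = z := hg z (by simp)
    rw [h2] at h1
    exact h1⟩

open Sy

@[simp] theorem act_c (g : isoG) (z : ℤ) : act g (c z) = c (g • z) := Subtype.ext (act_cNm g z)

theorem num_mem_c {z : ℤ} {m : ℕ} {p : Cond} : p ∈ mem (num m) (c z) ↔ p.f z m = some true := by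
  constructor
  · intro h
    change p ∈ bit z m
    refine RO.reg fun q hq => ?_
    obtain ⟨r, hr, i, hi, hi'⟩ := h q hq
    have : m = i := num_eq_num (P := Cond) (G := isoG) (D := ℤ) hi'
    subst this
    exact ⟨r, hr, hi⟩
  · intro h q hq
    exact ⟨q, le_rfl, m, RO.mono hq h, Nm.beq_refl _ _⟩

theorem c_inj {z w : ℤ} {p : Cond} (h : p ∈ eq (c z) (c w)) : z = w := by
  by_contra hne
  obtain ⟨m, hm⟩ : ∃ m : ℕ, p.f z m = none ∧ p.f w m = none := by
    have hfin : {m : ℕ | p.f z m ≠ none ∨ p.f w m ≠ none}.Finite := by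
      refine (p.fin.image Prod.snd).subset ?_
      rintro m (hm | hm)
      · exact ⟨(z, m), hm, rfl⟩
      · exact ⟨(w, m), hm, rfl⟩
    obtain ⟨m, hm⟩ := hfin.exists_notMem
    exact ⟨m, by simpa using hm⟩
  let q := (p.upd z m true).upd w m false
  have h1 : (p.upd z m true).f w m = none := by
    rw [Cond.upd_f, if_neg (by rintro ⟨h, -⟩; exact hne h.symm)]
    exact hm.2
  have hq : q ≤ p := (Cond.upd_le h1).trans (Cond.upd_le hm.1)
  have h2 : q ∈ mem (num m) (c z) := by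
    rw [num_mem_c]
    change (if z = w ∧ m = m then some false else (p.upd z m true).f z m) = _
    rw [if_neg (by rintro ⟨h, -⟩; exact hne h), Cond.upd_f, if_pos ⟨rfl, rfl⟩]
  have h3 := mem_congr_right (RO.mono hq h) h2
  rw [num_mem_c] at h3
  change (if w = w ∧ m = m then some false else (p.upd z m true).f w m) = _ at h3
  rw [if_pos ⟨rfl, rfl⟩] at h3
  exact absurd h3 (by simp)

theorem c_eq_iff {z w : ℤ} {p : Cond} : p ∈ eq (c z) (c w) ↔ z = w :=
  ⟨c_inj, fun h => h ▸ eq_refl _ _⟩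

/-- The name of the set of all members of a family of names closed under the group. -/
def ofFam {P : Type} [Preorder P] {G : Type} [Group G] [MulAction G P] [ActsMono G P]
    {D : Type} [MulAction G D] {ι : Type} (A : ι → Sy P G D)
    (h : ∀ (g : G) (i : ι), ∃ j, act g (A i) = A j) : Sy P G D :=
  Sy.mk' A (fun _ => RO.top) ⟨∅, fun g _ z p hz q hq => by
    obtain ⟨r, hr, i, -, hi⟩ := hz (g⁻¹ • q) (by rw [← RO.smul_le_iff g]; simpa using hq)
    obtain ⟨j, hj⟩ := h g i
    refine ⟨g • r, by rw [← RO.smul_le_iff g⁻¹]; simpa using hr, j, trivial, ?_⟩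
    have h1 : r ∈ eq z (A i) := hi
    have h2 := (smul_mem_eq g).2 h1
    rw [hj] at h2
    exact h2⟩

theorem mem_ofFam {P : Type} [Preorder P] {G : Type} [Group G] [MulAction G P] [ActsMono G P]
    {D : Type} [MulAction G D] {ι : Type} {A : ι → Sy P G D} {h} {z : Sy P G D} {p : P} :
    p ∈ mem z (ofFam A h) ↔ ∀ q ≤ p, ∃ r ≤ q, ∃ i, r ∈ eq z (A i) := by
  constructor
  · intro h q hq
    obtain ⟨r, hr, i, -, hi⟩ := h q hq
    exact ⟨r, hr, i, hi⟩
  · intro h q hq
    obtain ⟨r, hr, i, hi⟩ := h q hq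
    exact ⟨r, hr, i, trivial, hi⟩

theorem self_mem_ofFam {P : Type} [Preorder P] {G : Type} [Group G] [MulAction G P] [ActsMono G P]
    {D : Type} [MulAction G D] {ι : Type} {A : ι → Sy P G D} {h} (i : ι) (p : P) :
    p ∈ mem (A i) (ofFam A h) := mem_ofFam.2 fun q _ => ⟨q, le_rfl, i, eq_refl _ _⟩

/-- names of families closed under the group have empty support -/
theorem supports_ofFam {P : Type} [Preorder P] {G : Type} [Group G] [MulAction G P] [ActsMono G P]
    {D : Type} [MulAction G D] {ι : Type} {A : ι → Sy P G D} {h} :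
    Supports G (∅ : Finset D) (ofFam A h).1 := by
  refine supports_of_forall (G := G) (D := D) (fun i => (A i).2) fun g _ z p hz => ?_
  change p ∈ mem z (ofFam A h) at hz
  change g • p ∈ mem (act g z) (ofFam A h)
  rw [mem_ofFam] at hz ⊢
  rw [RO.forall_le_iff g]
  intro q hq
  rw [RO.exists_le_iff g]
  obtain ⟨r, hr, i, hi⟩ := hz q hq
  obtain ⟨j, hj⟩ := h g i
  exact ⟨r, hr, j, by rw [← hj]; exact (smul_mem_eq g).2 hi⟩

/-- the space -/
def X : SyC := ofFam c fun g z => ⟨g • z, act_c g z⟩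

/-- index type for the metric -/
def RI : Type := {t : ℕ × ℤ × ℤ // (2 : ℤ) ^ t.1 ∣ t.2.1 - t.2.2}

/-- the metric -/
def rr : SyC := ofFam (fun t : RI => opair (num t.1.1) (opair (c t.1.2.1) (c t.1.2.2)))
  fun g t => ⟨⟨(t.1.1, g • t.1.2.1, g • t.1.2.2), (isoG_dvd g _ _ _).1 t.2⟩, by
    rw [act_opair, act_opair, act_num, act_c, act_c]⟩

theorem mem_X {u : SyC} {p : Cond} : p ∈ mem u X ↔ ∀ q ≤ p, ∃ r ≤ q, ∃ z, r ∈ eq u (c z) :=
  mem_ofFam

theorem c_mem_X (z : ℤ) (p : Cond) : p ∈ mem (c z) X := self_mem_ofFam (A := c) z p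

theorem near_iff {n : ℕ} {z w : ℤ} {p : Cond} :
    p ∈ rNear rr (num n) (c z) (c w) ↔ (2 : ℤ) ^ n ∣ z - w := by
  rw [mem_rNear]
  constructor
  · intro h
    obtain ⟨r, _, ⟨⟨m, a, b⟩, ht⟩, hi⟩ := mem_ofFam.1 h p le_rfl
    rw [opair_inj, opair_inj] at hi
    obtain ⟨h1, h2, h3⟩ := hi
    have e1 := num_eq_num h1
    have e2 := c_inj h2
    have e3 := c_inj h3
    simp only at e1 e2 e3
    subst e1 e2 e3
    exact ht
  · intro h
    exact self_mem_ofFam (A := fun t : RI => opair (num t.1.1) (opair (c t.1.2.1) (c t.1.2.2)))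
      ⟨(n, z, w), h⟩ p

/-- To force a truth value about an element of `X` it suffices to treat the generic reals. -/
theorem X_elim {u : SyC} {p : Cond} {a : RO Cond} (hu : p ∈ mem u X)
    (h : ∀ z, ∀ q ≤ p, q ∈ eq u (c z) → q ∈ a) : p ∈ a :=
  RO.reg fun q hq => by
    obtain ⟨r, hr, z, hz⟩ := mem_X.1 hu q hq
    exact ⟨r, hr, h z r (hr.trans hq) hz⟩

theorem nat_elim {u : SyC} {p : Cond} {a : RO Cond} (hu : p ∈ rNat u)
    (h : ∀ n, ∀ q ≤ p, q ∈ eq u (num n) → q ∈ a) : p ∈ a :=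
  RO.reg fun q hq => by
    rw [mem_rNat, mem_mem_omega] at hu
    obtain ⟨r, hr, n, hn⟩ := hu q hq
    exact ⟨r, hr, h n r (hr.trans hq) hn⟩

theorem near_congr {n n' x x' y y' : SyC} {p : Cond} (hn : p ∈ eq n n') (hx : p ∈ eq x x')
    (hy : p ∈ eq y y') : p ∈ rNear rr n x y ↔ p ∈ rNear rr n' x' y' := by
  rw [mem_rNear, mem_rNear]
  exact mem_congr (opair_congr hn (opair_congr hx hy)) (eq_refl _ _)

/-- **Homogeneity of the forcing.** -/
theorem homog {k : ℕ} (φ : Fml (k + 1)) (v : Fin k → SyC) {e : Finset ℤ}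
    (he : ∀ i, Supports isoG e (v i).1) {x y : ℤ} {l : ℕ} (n : ℕ)
    (hx : ∀ z ∈ e, ¬ (2 : ℤ) ^ l ∣ z - x) (hy : (2 : ℤ) ^ l ∣ y - x) {p q : Cond} (hqp : q ≤ p)
    (h : p ∈ fv φ (Matrix.vecCons (c x) v)) :
    ∃ r ≤ q, ∃ y', (2 : ℤ) ^ n ∣ y' - y ∧ r ∈ fv φ (Matrix.vecCons (c y') v) := by
  obtain ⟨g, hg, hgx, r, hrq, hrp⟩ := exists_amalg e x y l n hx hy hqp
  refine ⟨r, hrq, g • x, hgx, ?_⟩
  have h1 := fv_invariant he hg h
  rw [act_c] at h1
  exact RO.mono hrp h1

end Pool.Agent.Lib_helper83
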