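import Pool.Agent.Lib_helper83.HS
import Pool.Agent.Lib_helper83.Generic

/-!
# The `RO P`-valued structure of hereditarily symmetric names: formulas, pairs, numerals
-/

namespace Pool.Agent.Lib_helper83

open RO

variable {P : Type} [Preorder P] {G : Type} [Group G] [MulAction G P] [ActsMono G P]
  {D : Type} [MulAction G D]

variable (P G D) in
/-- The `RO P`-valued structure of hereditarily symmetric names. -/
def SyV : Fml.VStr P (Sy P G D) where
  mem := Sy.mem
  eq := Sy.eq
  refl := Sy.eq_refl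
  symm := Sy.eq_symm
  trans := Sy.eq_trans
  congr := fun h h' h'' => (Sy.mem_congr h h').1 h''

/-- The truth value of a formula on hereditarily symmetric names. -/
abbrev fv {n : ℕ} (φ : Fml n) (v : Fin n → Sy P G D) : RO P := Fml.ev (SyV P G D) φ v

namespace Sy

theorem act_surj (g : G) : Function.Surjective (act g : Sy P G D → Sy P G D) :=
  fun x => ⟨act g⁻¹ x, act_act_inv g x⟩

theorem act_comp_vecCons (g : G) {n : ℕ} (x : Sy P G D) (v : Fin n → Sy P G D) :
    act g ∘ Matrix.vecCons x v = Matrix.vecCons (act g x) (act g ∘ v) := by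
  funext i
  refine Fin.cases ?_ (fun i => ?_) i <;> rfl

/-- Equivariance of the truth values of formulas. -/
theorem act_fv (g : G) {n : ℕ} (φ : Fml n) (v : Fin n → Sy P G D) :
    RO.act g (fv φ v) = fv φ (act g ∘ v) := by
  induction φ with
  | mem i j => exact act_mem g _ _
  | eq i j => exact act_eq g _ _
  | bot => exact RO.act_bot g
  | imp φ ψ ih1 ih2 => simp only [fv, Fml.ev_imp, RO.act_imp] at *; rw [ih1, ih2]
  | and φ ψ ih1 ih2 => simp only [fv, Fml.ev_and, RO.act_and] at *; rw [ih1, ih2]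
  | or φ ψ ih1 ih2 => simp only [fv, Fml.ev_or, RO.act_or] at *; rw [ih1, ih2]
  | not φ ih => simp only [fv, Fml.ev_not, RO.act_not] at *; rw [ih]
  | all φ ih =>
    simp only [fv, Fml.ev_all, RO.act_all] at *
    ext p
    simp only [RO.mem_all, ih, act_comp_vecCons]
    exact ((act_surj (P := P) (D := D) g).forall
      (p := fun x => p ∈ Fml.ev (SyV P G D) φ (Matrix.vecCons x (act g ∘ v)))).symm
  | ex φ ih =>
    simp only [fv, Fml.ev_ex, RO.act_ex] at *
    ext p
    simp only [RO.mem_ex, ih, act_comp_vecCons]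
    refine forall₂_congr fun q hq => exists_congr fun r => and_congr_right fun hr => ?_
    exact ((act_surj (P := P) (D := D) g).exists
      (p := fun x => r ∈ Fml.ev (SyV P G D) φ (Matrix.vecCons x (act g ∘ v)))).symm

theorem smul_mem_fv (g : G) {n : ℕ} {φ : Fml n} {v : Fin n → Sy P G D} {p : P} :
    g • p ∈ fv φ (act g ∘ v) ↔ p ∈ fv φ v := by
  rw [← act_fv, RO.smul_mem_act]

open Classical in
theorem exists_supp_fin {n : ℕ} (v : Fin n → Sy P G D) :
    ∃ e : Finset D, ∀ i, Supports G e (v i).1 := by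
  choose e he using fun i => (v i).exists_supp
  exact ⟨Finset.univ.biUnion e, fun i =>
    (he i).mono (Finset.subset_biUnion_of_mem e (Finset.mem_univ i))⟩

/-- A formula with parameters supported by `e` is invariant under group elements fixing `e`. -/
theorem fv_invariant {n : ℕ} {φ : Fml (n + 1)} {v : Fin n → Sy P G D} {e : Finset D}
    (he : ∀ i, Supports G e (v i).1) {g : G} (hg : Fixes e g) {z : Sy P G D} {p : P}
    (h : p ∈ fv φ (Matrix.vecCons z v)) : g • p ∈ fv φ (Matrix.vecCons (act g z) v) := by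
  have h1 := (smul_mem_fv g).2 h
  rw [act_comp_vecCons] at h1
  refine (Fml.ev_congr (SyV P G D) φ fun i => ?_).1 h1
  refine Fin.cases ?_ (fun i => ?_) i
  · exact eq_refl _ _
  · exact supp_eq (he i) hg _

/-- **Separation** for formulas. -/
theorem exists_sep_fml {n : ℕ} (φ : Fml (n + 1)) (v : Fin n → Sy P G D) (x : Sy P G D) :
    ∃ y : Sy P G D, ∀ z p, p ∈ mem z y ↔ p ∈ mem z x ∧ p ∈ fv φ (Matrix.vecCons z v) := by
  obtain ⟨e, he⟩ := exists_supp_fin v
  refine exists_sep x (fun z => fv φ (Matrix.vecCons z v)) (fun z w p h h' => ?_)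
    ⟨e, fun g hg z p h => fv_invariant he hg h⟩
  refine (Fml.ev_congr (SyV P G D) φ fun i => ?_).1 h'
  refine Fin.cases ?_ (fun i => ?_) i
  · exact h
  · exact eq_refl _ _

/-- **Collection** for formulas. -/
theorem exists_coll_fml {n : ℕ} (φ : Fml (n + 2)) (v : Fin n → Sy P G D) (x : Sy P G D) :
    ∃ y : Sy P G D, ∀ z p, p ∈ mem z x →
      (∀ q ≤ p, ∃ r ≤ q, ∃ w, r ∈ fv φ (Matrix.vecCons w (Matrix.vecCons z v))) →
      ∀ q ≤ p, ∃ r ≤ q, ∃ w, r ∈ mem w y ∧ r ∈ fv φ (Matrix.vecCons w (Matrix.vecCons z v)) := by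
  refine exists_coll x (fun z w => fv φ (Matrix.vecCons w (Matrix.vecCons z v)))
    fun z z' w p h h' => ?_
  refine (Fml.ev_congr (SyV P G D) φ fun i => ?_).1 h'
  refine Fin.cases ?_ (fun i => ?_) i
  · exact eq_refl _ _
  · refine Fin.cases ?_ (fun i => ?_) i
    · exact h
    · exact eq_refl _ _

end Sy

/-! ### Unordered and ordered pairs -/

namespace Nm

/-- unordered pair -/
def pair (x y : Nm P) : Nm P := mk Bool (fun b => cond b x y) fun _ => RO.top

theorem act_pair (g : G) (x y : Nm P) : act g (pair x y) = pair (act g x) (act g y) := by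
  rw [pair, act_mk, pair]
  congr 1
  funext b; cases b <;> rfl

theorem mem_bmem_pair {x y z : Nm P} {p : P} : p ∈ bmem z (pair x y) ↔
    ∀ q ≤ p, ∃ r ≤ q, r ∈ beq z x ∨ r ∈ beq z y := by
  constructor
  · intro h q hq
    obtain ⟨r, hr, i, -, hi'⟩ := h q hq
    cases i
    · exact ⟨r, hr, Or.inr hi'⟩
    · exact ⟨r, hr, Or.inl hi'⟩
  · intro h q hq
    obtain ⟨r, hr, hi⟩ := h q hq
    rcases hi with hi | hi
    · exact ⟨r, hr, true, trivial, hi⟩
    · exact ⟨r, hr, false, trivial, hi⟩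

/-- the empty name -/
def empty : Nm P := mk Empty (fun i => i.elim) fun i => i.elim

/-- successor `x ∪ {x}` -/
def succ : Nm P → Nm P
  | mk ι A a => mk (Option ι) (fun o => o.elim (mk ι A a) A) (fun o => o.elim RO.top a)

theorem act_empty (g : G) : act g (empty : Nm P) = empty := by
  rw [empty, act_mk]
  congr 1
  · funext i; exact i.elim
  · funext i; exact i.elim

theorem act_succ (g : G) (x : Nm P) : act g (succ x) = succ (act g x) := by
  cases x with
  | mk ι A a =>
    rw [succ, act_mk, act_mk, succ]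
    congr 1
    · funext i
      cases i
      · simp [act_mk]
      · rfl
    · funext i
      cases i
      · simp
      · rfl

theorem mem_bmem_succ {x z : Nm P} {p : P} : p ∈ bmem z (succ x) ↔
    ∀ q ≤ p, ∃ r ≤ q, r ∈ bmem z x ∨ r ∈ beq z x := by
  cases x with
  | mk ι A a =>
    constructor
    · intro h q hq
      obtain ⟨r, hr, i, hi, hi'⟩ := h q hq
      cases i with
      | none => exact ⟨r, hr, Or.inr hi'⟩
      | some i =>
        exact ⟨r, hr, Or.inl fun s hs => ⟨s, le_rfl, i, RO.mono hs hi, RO.mono hs hi'⟩⟩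
    · intro h q hq
      obtain ⟨r, hr, hi⟩ := h q hq
      rcases hi with hi | hi
      · obtain ⟨s, hs, i, hi, hi'⟩ := hi r le_rfl
        exact ⟨s, hs.trans hr, some i, hi, hi'⟩
      · exact ⟨r, hr, none, trivial, hi⟩

/-- numerals -/
def num : ℕ → Nm P
  | 0 => empty
  | n + 1 => succ (num n)

theorem act_num (g : G) (n : ℕ) : act g (num n : Nm P) = num n := by
  induction n with
  | zero => exact act_empty g
  | succ n ih => rw [num, act_succ, ih]

/-- the name of the set of natural numbers -/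
def omega : Nm P := mk ℕ num fun _ => RO.top

theorem act_omega (g : G) : act g (omega : Nm P) = omega := by
  rw [omega, act_mk]
  congr 1
  funext n; exact act_num g n

end Nm

theorem supports_of_act_eq {x : Nm P} {e : Finset D} (h : ∀ g : G, Fixes e g → Nm.act g x = x) :
    Supports G e x := fun g hg p => by rw [h g hg]; exact Nm.beq_refl _ _

theorem HS_pair {x y : Nm P} (hx : HS G D x) (hy : HS G D y) : HS G D (Nm.pair x y) := by
  classical
  obtain ⟨e, he⟩ := hx.supports
  obtain ⟨e', he'⟩ := hy.supports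
  have hel : ∀ b : Bool, HS G D (cond b x y) := fun b => by cases b <;> assumption
  refine ⟨hel, e ∪ e', supports_of_forall hel fun g hg z p h => ?_⟩
  change p ∈ Nm.bmem z.1 (Nm.pair x y) at h
  change g • p ∈ Nm.bmem (z.act g).1 (Nm.pair x y)
  rw [Nm.mem_bmem_pair] at h ⊢
  rw [RO.forall_le_iff g]
  intro q hq
  rw [RO.exists_le_iff g]
  obtain ⟨r, hr, hi⟩ := h q hq
  refine ⟨r, hr, ?_⟩
  rcases hi with hi | hi
  · left
    have h1 : g • r ∈ Nm.beq (Nm.act g z.1) (Nm.act g x) := by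
      rw [← Nm.act_beq, RO.smul_mem_act]; exact hi
    exact Nm.beq_trans h1 (he g (hg.mono Finset.subset_union_left) _)
  · right
    have h1 : g • r ∈ Nm.beq (Nm.act g z.1) (Nm.act g y) := by
      rw [← Nm.act_beq, RO.smul_mem_act]; exact hi
    exact Nm.beq_trans h1 (he' g (hg.mono Finset.subset_union_right) _)

theorem HS_empty : HS G D (Nm.empty : Nm P) :=
  ⟨fun i => i.elim, ∅, supports_of_act_eq fun g _ => Nm.act_empty g⟩

theorem HS_succ {x : Nm P} (hx : HS G D x) : HS G D (Nm.succ x) := by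
  cases x with
  | mk ι A a =>
    obtain ⟨e, he⟩ := hx.supports
    have hel : ∀ o : Option ι, HS G D (o.elim (Nm.mk ι A a) A) := by
      rintro (_ | i)
      · exact hx
      · exact hx.1 i
    refine ⟨hel, e, supports_of_forall hel fun g hg z p h => ?_⟩
    change p ∈ Nm.bmem z.1 (Nm.succ (Nm.mk ι A a)) at h
    change g • p ∈ Nm.bmem (z.act g).1 (Nm.succ (Nm.mk ι A a))
    rw [Nm.mem_bmem_succ] at h ⊢
    rw [RO.forall_le_iff g]
    intro q hq
    rw [RO.exists_le_iff g]
    obtain ⟨r, hr, hi⟩ := h q hq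
    refine ⟨r, hr, ?_⟩
    rcases hi with hi | hi
    · left
      exact Sy.smul_mem_of_supp (x := ⟨Nm.mk ι A a, hx⟩) he hg hi
    · right
      have h1 : g • r ∈ Nm.beq (Nm.act g z.1) (Nm.act g (Nm.mk ι A a)) := by
        rw [← Nm.act_beq, RO.smul_mem_act]; exact hi
      exact Nm.beq_trans h1 (he g hg _)

theorem HS_num (n : ℕ) : HS G D (Nm.num n : Nm P) := by
  induction n with
  | zero => exact HS_empty
  | succ n ih => exact HS_succ ih

theorem HS_omega : HS G D (Nm.omega : Nm P) :=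
  ⟨fun n => HS_num n, ∅, supports_of_act_eq fun g _ => Nm.act_omega g⟩

namespace Sy

/-- unordered pair -/
def pair (x y : Sy P G D) : Sy P G D := ⟨Nm.pair x.1 y.1, HS_pair x.2 y.2⟩

/-- ordered pair -/
def opair (x y : Sy P G D) : Sy P G D := pair (pair x x) (pair x y)

/-- numerals -/
def num (n : ℕ) : Sy P G D := ⟨Nm.num n, HS_num n⟩

/-- the set of natural numbers -/
def omega : Sy P G D := ⟨Nm.omega, HS_omega⟩

theorem act_pair (g : G) (x y : Sy P G D) : act g (pair x y) = pair (act g x) (act g y) :=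
  Subtype.ext (Nm.act_pair g _ _)

theorem act_opair (g : G) (x y : Sy P G D) : act g (opair x y) = opair (act g x) (act g y) := by
  rw [opair, act_pair, act_pair, act_pair, opair]

@[simp] theorem act_num (g : G) (n : ℕ) : act g (num n : Sy P G D) = num n :=
  Subtype.ext (Nm.act_num g n)

@[simp] theorem act_omega (g : G) : act g (omega : Sy P G D) = omega :=
  Subtype.ext (Nm.act_omega g)

theorem mem_mem_pair {x y z : Sy P G D} {p : P} : p ∈ mem z (pair x y) ↔
    ∀ q ≤ p, ∃ r ≤ q, r ∈ eq z x ∨ r ∈ eq z y := Nm.mem_bmem_pair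

theorem mem_mem_single {x z : Sy P G D} {p : P} : p ∈ mem z (pair x x) ↔ p ∈ eq z x := by
  rw [mem_mem_pair]
  simp only [or_self]
  exact ⟨fun h => RO.reg h, fun h q hq => ⟨q, le_rfl, RO.mono hq h⟩⟩

theorem left_mem_pair (x y : Sy P G D) (p : P) : p ∈ mem x (pair x y) :=
  mem_mem_pair.2 fun q _ => ⟨q, le_rfl, Or.inl (eq_refl _ _)⟩

theorem right_mem_pair (x y : Sy P G D) (p : P) : p ∈ mem y (pair x y) :=
  mem_mem_pair.2 fun q _ => ⟨q, le_rfl, Or.inr (eq_refl _ _)⟩

theorem pair_congr {x y x' y' : Sy P G D} {p : P} (h : p ∈ eq x x') (h' : p ∈ eq y y') :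
    p ∈ eq (pair x y) (pair x' y') := by
  rw [eq_iff]
  intro z q hq
  rw [mem_mem_pair, mem_mem_pair]
  refine forall₂_congr fun r hr => exists_congr fun s => and_congr_right fun hs => ?_
  have h1 := RO.mono (hs.trans (hr.trans hq)) h
  have h2 := RO.mono (hs.trans (hr.trans hq)) h'
  exact or_congr ⟨fun h => eq_trans h h1, fun h => eq_trans h (eq_symm h1)⟩
    ⟨fun h => eq_trans h h2, fun h => eq_trans h (eq_symm h2)⟩

theorem single_eq_pair {a x y : Sy P G D} {p : P} (h : p ∈ eq (pair a a) (pair x y)) :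
    p ∈ eq a x ∧ p ∈ eq a y := by
  have h1 := mem_mem_single.1 (mem_congr_right (eq_symm h) (left_mem_pair x y p))
  have h2 := mem_mem_single.1 (mem_congr_right (eq_symm h) (right_mem_pair x y p))
  exact ⟨eq_symm h1, eq_symm h2⟩

theorem pair_cancel {a b b' : Sy P G D} {p : P} (h : p ∈ eq (pair a b) (pair a b')) :
    p ∈ eq b b' := by
  refine RO.reg fun q hq => ?_
  obtain ⟨r, hr, hr' | hr'⟩ := mem_mem_pair.1 (mem_congr_right h (right_mem_pair a b p)) q hq
  · obtain ⟨s, hs, hs' | hs'⟩ := mem_mem_pair.1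
      (mem_congr_right (eq_symm h) (right_mem_pair a b' p)) r (hr.trans hq)
    · exact ⟨s, hs.trans hr, eq_trans (RO.mono hs hr') (eq_symm hs')⟩
    · exact ⟨s, hs.trans hr, eq_symm hs'⟩
  · exact ⟨r, hr, hr'⟩

theorem opair_congr {x y x' y' : Sy P G D} {p : P} (h : p ∈ eq x x') (h' : p ∈ eq y y') :
    p ∈ eq (opair x y) (opair x' y') :=
  pair_congr (pair_congr h h) (pair_congr h h')

theorem opair_inj {x y x' y' : Sy P G D} {p : P} :
    p ∈ eq (opair x y) (opair x' y') ↔ p ∈ eq x x' ∧ p ∈ eq y y' := by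
  constructor
  · intro h
    have h1 : p ∈ eq x x' := by
      refine RO.reg fun q hq => ?_
      obtain ⟨r, hr, hr' | hr'⟩ := mem_mem_pair.1
        (mem_congr_right h (left_mem_pair (pair x x) (pair x y) p)) q hq
      · exact ⟨r, hr, (single_eq_pair hr').1⟩
      · exact ⟨r, hr, (single_eq_pair hr').1⟩
    refine ⟨h1, ?_⟩
    have h2 : p ∈ eq (opair x y) (opair x y') :=
      eq_trans h (opair_congr (eq_symm h1) (eq_refl _ _))
    exact pair_cancel (pair_cancel h2)
  · rintro ⟨h, h'⟩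
    exact opair_congr h h'

/-! numerals -/

theorem not_mem_zero (z : Sy P G D) (p : P) : p ∉ mem z (num 0) := by
  intro h
  obtain ⟨_, _, i, _⟩ := h p le_rfl
  exact i.elim

theorem mem_mem_succ {z : Sy P G D} {n : ℕ} {p : P} : p ∈ mem z (num (n + 1)) ↔
    ∀ q ≤ p, ∃ r ≤ q, r ∈ mem z (num n) ∨ r ∈ eq z (num n) := Nm.mem_bmem_succ

theorem mem_mem_num {z : Sy P G D} {n : ℕ} {p : P} : p ∈ mem z (num n) ↔
    ∀ q ≤ p, ∃ r ≤ q, ∃ k < n, r ∈ eq z (num k) := by
  induction n generalizing p with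
  | zero =>
    constructor
    · intro h
      exact (not_mem_zero _ _ h).elim
    · intro h
      obtain ⟨r, _, k, hk, _⟩ := h p le_rfl
      omega
  | succ n ih =>
    rw [mem_mem_succ]
    constructor
    · intro h q hq
      obtain ⟨r, hr, hr' | hr'⟩ := h q hq
      · obtain ⟨s, hs, k, hk, hk'⟩ := ih.1 hr' r le_rfl
        exact ⟨s, hs.trans hr, k, by omega, hk'⟩
      · exact ⟨r, hr, n, by omega, hr'⟩
    · intro h q hq
      obtain ⟨r, hr, k, hk, hk'⟩ := h q hq
      rcases Nat.lt_succ_iff_lt_or_eq.1 hk with hk | rfl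
      · exact ⟨r, hr, Or.inl (ih.2 fun s hs => ⟨s, le_rfl, k, hk, RO.mono hs hk'⟩)⟩
      · exact ⟨r, hr, Or.inr hk'⟩

theorem num_mem_num {m n : ℕ} (h : m < n) (p : P) : p ∈ mem (num m) (num n : Sy P G D) :=
  mem_mem_num.2 fun q _ => ⟨q, le_rfl, m, h, eq_refl _ _⟩

/-- no set is an element of itself -/
theorem not_mem_self (x : Sy P G D) (p : P) : p ∉ mem x x := by
  have key : ∀ (y : Nm P) (hy : HS G D y) (p : P), p ∉ mem (⟨y, hy⟩ : Sy P G D) ⟨y, hy⟩ := by
    intro y
    induction y with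
    | mk ι A a ih =>
      intro hy p h
      obtain ⟨r, _, i, hi, hi'⟩ := h p le_rfl
      -- `y = A i` and so `A i ∈ A i`
      have h1 : r ∈ mem (⟨A i, hy.1 i⟩ : Sy P G D) ⟨A i, hy.1 i⟩ :=
        mem_congr_right (z := ⟨A i, hy.1 i⟩) hi' (Nm.bmem_el hi)
      exact ih i (hy.1 i) r h1
  exact key x.1 x.2 p

theorem num_eq_num {m n : ℕ} {p : P} (h : p ∈ eq (num m) (num n : Sy P G D)) : m = n := by
  rcases lt_trichotomy m n with h' | h' | h'
  · exact (not_mem_self _ _ (mem_congr_right (eq_symm h) (num_mem_num h' p))).elim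
  · exact h'
  · exact (not_mem_self _ _ (mem_congr_right h (num_mem_num h' p))).elim

theorem mem_num_num {m n : ℕ} {p : P} : p ∈ mem (num m) (num n : Sy P G D) ↔ m < n := by
  refine ⟨fun h => ?_, fun h => num_mem_num h p⟩
  obtain ⟨r, _, k, hk, hk'⟩ := mem_mem_num.1 h p le_rfl
  rw [num_eq_num hk']
  exact hk

theorem mem_mem_omega {z : Sy P G D} {p : P} : p ∈ mem z omega ↔
    ∀ q ≤ p, ∃ r ≤ q, ∃ n, r ∈ eq z (num n) := by
  constructor
  · intro h q hq
    obtain ⟨r, hr, n, _, hn⟩ := h q hq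
    exact ⟨r, hr, n, hn⟩
  · intro h q hq
    obtain ⟨r, hr, n, hn⟩ := h q hq
    exact ⟨r, hr, n, trivial, hn⟩

theorem num_mem_omega (n : ℕ) (p : P) : p ∈ mem (num n) (omega : Sy P G D) :=
  mem_mem_omega.2 fun q _ => ⟨q, le_rfl, n, eq_refl _ _⟩

end Sy

end Pool.Agent.Lib_helper83
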