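import Pool.Agent.Lib_helper83.Space
import Pool.Agent.Lib_helper83.FinSets

/-!
# The topology of the space of Cohen reals in the symmetric extension
-/

namespace Pool.Agent.Lib_helper83

open RO Defs Sy

theorem dvd_sub_comm' {n : ℕ} {a b : ℤ} : (2 : ℤ) ^ n ∣ a - b ↔ (2 : ℤ) ^ n ∣ b - a := by
  rw [← dvd_neg]; ring_nf

/-! ### Balls -/

theorem near_imp {m m' : ℕ} {y y' : ℤ} (h : ∀ w : ℤ, (2 : ℤ) ^ m' ∣ y' - w → (2 : ℤ) ^ m ∣ y - w)
    {w : SyC} {p : Cond} (hw : p ∈ mem w X) (hn : p ∈ rNear rr (num m') (c y') w) :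
    p ∈ rNear rr (num m) (c y) w := by
  refine X_elim hw fun z q hq hz => ?_
  rw [near_congr (eq_refl _ _) (eq_refl _ _) hz, near_iff]
  refine h z ?_
  have := (near_congr (eq_refl _ _) (eq_refl _ _) hz).1 (RO.mono hq hn)
  rwa [near_iff] at this

/-- the ball of radius `2⁻ⁿ` around `u` is contained in a member of `C` -/
def Leb (C n u : SyC) : RO Cond := RO.ex fun U => RO.and (mem U C)
  (RO.all fun w => RO.imp (mem w X) (RO.imp (rNear rr n u w) (mem w U)))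

theorem leb_eq (C n u : SyC) : Leb C n u =
    fv (Fml.ex (Fml.and (Fml.mem 0 2) (Fml.all (Fml.imp (Fml.mem 0 4)
      (Fml.imp (Fml.fNear 5 6 2 0) (Fml.mem 0 1)))))) ![u, C, X, rr, n] := rfl

theorem leb_imp {C : SyC} {m m' : ℕ} {y y' : ℤ}
    (h : ∀ w : ℤ, (2 : ℤ) ^ m' ∣ y' - w → (2 : ℤ) ^ m ∣ y - w) {p : Cond}
    (hp : p ∈ Leb C (num m) (c y)) : p ∈ Leb C (num m') (c y') := by
  refine RO.ex_elim hp fun U q _ hU => RO.ex_intro U ⟨hU.1, fun w r hr hw s hs hn => ?_⟩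
  exact hU.2 w r hr hw s hs (near_imp h (RO.mono hs hw) hn)

theorem leb_mono {C : SyC} {m m' : ℕ} (h : m ≤ m') {y : ℤ} {p : Cond}
    (hp : p ∈ Leb C (num m) (c y)) : p ∈ Leb C (num m') (c y) :=
  leb_imp (fun _ hw => (pow_dvd_pow 2 h).trans hw) hp

theorem leb_ball {C : SyC} {m : ℕ} {y y' : ℤ} (h : (2 : ℤ) ^ m ∣ y' - y) {p : Cond}
    (hp : p ∈ Leb C (num m) (c y)) : p ∈ Leb C (num m) (c y') :=
  leb_imp (fun w hw => by
    have e : y - w = (y' - w) - (y' - y) := by ring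
    rw [e]
    exact dvd_sub hw h) hp

theorem supports_empty_any {x : SyC} (h : Supports isoG (∅ : Finset ℤ) x.1) (e : Finset ℤ) :
    Supports isoG e x.1 := h.mono (Finset.empty_subset e)

theorem supports_num (n : ℕ) (e : Finset ℤ) : Supports isoG e (num n : SyC).1 :=
  supports_of_act_eq fun g _ => Nm.act_num g n

theorem supports_c (z : ℤ) {e : Finset ℤ} (h : z ∈ e) : Supports isoG e (c z).1 :=
  supports_of_act_eq fun g hg => by
    have h1 := act_cNm g z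
    have h2 : g • z = z := hg z h
    rw [h2] at h1
    exact h1

theorem supports_X (e : Finset ℤ) : Supports isoG e X.1 :=
  supports_empty_any supports_ofFam e

theorem supports_rr (e : Finset ℤ) : Supports isoG e rr.1 :=
  supports_empty_any supports_ofFam e

section compact

variable {C : SyC} {p : Cond}

/-- local Lebesgue numbers -/
theorem exists_leb (hO : ∀ U, ∀ q ≤ p, q ∈ mem U C → q ∈ rOpen rr U X)
    (hC : ∀ x, ∀ q ≤ p, q ∈ mem x X → q ∈ RO.ex fun U => RO.and (mem U C) (mem x U))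
    (z : ℤ) {q : Cond} (hq : q ≤ p) : ∃ r ≤ q, ∃ m, r ∈ Leb C (num m) (c z) := by
  obtain ⟨r, hr, U, hU, hzU⟩ := hC (c z) q hq (c_mem_X z q) q le_rfl
  have h1 := hO U r (hr.trans hq) hU
  obtain ⟨s, hs, n, hn, hn'⟩ := h1.2 (c z) r le_rfl hzU r le_rfl
  rw [mem_rNat, mem_mem_omega] at hn
  obtain ⟨t, ht, k, hk⟩ := hn s le_rfl
  refine ⟨t, ht.trans (hs.trans hr), k, RO.ex_intro U ⟨RO.mono (ht.trans hs) hU, ?_⟩⟩
  intro w u hu hw u' hu' hnear
  refine RO.mono ht hn' w u hu hw u' hu' ?_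
  exact (near_congr (RO.mono (hu'.trans hu) hk) (eq_refl _ _) (eq_refl _ _)).2 hnear

theorem exists_leb_finset (hO : ∀ U, ∀ q ≤ p, q ∈ mem U C → q ∈ rOpen rr U X)
    (hC : ∀ x, ∀ q ≤ p, q ∈ mem x X → q ∈ RO.ex fun U => RO.and (mem U C) (mem x U))
    (A : Finset ℤ) {q : Cond} (hq : q ≤ p) :
    ∃ r ≤ q, ∃ m, ∀ z ∈ A, r ∈ Leb C (num m) (c z) := by
  classical
  induction A using Finset.induction_on with
  | empty => exact ⟨q, le_rfl, 0, fun z hz => by simp at hz⟩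
  | insert a A _ ih =>
    obtain ⟨r, hr, m, hm⟩ := ih
    obtain ⟨s, hs, m', hm'⟩ := exists_leb hO hC a (hr.trans hq)
    refine ⟨s, hs.trans hr, max m m', fun z hz => ?_⟩
    rcases Finset.mem_insert.1 hz with rfl | hz
    · exact leb_mono (le_max_right _ _) hm'
    · exact leb_mono (le_max_left _ _) (RO.mono hs (hm z hz))

/-- a uniform Lebesgue number -/
theorem exists_leb_uniform (hO : ∀ U, ∀ q ≤ p, q ∈ mem U C → q ∈ rOpen rr U X)
    (hC : ∀ x, ∀ q ≤ p, q ∈ mem x X → q ∈ RO.ex fun U => RO.and (mem U C) (mem x U))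
    {q : Cond} (hq : q ≤ p) : ∃ r ≤ q, ∃ m, ∀ y : ℤ, r ∈ Leb C (num m) (c y) := by
  classical
  obtain ⟨e, he⟩ := C.exists_supp
  obtain ⟨q1, hq1, m0, hm0⟩ := exists_leb_finset hO hC e hq
  obtain ⟨q2, hq2, m2, hm2⟩ := exists_leb_finset hO hC
    ((Finset.range (2 ^ m0)).image (fun k : ℕ => (k : ℤ))) (hq1.trans hq)
  refine ⟨q2, hq2.trans hq1, max m0 m2, fun y => ?_⟩
  -- the representative of `y`
  obtain ⟨j, hj, hjy⟩ : ∃ j ∈ (Finset.range (2 ^ m0)).image (fun k : ℕ => (k : ℤ)),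
      (2 : ℤ) ^ m0 ∣ y - j := by
    have hpos : (0 : ℤ) < 2 ^ m0 := by positivity
    refine ⟨y % 2 ^ m0, ?_, Int.dvd_self_sub_emod⟩
    refine Finset.mem_image.2 ⟨(y % 2 ^ m0).toNat, ?_, ?_⟩
    · rw [Finset.mem_range]
      have h1 := Int.emod_lt_of_pos y hpos
      have h2 := Int.emod_nonneg y hpos.ne'
      have h3 : ((y % 2 ^ m0).toNat : ℤ) < ((2 ^ m0 : ℕ) : ℤ) := by
        rw [Int.toNat_of_nonneg h2]
        exact_mod_cast h1
      exact_mod_cast h3
    · exact Int.toNat_of_nonneg (Int.emod_nonneg y hpos.ne')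
  by_cases hcase : ∃ z ∈ e, (2 : ℤ) ^ m0 ∣ z - j
  · obtain ⟨z, hz, hzj⟩ := hcase
    refine leb_mono (le_max_left _ _) (leb_ball (y := z) ?_ (RO.mono hq2 (hm0 z hz)))
    have e1 : y - z = (y - j) - (z - j) := by ring
    rw [e1]
    exact dvd_sub hjy hzj
  · push Not at hcase
    refine RO.reg fun q' hq' => ?_
    have h1 : q2 ∈ Leb C (num (max m0 m2)) (c j) := leb_mono (le_max_right _ _) (hm2 j hj)
    rw [leb_eq] at h1
    obtain ⟨r, hr, y', hy', hr'⟩ := homog (v := ![C, X, rr, num (max m0 m2)]) (e := e) _ (by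
      intro i
      fin_cases i
      · exact he
      · exact supports_X e
      · exact supports_rr e
      · exact supports_num _ e) (max m0 m2) hcase hjy hq' h1
    refine ⟨r, hr, leb_ball (y := y') ?_ ?_⟩
    · rwa [dvd_sub_comm']
    · rw [leb_eq]; exact hr'

/-- picking members of the cover -/
theorem exists_list {m : ℕ} {q : Cond} (h : ∀ y : ℤ, q ∈ Leb C (num m) (c y)) (l : List ℤ) :
    ∃ r ≤ q, ∃ L : List SyC, (∀ U ∈ L, r ∈ mem U C) ∧
      ∀ y ∈ l, ∃ U ∈ L, ∀ w, ∀ s ≤ r, s ∈ mem w X → s ∈ rNear rr (num m) (c y) w → s ∈ mem w U := by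
  induction l with
  | nil => exact ⟨q, le_rfl, [], by simp, by simp⟩
  | cons a l ih =>
    obtain ⟨r, hr, L, hL, hL'⟩ := ih
    obtain ⟨s, hs, U, hU, hU'⟩ := h a r hr
    refine ⟨s, hs.trans hr, U :: L, fun V hV => ?_, fun y hy => ?_⟩
    · rcases List.mem_cons.1 hV with rfl | hV
      · exact hU
      · exact RO.mono hs (hL V hV)
    · rcases List.mem_cons.1 hy with rfl | hy
      · exact ⟨U, List.mem_cons_self, fun w t ht hw hn => hU' w t ht hw t le_rfl hn⟩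
      · obtain ⟨V, hV, hV'⟩ := hL' y hy
        exact ⟨V, List.mem_cons_of_mem _ hV, fun w t ht => hV' w t (ht.trans hs)⟩

end compact

/-- **`X` is compact.** -/
theorem rCompact_X (p : Cond) : p ∈ rCompact rr X := by
  intro C p1 _ hO p2 hp2 hC
  have hO' : ∀ U, ∀ q ≤ p2, q ∈ mem U C → q ∈ rOpen rr U X := fun U q hq hU =>
    hO U q (hq.trans hp2) hU
  refine fun q hq => ?_
  obtain ⟨r, hr, m, hm⟩ := exists_leb_uniform hO' hC hq
  obtain ⟨s, hs, L, hL, hL'⟩ := exists_list hm ((List.range (2 ^ m)).map (fun k : ℕ => (k : ℤ)))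
  obtain ⟨F, hF, hF'⟩ := exists_fset L
  refine ⟨s, hs.trans hr, F, ?_, hF' s, ?_⟩
  · intro z t ht hz
    refine RO.reg fun t' ht' => ?_
    obtain ⟨u, hu, a, ha, hza⟩ := (hF z t).1 hz t' ht'
    exact ⟨u, hu, mem_congr_left (eq_symm hza) (RO.mono (hu.trans (ht'.trans ht)) (hL a ha))⟩
  · intro x t ht hx
    refine X_elim hx fun z t' ht' hxz => ?_
    obtain ⟨j, hj, hjz⟩ : ∃ j ∈ (List.range (2 ^ m)).map (fun k : ℕ => (k : ℤ)),
        (2 : ℤ) ^ m ∣ z - j := by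
      have hpos : (0 : ℤ) < 2 ^ m := by positivity
      refine ⟨z % 2 ^ m, ?_, Int.dvd_self_sub_emod⟩
      refine List.mem_map.2 ⟨(z % 2 ^ m).toNat, ?_, ?_⟩
      · rw [List.mem_range]
        have h1 := Int.emod_lt_of_pos z hpos
        have h2 := Int.emod_nonneg z hpos.ne'
        have h3 : ((z % 2 ^ m).toNat : ℤ) < ((2 ^ m : ℕ) : ℤ) := by
          rw [Int.toNat_of_nonneg h2]
          exact_mod_cast h1
        exact_mod_cast h3
      · exact Int.toNat_of_nonneg (Int.emod_nonneg z hpos.ne')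
    obtain ⟨U, hU, hU'⟩ := hL' j hj
    refine RO.ex_intro U ⟨?_, ?_⟩
    · exact (hF U t').2 fun u _ => ⟨u, le_rfl, U, hU, eq_refl _ _⟩
    · refine hU' x t' (ht'.trans ht) (RO.mono ht' hx) ?_
      rw [near_congr (eq_refl _ _) (eq_refl _ _) hxz, near_iff, dvd_sub_comm']
      exact hjz

/-! ### Finite sets are lists of names -/

theorem exists_list_of_rFin {F : SyC} {p : Cond} (hF : p ∈ rFin F) :
    ∃ q ≤ p, ∃ L : List SyC, (∀ a ∈ L, q ∈ mem a F) ∧
      ∀ z, ∀ r ≤ q, r ∈ mem z F → ∃ s ≤ r, ∃ a ∈ L, s ∈ eq z a := by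
  obtain ⟨q0, hq0, n, hn⟩ := hF p le_rfl
  obtain ⟨q1, hq1, f, hn', hf1, hf2, hf3⟩ := hn q0 le_rfl
  rw [mem_rNat, mem_mem_omega] at hn'
  obtain ⟨q2, hq2, k, hk⟩ := hn' q1 le_rfl
  -- pairs in `f` have components in `n` and `F`
  have hdom : ∀ a b, ∀ r ≤ q2, r ∈ rPM f a b → r ∈ mem a n ∧ r ∈ mem b F := by
    intro a b r hr hab
    rw [mem_rPM] at hab
    have h1 := hf1 (opair a b) r (hr.trans hq2) hab
    constructor
    · refine RO.ex_elim h1 fun a' s hs h2 => RO.ex_elim h2 fun b' t ht h3 => ?_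
      have h4 := mem_rOPair.1 h3.2.2
      rw [opair_inj] at h4
      exact mem_congr_left (eq_symm h4.1) h3.1
    · refine RO.ex_elim h1 fun a' s hs h2 => RO.ex_elim h2 fun b' t ht h3 => ?_
      have h4 := mem_rOPair.1 h3.2.2
      rw [opair_inj] at h4
      exact mem_congr_left (eq_symm h4.2) h3.2.1
  have key : ∀ j ≤ k, ∃ q ≤ q2, ∃ L : List SyC, (∀ a ∈ L, q ∈ mem a F) ∧
      ∀ i < j, ∀ O, ∀ s ≤ q, s ∈ rPM f (num i) O → ∃ a ∈ L, s ∈ eq O a := by
    intro j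
    induction j with
    | zero => exact fun _ => ⟨q2, le_rfl, [], by simp, fun i hi => by omega⟩
    | succ j ih =>
      intro hj
      obtain ⟨q, hq, L, hL, hL'⟩ := ih (by omega)
      have h1 : q ∈ mem (num j) n :=
        mem_congr_right (eq_symm (RO.mono hq hk)) (num_mem_num (by omega) q)
      obtain ⟨r, hr, b, hb, hb'⟩ := hf2 (num j) q (hq.trans hq2) h1 q le_rfl
      refine ⟨r, hr.trans hq, b :: L, fun a ha => ?_, fun i hi O s hs hO => ?_⟩
      · rcases List.mem_cons.1 ha with rfl | ha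
        · exact (hdom _ _ r (hr.trans hq) hb).2
        · exact RO.mono hr (hL a ha)
      · rcases Nat.lt_succ_iff_lt_or_eq.1 hi with hi | rfl
        · obtain ⟨a, ha, ha'⟩ := hL' i hi O s (hs.trans hr) hO
          exact ⟨a, List.mem_cons_of_mem _ ha, ha'⟩
        · exact ⟨b, List.mem_cons_self, hb' O s hs hO⟩
  obtain ⟨q, hq, L, hL, hL'⟩ := key k le_rfl
  refine ⟨q, hq.trans (hq2.trans (hq1.trans hq0)), L, hL, fun z r hr hz => ?_⟩
  obtain ⟨s, hs, a, ha, _⟩ := hf3 z r (hr.trans (hq.trans hq2)) hz r le_rfl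
  have h1 := (hdom _ _ s (hs.trans (hr.trans hq)) ha).1
  have h2 := mem_congr_right (RO.mono (hs.trans (hr.trans hq)) hk) h1
  obtain ⟨t, ht, i, hi, hi'⟩ := mem_mem_num.1 h2 s le_rfl
  have h3 : t ∈ rPM f (num i) z := by
    rw [mem_rPM] at ha ⊢
    exact mem_congr_left (opair_congr hi' (eq_refl _ _)) (RO.mono ht ha)
  obtain ⟨b, hb, hb'⟩ := hL' i hi z t (ht.trans (hs.trans hr)) h3
  exact ⟨t, ht.trans hs, b, hb, hb'⟩

/-! ### Compact subspaces are closed -/

theorem closed_of_compact {Y : SyC} {p : Cond} (hYX : p ∈ rSub Y X) (hY : p ∈ rCompact rr Y)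
    {y : ℤ} (hd : ∀ q ≤ p, ∀ n : ℕ, ∃ r ≤ q, ∃ y' : ℤ, (2 : ℤ) ^ n ∣ y' - y ∧ r ∈ mem (c y') Y) :
    p ∈ mem (c y) Y := by
  by_contra hcon
  obtain ⟨q, hq, hq'⟩ := RO.exists_not hcon
  obtain ⟨W, hW⟩ := exists_power Y
  -- the family of complements of balls around `y`
  obtain ⟨C, hC⟩ := exists_sep_fml (Fml.ex (Fml.and (Fml.fNat 0) (Fml.all (Fml.iff (Fml.mem 0 2)
    (Fml.and (Fml.mem 0 3) (Fml.not (Fml.fNear 4 1 5 0))))))) ![Y, rr, c y] W
  have hC' : ∀ O s, s ∈ mem O C ↔ s ∈ mem O W ∧ s ∈ RO.ex fun n => RO.and (rNat n)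
      (RO.all fun u => RO.iff (mem u O) (RO.and (mem u Y) (RO.not (rNear rr n (c y) u)))) :=
    fun O s => hC O s
  -- members of `C` are locally described by a numeral
  have hloc : ∀ O s, s ∈ mem O C → ∃ t ≤ s, ∃ k : ℕ, ∀ u, ∀ t' ≤ t, t' ∈ mem u O ↔
      t' ∈ mem u Y ∧ t' ∈ RO.not (rNear rr (num k) (c y) u) := by
    intro O s hs
    obtain ⟨t, ht, n, hn, hn'⟩ := ((hC' O s).1 hs).2 s le_rfl
    rw [mem_rNat, mem_mem_omega] at hn
    obtain ⟨t1, ht1, k, hk⟩ := hn t le_rfl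
    refine ⟨t1, ht1.trans ht, k, fun u t' ht' => ?_⟩
    rw [RO.mem_iff.1 (hn' u) t' (ht'.trans ht1), RO.mem_and]
    refine and_congr_right fun _ => ?_
    rw [RO.mem_not, RO.mem_not]
    refine forall₂_congr fun t2 ht2 => not_congr ?_
    exact near_congr (RO.mono (ht2.trans ht') hk) (eq_refl _ _) (eq_refl _ _)
  have hopen : ∀ U, ∀ q' ≤ q, q' ∈ mem U C → q' ∈ rOpen rr U Y := by
    intro U q' hq'' hU
    constructor
    · exact (hW U q').1 ((hC' U q').1 hU).1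
    · intro x s hs hx
      -- it is enough to work locally
      refine RO.reg fun s1 hs1 => ?_
      obtain ⟨t, ht, k, hk⟩ := hloc U s1 (RO.mono (hs1.trans hs) hU)
      have h1 := (hk x t le_rfl).1 (RO.mono (ht.trans hs1) hx)
      have h2 : t ∈ mem x X := hYX x t (ht.trans (hs1.trans (hs.trans (hq''.trans hq)))) h1.1
      obtain ⟨t1, ht1, z, hz⟩ := mem_X.1 h2 t le_rfl
      have h3 : ¬ (2 : ℤ) ^ k ∣ y - z := by
        intro h
        refine h1.2 t1 ht1 ?_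
        rw [near_congr (eq_refl _ _) (eq_refl _ _) hz, near_iff]
        exact h
      refine ⟨t1, ht1.trans ht, RO.ex_intro (num k) ⟨mem_rNat.2 (num_mem_omega k t1), ?_⟩⟩
      intro v u hu hv u' hu' hn
      rw [hk v u' (hu'.trans (hu.trans ht1))]
      refine ⟨RO.mono hu' hv, fun u1 hu1 hn' => ?_⟩
      have h4 : u1 ∈ mem v X := hYX v u1 (hu1.trans (hu'.trans (hu.trans (ht1.trans (ht.trans
        (hs1.trans (hs.trans (hq''.trans hq)))))))) (RO.mono (hu1.trans hu') hv)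
      obtain ⟨u2, hu2, w, hw⟩ := mem_X.1 h4 u1 le_rfl
      have hz' : u2 ∈ eq x (c z) := RO.mono (hu2.trans (hu1.trans (hu'.trans hu))) hz
      have h5 := (near_congr (eq_refl _ _) hz' hw).1 (RO.mono (hu2.trans hu1) hn)
      have h6 := (near_congr (eq_refl _ _) (eq_refl _ _) hw).1 (RO.mono hu2 hn')
      rw [near_iff] at h5 h6
      apply h3
      have e1 : y - z = (y - w) - (z - w) := by ring
      rw [e1]
      exact dvd_sub h6 h5
  have hcover : ∀ x, ∀ q' ≤ q, q' ∈ mem x Y → q' ∈ RO.ex fun U => RO.and (mem U C) (mem x U) := by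
    intro x q' hq'' hx
    refine X_elim (hYX x q' (hq''.trans hq) hx) fun z s hs hz => ?_
    have hne : y ≠ z := by
      rintro rfl
      exact hq' s (hs.trans hq'') (mem_congr_left hz (RO.mono hs hx))
    obtain ⟨k, hk⟩ := exists_level {y} {z}
    have hk' := hk y (by simp) z (by simp) hne
    obtain ⟨O, hO⟩ := exists_sep_fml (Fml.not (Fml.fNear 1 2 3 0)) ![rr, num k, c y] Y
    have hO' : ∀ u t, t ∈ mem u O ↔ t ∈ mem u Y ∧ t ∈ RO.not (rNear rr (num k) (c y) u) :=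
      fun u t => hO u t
    refine RO.ex_intro O ⟨(hC' O s).2 ⟨(hW O s).2 fun w t _ hw => ((hO' w t).1 hw).1,
      RO.ex_intro (num k) ⟨mem_rNat.2 (num_mem_omega k s), fun u => ?_⟩⟩, ?_⟩
    · beta_reduce
      rw [RO.mem_iff]
      intro t _
      exact hO' u t
    · rw [hO']
      refine ⟨RO.mono hs hx, fun t ht hn => hk' ?_⟩
      have := (near_congr (eq_refl _ _) (eq_refl _ _) (RO.mono ht hz)).1 hn
      rwa [near_iff] at this
  obtain ⟨q1, hq1, F, hFC, hFfin, hFcov⟩ := hY C q hq hopen q le_rfl hcover q le_rfl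
  obtain ⟨q2, hq2, L, hL, hL'⟩ := exists_list_of_rFin hFfin
  -- a common radius
  have key : ∀ l : List SyC, (∀ a ∈ l, q2 ∈ mem a F) → ∃ s ≤ q2, ∃ N : ℕ, ∀ a ∈ l, ∀ u, ∀ t ≤ s,
      t ∈ mem u X → t ∈ mem u a → t ∉ rNear rr (num N) (c y) u := by
    intro l
    induction l with
    | nil => exact fun _ => ⟨q2, le_rfl, 0, by simp⟩
    | cons a l ih =>
      intro hl
      obtain ⟨s, hs, N, hN⟩ := ih fun b hb => hl b (List.mem_cons_of_mem _ hb)
      have h1 : s ∈ mem a C := hFC a s (hs.trans hq2) (RO.mono hs (hl a List.mem_cons_self))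
      obtain ⟨t, ht, k, hk⟩ := hloc a s h1
      refine ⟨t, ht.trans hs, max N k, fun b hb u t' ht' huX hu hn => ?_⟩
      rcases List.mem_cons.1 hb with rfl | hb
      · refine ((hk u t' ht').1 hu).2 t' le_rfl (near_imp (fun w hw => ?_) huX hn)
        exact (pow_dvd_pow 2 (le_max_right _ _)).trans hw
      · refine hN b hb u t' (ht'.trans ht) huX hu (near_imp (fun w hw => ?_) huX hn)
        exact (pow_dvd_pow 2 (le_max_left _ _)).trans hw
  obtain ⟨q3, hq3, N, hN⟩ := key L hL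
  obtain ⟨r, hr, y', hy', hrY⟩ := hd q3 (hq3.trans (hq2.trans (hq1.trans hq))) N
  obtain ⟨r1, hr1, O, hOF, hOy⟩ := hFcov (c y') r (hr.trans (hq3.trans hq2)) hrY r le_rfl
  obtain ⟨r2, hr2, a, ha, hOa⟩ := hL' O r1 (hr1.trans (hr.trans hq3)) hOF
  refine hN a ha (c y') r2 (hr2.trans (hr1.trans hr)) (c_mem_X _ _)
    (mem_congr_right hOa (RO.mono hr2 hOy)) ?_
  rw [near_iff, dvd_sub_comm']
  exact hy'

/-! ### Infinite compact subspaces are not scattered -/

theorem exists_decide (Y : SyC) (p : Cond) (l : List ℤ) : ∃ q ≤ p, ∃ l' : List ℤ,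
    (∀ z ∈ l', q ∈ mem (c z) Y) ∧ ∀ z ∈ l, z ∉ l' → q ∈ RO.not (mem (c z) Y) := by
  induction l with
  | nil => exact ⟨p, le_rfl, [], by simp, by simp⟩
  | cons a l ih =>
    obtain ⟨q, hq, l', h1, h2⟩ := ih
    obtain ⟨r, hr, hr' | hr'⟩ := RO.em (a := mem (c a) Y) (p := q)
    · refine ⟨r, hr.trans hq, a :: l', fun z hz => ?_, fun z hz hz' => ?_⟩
      · rcases List.mem_cons.1 hz with rfl | hz
        · exact hr'
        · exact RO.mono hr (h1 z hz)
      · rw [List.mem_cons, not_or] at hz'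
        rcases List.mem_cons.1 hz with rfl | hz
        · exact (hz'.1 rfl).elim
        · exact RO.mono hr (h2 z hz hz'.2)
    · refine ⟨r, hr.trans hq, l', fun z hz => RO.mono hr (h1 z hz), fun z hz hz' => ?_⟩
      rcases List.mem_cons.1 hz with rfl | hz
      · exact hr'
      · exact RO.mono hr (h2 z hz hz')

theorem no_scattered {Y : SyC} {p : Cond} (hYX : p ∈ rSub Y X) (hinf : p ∈ RO.not (rFin Y))
    (hcomp : p ∈ rCompact rr Y) (hscat : p ∈ rScat rr Y) : False := by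
  classical
  obtain ⟨e, he⟩ := Y.exists_supp
  -- a point of `Y` outside the support
  obtain ⟨q, hq, x, hxe, hxY⟩ : ∃ q ≤ p, ∃ x ∉ e, q ∈ mem (c x) Y := by
    by_contra hcon
    push Not at hcon
    obtain ⟨q, hq, l', h1, h2⟩ := exists_decide Y p e.toList
    obtain ⟨F, hF, hF'⟩ := exists_fset (P := Cond) (G := isoG) (D := ℤ) (l'.map c)
    have hYF : q ∈ eq F Y := by
      rw [eq_iff]
      intro u r hr
      constructor
      · intro hu
        refine RO.reg fun s hs => ?_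
        obtain ⟨t, ht, a, ha, hua⟩ := (hF u r).1 hu s hs
        obtain ⟨z, hz, rfl⟩ := List.mem_map.1 ha
        exact ⟨t, ht, mem_congr_left (eq_symm hua)
          (RO.mono (ht.trans (hs.trans hr)) (h1 z hz))⟩
      · intro hu
        refine (hF u r).2 fun s hs => ?_
        obtain ⟨t, ht, z, hz⟩ := mem_X.1 (hYX u r (hr.trans hq) hu) s hs
        have h3 : t ∈ mem (c z) Y := mem_congr_left hz (RO.mono (ht.trans hs) hu)
        have hze : z ∈ e := by
          by_contra hze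
          exact hcon t (ht.trans (hs.trans (hr.trans hq))) z hze h3
        have hzl : z ∈ l' := by
          by_contra hzl
          exact h2 z (Finset.mem_toList.2 hze) hzl t (ht.trans (hs.trans hr)) h3
        exact ⟨t, ht, c z, List.mem_map_of_mem hzl, hz⟩
    exact hinf q hq (fv_congr_head (Fml.fFin 0) ![] hYF (hF' q))
  obtain ⟨l, hl⟩ := exists_level e {x}
  have hl' : ∀ z ∈ e, ¬ (2 : ℤ) ^ l ∣ z - x := fun z hz =>
    hl z hz x (by simp) (by rintro rfl; exact hxe hz)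
  -- `Y` contains the ball around `x`
  have hball : ∀ y : ℤ, (2 : ℤ) ^ l ∣ y - x → q ∈ mem (c y) Y := by
    intro y hy
    refine closed_of_compact (RO.mono hq hYX) (RO.mono hq hcomp) fun r hr n => ?_
    exact homog (Fml.mem 0 1) ![Y] (e := e) (by
      intro i; fin_cases i; exact he) n hl' hy hr hxY
  obtain ⟨Z, hZ⟩ := exists_sep_fml (Fml.fNear 1 2 3 0) ![rr, num l, c x] X
  have hZ' : ∀ u t, t ∈ mem u Z ↔ t ∈ mem u X ∧ t ∈ rNear rr (num l) (c x) u := fun u t => hZ u t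
  have hcZ : ∀ z t, (2 : ℤ) ^ l ∣ x - z → t ∈ mem (c z) Z := by
    intro z t h
    rw [hZ', near_iff]
    exact ⟨c_mem_X _ _, h⟩
  have h1 : q ∈ rSub Z Y := by
    intro u r hr hu
    rw [hZ'] at hu
    refine X_elim hu.1 fun z s hs hz => ?_
    have h2 := (near_congr (eq_refl _ _) (eq_refl _ _) hz).1 (RO.mono hs hu.2)
    rw [near_iff, dvd_sub_comm'] at h2
    exact mem_congr_left (eq_symm hz) (RO.mono (hs.trans hr) (hball z h2))
  have h2 : q ∈ RO.ex fun z => mem z Z := RO.ex_intro (c x) (hcZ x q (by simp))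
  obtain ⟨q1, hq1, z, hz, hz'⟩ := hscat Z q hq h1 q le_rfl h2 q le_rfl
  obtain ⟨q2, hq2, n, hn, hn'⟩ := hz' q1 le_rfl
  rw [mem_rNat, mem_mem_omega] at hn
  obtain ⟨q3, hq3, k, hk⟩ := hn q2 le_rfl
  obtain ⟨hzX, hzx⟩ := (hZ' z q3).1 (RO.mono (hq3.trans hq2) hz)
  obtain ⟨q4, hq4, z', hz''⟩ := mem_X.1 hzX q3 le_rfl
  have h3 : (2 : ℤ) ^ l ∣ x - z' := by
    have := (near_congr (eq_refl _ _) (eq_refl _ _) hz'').1 (RO.mono hq4 hzx)
    rwa [near_iff] at this
  let w : ℤ := z' + 2 ^ (max k l)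
  have hw1 : (2 : ℤ) ^ l ∣ x - w := by
    have e1 : x - w = (x - z') - 2 ^ (max k l) := by simp only [w]; ring
    rw [e1]
    exact dvd_sub h3 (pow_dvd_pow 2 (le_max_right _ _))
  have hw2 : (2 : ℤ) ^ k ∣ z' - w := by
    have e1 : z' - w = - 2 ^ (max k l) := by simp only [w]; ring
    rw [e1, dvd_neg]
    exact pow_dvd_pow 2 (le_max_left _ _)
  have h4 : q4 ∈ rNear rr n z (c w) := by
    rw [near_congr (RO.mono hq4 hk) hz'' (eq_refl _ _), near_iff]
    exact hw2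
  have h5 : q4 ∈ eq (c w) z :=
    hn' (c w) q4 (hq4.trans hq3) (hcZ w q4 hw1) q4 le_rfl h4
  have h6 : w = z' := c_inj (eq_trans h5 hz'')
  have h7 : (2 : ℤ) ^ (max k l) = 0 := by simp only [w] at h6; omega
  exact absurd h7 (by positivity)

end Pool.Agent.Lib_helper83
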