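import Pool.Agent.Lib_helper83.SyBasic
import Pool.Agent.Lib_helper83.Defs

/-!
# Symmetric extensions give models of ZF
-/

namespace Pool.Agent.Lib_helper83

open RO Defs FirstOrder

/-! ### Deep versions of the basic notions -/

namespace Fml

variable {n : ℕ}

/-- `x ⊆ y` -/
def fSub (x y : Fin n) : Fml n := all (imp (mem 0 x.succ) (mem 0 y.succ))

/-- `p = {a, b}` -/
def fUPair (p a b : Fin n) : Fml n := all (iff (mem 0 p.succ) (or (eq 0 a.succ) (eq 0 b.succ)))

/-- `p = (a, b)` -/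
def fOPair (p a b : Fin n) : Fml n :=
  ex (ex (and (fUPair 1 a.succ.succ a.succ.succ) (and (fUPair 0 a.succ.succ b.succ.succ)
    (fUPair p.succ.succ 1 0))))

/-- `(a, b) ∈ f` -/
def fPM (f a b : Fin n) : Fml n := ex (and (fOPair 0 a.succ b.succ) (mem 0 f.succ))

/-- `w` is inductive -/
def fInd (w : Fin n) : Fml n :=
  and (all (imp (all (not (mem 0 1))) (mem 0 w.succ)))
    (all (all (imp (mem 1 w.succ.succ)
      (imp (all (iff (mem 0 1) (or (mem 0 2) (eq 0 2)))) (mem 0 w.succ.succ)))))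

/-- `x` is a natural number -/
def fNat (x : Fin n) : Fml n := all (imp (fInd 0) (mem x.succ 0))

/-- `f` is a bijection from `A` to `B` -/
def fBij (f A B : Fin n) : Fml n :=
  and (all (imp (mem 0 f.succ) (ex (ex (and (mem 1 A.succ.succ.succ)
      (and (mem 0 B.succ.succ.succ) (fOPair 2 1 0)))))))
    (and (all (imp (mem 0 A.succ) (ex (and (fPM f.succ.succ 1 0)
      (all (imp (fPM f.succ.succ.succ 2 0) (eq 0 1)))))))
    (all (imp (mem 0 B.succ) (ex (and (fPM f.succ.succ 0 1)
      (all (imp (fPM f.succ.succ.succ 0 2) (eq 0 1))))))))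

/-- `F` is finite -/
def fFin (F : Fin n) : Fml n := ex (ex (and (fNat 1) (fBij 0 1 F.succ.succ)))

section rz

variable {M : Type} (E : M → M → Prop) (v : Fin n → M)

@[simp] theorem rz_fSub (x y : Fin n) : rz E (fSub x y) v ↔ Incl E (v x) (v y) := by
  simp [fSub, Incl]

@[simp] theorem rz_fUPair (p a b : Fin n) :
    rz E (fUPair p a b) v ↔ UPair E (v p) (v a) (v b) := by
  simp [fUPair, UPair]

@[simp] theorem rz_fOPair (p a b : Fin n) :
    rz E (fOPair p a b) v ↔ OPair E (v p) (v a) (v b) := by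
  simp [fOPair, OPair]

@[simp] theorem rz_fPM (f a b : Fin n) :
    rz E (fPM f a b) v ↔ PairMem E (v f) (v a) (v b) := by
  simp [fPM, PairMem]

@[simp] theorem rz_fInd (w : Fin n) : rz E (fInd w) v ↔ Inductive E (v w) := by
  simp [fInd, Inductive]

@[simp] theorem rz_fNat (x : Fin n) : rz E (fNat x) v ↔ IsNat E (v x) := by
  simp [fNat, IsNat]

@[simp] theorem rz_fBij (f A B : Fin n) : rz E (fBij f A B) v ↔ Bij E (v f) (v A) (v B) := by
  simp [fBij, Bij]

@[simp] theorem rz_fFin (F : Fin n) : rz E (fFin F) v ↔ IsFin E (v F) := by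
  simp [fFin, IsFin]

end rz

end Fml

variable {P : Type} [Preorder P] {G : Type} [Group G] [MulAction G P] [ActsMono G P]
  {D : Type} [MulAction G D]

/-! ### Forced versions of the basic notions -/

namespace Sy

/-- truth value of `x ⊆ y` -/
def rSub (x y : Sy P G D) : RO P := RO.all fun z => RO.imp (mem z x) (mem z y)

/-- truth value of `p = {a, b}` -/
def rUPair (p a b : Sy P G D) : RO P := RO.all fun z => RO.iff (mem z p) (RO.or (eq z a) (eq z b))

/-- truth value of `p = (a, b)` -/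
def rOPair (p a b : Sy P G D) : RO P :=
  RO.ex fun s => RO.ex fun t => RO.and (rUPair s a a) (RO.and (rUPair t a b) (rUPair p s t))

/-- truth value of `(a, b) ∈ f` -/
def rPM (f a b : Sy P G D) : RO P := RO.ex fun p => RO.and (rOPair p a b) (mem p f)

/-- truth value of `w` being inductive -/
def rInd (w : Sy P G D) : RO P :=
  RO.and (RO.all fun z => RO.imp (RO.all fun x => RO.not (mem x z)) (mem z w))
    (RO.all fun a => RO.all fun s => RO.imp (mem a w)
      (RO.imp (RO.all fun x => RO.iff (mem x s) (RO.or (mem x a) (eq x a))) (mem s w)))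

/-- truth value of `x` being a natural number -/
def rNat (x : Sy P G D) : RO P := RO.all fun w => RO.imp (rInd w) (mem x w)

/-- truth value of `f` being a bijection from `A` onto `B` -/
def rBij (f A B : Sy P G D) : RO P :=
  RO.and (RO.all fun p => RO.imp (mem p f) (RO.ex fun a => RO.ex fun b =>
      RO.and (mem a A) (RO.and (mem b B) (rOPair p a b))))
    (RO.and (RO.all fun a => RO.imp (mem a A) (RO.ex fun b => RO.and (rPM f a b)
      (RO.all fun b' => RO.imp (rPM f a b') (eq b' b))))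
    (RO.all fun b => RO.imp (mem b B) (RO.ex fun a => RO.and (rPM f a b)
      (RO.all fun a' => RO.imp (rPM f a' b) (eq a' a)))))

/-- truth value of `F` being finite -/
def rFin (F : Sy P G D) : RO P := RO.ex fun n => RO.ex fun f => RO.and (rNat n) (rBij f n F)

section fv

variable {n : ℕ} (v : Fin n → Sy P G D)

@[simp] theorem fv_fSub (x y : Fin n) : fv (Fml.fSub x y) v = rSub (v x) (v y) := rfl
@[simp] theorem fv_fUPair (p a b : Fin n) :
    fv (Fml.fUPair p a b) v = rUPair (v p) (v a) (v b) := rfl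
@[simp] theorem fv_fOPair (p a b : Fin n) :
    fv (Fml.fOPair p a b) v = rOPair (v p) (v a) (v b) := rfl
@[simp] theorem fv_fPM (f a b : Fin n) : fv (Fml.fPM f a b) v = rPM (v f) (v a) (v b) := rfl
@[simp] theorem fv_fInd (w : Fin n) : fv (Fml.fInd w) v = rInd (v w) := rfl
@[simp] theorem fv_fNat (x : Fin n) : fv (Fml.fNat x) v = rNat (v x) := rfl
@[simp] theorem fv_fBij (f A B : Fin n) : fv (Fml.fBij f A B) v = rBij (v f) (v A) (v B) := rfl
@[simp] theorem fv_fFin (F : Fin n) : fv (Fml.fFin F) v = rFin (v F) := rfl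

end fv

theorem mem_rSub {x y : Sy P G D} {p : P} :
    p ∈ rSub x y ↔ ∀ z, ∀ q ≤ p, q ∈ mem z x → q ∈ mem z y := Iff.rfl

theorem mem_rUPair {s a b : Sy P G D} {p : P} : p ∈ rUPair s a b ↔ p ∈ eq s (pair a b) := by
  rw [eq_iff]
  refine forall_congr' fun z => ?_
  rw [RO.mem_iff]
  refine forall₂_congr fun q hq => ?_
  rw [mem_mem_pair]
  rfl

theorem mem_rOPair {s a b : Sy P G D} {p : P} : p ∈ rOPair s a b ↔ p ∈ eq s (opair a b) := by
  constructor
  · intro h
    refine RO.ex_elim h fun t q hq ht => RO.ex_elim ht fun u r hr hu => ?_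
    obtain ⟨h1, h2, h3⟩ := hu
    rw [mem_rUPair] at h1 h2 h3
    exact eq_trans h3 (pair_congr h1 h2)
  · intro h
    refine RO.ex_intro (pair a a) (RO.ex_intro (pair a b) ⟨?_, ?_, ?_⟩)
    · exact mem_rUPair.2 (eq_refl _ _)
    · exact mem_rUPair.2 (eq_refl _ _)
    · exact mem_rUPair.2 h

theorem mem_rPM {f a b : Sy P G D} {p : P} : p ∈ rPM f a b ↔ p ∈ mem (opair a b) f := by
  constructor
  · intro h
    refine RO.ex_elim h fun t q hq ht => ?_
    obtain ⟨h1, h2⟩ := ht
    rw [mem_rOPair] at h1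
    exact mem_congr_left h1 h2
  · intro h
    exact RO.ex_intro (opair a b) ⟨mem_rOPair.2 (eq_refl _ _), h⟩

theorem rInd_omega (p : P) : p ∈ rInd (omega : Sy P G D) := by
  constructor
  · intro z q _ hz
    refine mem_mem_omega.2 fun r hr => ⟨r, le_rfl, 0, ?_⟩
    rw [eq_iff]
    intro w s hs
    exact ⟨fun h => (hz w s (hs.trans hr) h).elim, fun h => (not_mem_zero _ _ h).elim⟩
  · intro a s q hq ha r hr hs
    rw [mem_mem_omega] at ha
    refine mem_mem_omega.2 fun t ht => ?_
    obtain ⟨u, hu, n, hn⟩ := ha t (ht.trans hr)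
    refine ⟨u, hu, n + 1, ?_⟩
    rw [eq_iff]
    intro z u' hu'
    have h1 := RO.mem_iff.1 (hs z) u' (hu'.trans (hu.trans ht))
    rw [h1, mem_mem_succ, RO.mem_or]
    refine forall₂_congr fun w hw => exists_congr fun w' => and_congr_right fun hw' => ?_
    have h2 : w' ∈ eq a (num n) := RO.mono (hw'.trans (hw.trans hu')) hn
    exact or_congr (mem_congr (eq_refl _ _) h2)
      ⟨fun h => eq_trans h h2, fun h => eq_trans h (eq_symm h2)⟩

theorem mem_rNat {x : Sy P G D} {p : P} : p ∈ rNat x ↔ p ∈ mem x omega := by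
  constructor
  · intro h
    exact h omega p le_rfl (rInd_omega p)
  · intro h w q hq hw
    -- every numeral is in `w`
    have key : ∀ n : ℕ, q ∈ mem (num n) w := by
      intro n
      induction n with
      | zero =>
        exact hw.1 (num 0) q le_rfl fun z r hr => not_mem_zero _ _
      | succ n ih =>
        refine hw.2 (num n) (num (n + 1)) q le_rfl ih q le_rfl fun z => ?_
        rw [RO.mem_iff]
        intro r _
        rw [mem_mem_succ]
        rfl
    refine RO.reg fun r hr => ?_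
    obtain ⟨s, hs, n, hn⟩ := mem_mem_omega.1 h r (hr.trans hq)
    exact ⟨s, hs, mem_congr_left (eq_symm hn) (RO.mono (hs.trans hr) (key n))⟩

/-- Universal quantification over natural numbers. -/
theorem forall_nat {φ : Sy P G D → RO P} (hext : ∀ z w p, p ∈ eq z w → p ∈ φ z → p ∈ φ w)
    {p : P} (h : ∀ n, p ∈ φ (num n)) : p ∈ RO.all fun z => RO.imp (rNat z) (φ z) := by
  intro z q hq hz
  rw [mem_rNat, mem_mem_omega] at hz
  refine RO.reg fun r hr => ?_
  obtain ⟨s, hs, n, hn⟩ := hz r hr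
  exact ⟨s, hs, hext _ _ _ (eq_symm hn) (RO.mono (hs.trans (hr.trans hq)) (h n))⟩

end Sy

/-! ### The axioms -/

section axioms

open Fml Sy

/-- A formula is valid if it is forced by every condition. -/
def Valid (P G D : Type) [Preorder P] [Group G] [MulAction G P] [ActsMono G P] [MulAction G D]
    {n : ℕ} (φ : Fml n) : Prop := ∀ (v : Fin n → Sy P G D) (p : P), p ∈ fv φ v

theorem valid_ext : Valid P G D
    (all (all (imp (all (iff (mem 0 1) (mem 0 2))) (eq 0 1))) : Fml 0) := by
  intro v p x y q hq h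
  change q ∈ Sy.eq y x
  rw [eq_iff]
  intro z r hr
  exact RO.mem_iff.1 (h z) r hr

theorem valid_found : Valid P G D
    (all (imp (ex (mem 0 1)) (ex (and (mem 0 1) (all (imp (mem 0 1) (not (mem 0 2))))))) : Fml 0) := by
  intro v p x q hq h r hr
  obtain ⟨s, hs, y, hy, hy'⟩ := foundation x (p := q) (fun r hr => h r hr) r hr
  exact ⟨s, hs, y, hy, fun z t ht hz u hu hu' => hy' z u (hu.trans ht) (RO.mono hu hz) hu'⟩

theorem valid_pair : Valid P G D
    (all (all (ex (all (iff (mem 0 1) (or (eq 0 3) (eq 0 2)))))) : Fml 0) := by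
  intro v p a b
  refine RO.ex_intro (pair a b) fun z => ?_
  beta_reduce
  rw [ev_iff, RO.mem_iff]
  intro q _
  exact mem_mem_pair

theorem valid_union : Valid P G D
    (all (ex (all (iff (mem 0 1) (ex (and (mem 0 3) (mem 1 0)))))) : Fml 0) := by
  intro v p a
  obtain ⟨u, hu⟩ := exists_union a
  refine RO.ex_intro u fun z => ?_
  beta_reduce
  rw [ev_iff, RO.mem_iff]
  intro q _
  exact hu z q

theorem valid_power : Valid P G D
    (all (ex (all (iff (mem 0 1) (fSub 0 2)))) : Fml 0) := by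
  intro v p a
  obtain ⟨u, hu⟩ := exists_power a
  refine RO.ex_intro u fun z => ?_
  beta_reduce
  rw [ev_iff, RO.mem_iff]
  intro q _
  exact hu z q

theorem valid_inf : Valid P G D (ex (fInd 0) : Fml 0) := by
  intro v p
  exact RO.ex_intro omega (rInd_omega p)

/-- renaming used for separation -/
def renSep {n : ℕ} : Fin (n + 1) → Fin (n + 3) := Fin.cases 0 fun i => i.succ.succ.succ

theorem comp_renSep {S : Type*} {n : ℕ} (x b a : S) (v : Fin n → S) :
    Matrix.vecCons x (Matrix.vecCons b (Matrix.vecCons a v)) ∘ renSep = Matrix.vecCons x v := by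
  funext i
  refine Fin.cases ?_ (fun i => ?_) i <;> rfl

theorem valid_sep {n : ℕ} (φ : Fml (n + 1)) : Valid P G D
    (ex (all (iff (mem 0 1) (and (mem 0 2) (ren renSep φ)))) : Fml (n + 1)) := by
  intro v p
  obtain ⟨a, w, rfl⟩ : ∃ a w, v = Matrix.vecCons a w := ⟨v 0, fun i => v i.succ, by
    funext i; refine Fin.cases ?_ (fun i => ?_) i <;> rfl⟩
  obtain ⟨y, hy⟩ := exists_sep_fml φ w a
  refine RO.ex_intro y fun z => ?_
  beta_reduce
  rw [ev_iff, RO.mem_iff]
  intro q _
  rw [ev_and, RO.mem_and, ev_ren, comp_renSep]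
  exact hy z q

/-- renaming used for collection -/
def renColl1 {n : ℕ} : Fin (n + 2) → Fin (n + 3) :=
  Fin.cases 0 (Fin.cases 1 fun i => i.succ.succ.succ)

/-- renaming used for collection -/
def renColl2 {n : ℕ} : Fin (n + 2) → Fin (n + 4) :=
  Fin.cases 0 (Fin.cases 1 fun i => i.succ.succ.succ.succ)

theorem comp_renColl1 {S : Type*} {n : ℕ} (y x a : S) (v : Fin n → S) :
    Matrix.vecCons y (Matrix.vecCons x (Matrix.vecCons a v)) ∘ renColl1 =
      Matrix.vecCons y (Matrix.vecCons x v) := by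
  funext i
  refine Fin.cases ?_ (fun i => ?_) i
  · rfl
  · refine Fin.cases ?_ (fun i => ?_) i <;> rfl

theorem comp_renColl2 {S : Type*} {n : ℕ} (y x b a : S) (v : Fin n → S) :
    Matrix.vecCons y (Matrix.vecCons x (Matrix.vecCons b (Matrix.vecCons a v))) ∘ renColl2 =
      Matrix.vecCons y (Matrix.vecCons x v) := by
  funext i
  refine Fin.cases ?_ (fun i => ?_) i
  · rfl
  · refine Fin.cases ?_ (fun i => ?_) i <;> rfl

theorem valid_coll {n : ℕ} (φ : Fml (n + 2)) : Valid P G D
    (imp (all (imp (mem 0 1) (ex (ren renColl1 φ))))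
      (ex (all (imp (mem 0 2) (ex (and (mem 0 2) (ren renColl2 φ)))))) : Fml (n + 1)) := by
  intro v p
  obtain ⟨a, w, rfl⟩ : ∃ a w, v = Matrix.vecCons a w := ⟨v 0, fun i => v i.succ, by
    funext i; refine Fin.cases ?_ (fun i => ?_) i <;> rfl⟩
  obtain ⟨y, hy⟩ := exists_coll_fml φ w a
  intro q hq h
  refine RO.ex_intro y fun z r hr hz => ?_
  refine fun s hs => ?_
  obtain ⟨t, ht, u, hu, hu'⟩ := hy z r hz (fun s hs => by
    obtain ⟨t, ht, u, hu⟩ := h z r hr hz s hs
    beta_reduce at hu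
    rw [ev_ren, comp_renColl1] at hu
    exact ⟨t, ht, u, hu⟩) s hs
  refine ⟨t, ht, u, hu, ?_⟩
  rw [ev_ren, comp_renColl2]
  exact hu'

end axioms

/-! ### Translation of Mathlib formulas -/

/-- the variable denoted by a term of the language of set theory -/
theorem exists_var {n : ℕ} (t : Language.order.Term (Empty ⊕ Fin n)) : ∃ i : Fin n, ∀ (M : Type)
    (E : M → M → Prop) (v : Fin n → M),
    @Language.Term.realize Language.order M (@Language.orderStructure M ⟨E⟩) (Empty ⊕ Fin n) (Sum.elim Empty.elim v) t = v i := by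
  cases t with
  | var x =>
    rcases x with x | i
    · exact x.elim
    · exact ⟨i, fun M E v => rfl⟩
  | func f _ => exact f.elim

theorem snoc_comp_rev {M : Type} {n : ℕ} (v : Fin n → M) (x : M) :
    (Fin.snoc v x : Fin (n + 1) → M) ∘ Fin.rev = Matrix.vecCons x (v ∘ Fin.rev) := by
  funext i
  refine Fin.cases ?_ (fun i => ?_) i
  · simp
  · simp [Fin.rev_succ]

theorem exists_fml {n : ℕ} (φ : Language.order.BoundedFormula Empty n) : ∃ ψ : Fml n, ∀ (M : Type)
    (E : M → M → Prop) (v : Fin n → M), Fml.rz E ψ (v ∘ Fin.rev) ↔ Sat E φ v := by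
  induction φ with
  | falsum => exact ⟨Fml.bot, fun M E v => Iff.rfl⟩
  | equal t₁ t₂ =>
    obtain ⟨i, hi⟩ := exists_var t₁
    obtain ⟨j, hj⟩ := exists_var t₂
    refine ⟨Fml.eq i.rev j.rev, fun M E v => ?_⟩
    simp only [Fml.rz_eq, Function.comp_apply, Fin.rev_rev]
    rw [← hi M E v, ← hj M E v]
    rfl
  | rel R ts =>
    cases R with
    | le =>
      obtain ⟨i, hi⟩ := exists_var (ts 0)
      obtain ⟨j, hj⟩ := exists_var (ts 1)
      refine ⟨Fml.mem i.rev j.rev, fun M E v => ?_⟩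
      simp only [Fml.rz_mem, Function.comp_apply, Fin.rev_rev]
      rw [← hi M E v, ← hj M E v]
      rfl
  | imp φ ψ ih1 ih2 =>
    obtain ⟨φ', h1⟩ := ih1
    obtain ⟨ψ', h2⟩ := ih2
    refine ⟨Fml.imp φ' ψ', fun M E v => ?_⟩
    rw [Fml.rz_imp, h1, h2]
    rfl
  | all φ ih =>
    obtain ⟨φ', h1⟩ := ih
    refine ⟨Fml.all φ', fun M E v => ?_⟩
    rw [Fml.rz_all]
    refine forall_congr' fun x => ?_
    rw [← snoc_comp_rev, h1]
    rfl

/-- **Symmetric extensions yield models of ZF.**  For every condition `p₀` there are a structure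
`(M, E)` that is a model of ZF, a map `h` from `M` to the symmetric names and a family `F` of truth
values containing all values forced by `p₀`, such that satisfaction in `M` is given by the truth
values of formulas. -/
theorem exists_zf_model [Countable P] (p₀ : P) :
    ∃ (M : Type) (E : M → M → Prop) (h : M → Sy P G D) (F : RO P → Prop),
      (∀ a, p₀ ∈ a → F a) ∧
      (∀ (n : ℕ) (φ : Fml n) (v : Fin n → M), Fml.rz E φ v ↔ F (fv φ (h ∘ v))) ∧
      IsZF E := by
  obtain ⟨M, E, h, F, hF, hM⟩ := exists_quotient (SyV P G D) p₀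
  refine ⟨M, E, h, F, hF, hM, ?_⟩
  have valid : ∀ {n : ℕ} {φ : Fml n}, Valid P G D φ → ∀ v : Fin n → M, Fml.rz E φ v :=
    fun {n φ} hφ v => (hM n φ v).2 (hF _ (hφ _ _))
  have sep : ∀ {n : ℕ} (φ : Fml (n + 1)) (v : Fin n → M) (a : M),
      ∃ b, ∀ x, E x b ↔ E x a ∧ Fml.rz E φ (Matrix.vecCons x v) := by
    intro n φ v a
    obtain ⟨b, hb⟩ := valid (valid_sep (P := P) (G := G) (D := D) φ) (Matrix.vecCons a v)
    refine ⟨b, fun x => ?_⟩
    have := hb x
    rw [Fml.rz_iff, Fml.rz_and, Fml.rz_ren, comp_renSep] at this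
    exact this
  have coll : ∀ {n : ℕ} (φ : Fml (n + 2)) (v : Fin n → M) (a : M),
      (∀ x, E x a → ∃ y, Fml.rz E φ (Matrix.vecCons y (Matrix.vecCons x v))) →
      ∃ b, ∀ x, E x a → ∃ y, E y b ∧ Fml.rz E φ (Matrix.vecCons y (Matrix.vecCons x v)) := by
    intro n φ v a ha
    obtain ⟨b, hb⟩ := valid (valid_coll (P := P) (G := G) (D := D) φ) (Matrix.vecCons a v) (by
      intro x hx
      obtain ⟨y, hy⟩ := ha x hx
      refine ⟨y, ?_⟩
      rw [Fml.rz_ren, comp_renColl1]
      exact hy)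
    refine ⟨b, fun x hx => ?_⟩
    obtain ⟨y, hy, hy'⟩ := hb x hx
    rw [Fml.rz_ren, comp_renColl2] at hy'
    exact ⟨y, hy, hy'⟩
  constructor
  · intro x y hxy
    have := valid (valid_ext (P := P) (G := G) (D := D)) ![] x y
    rw [Fml.rz_imp, Fml.rz_all] at this
    refine (this fun z => ?_).symm
    rw [Fml.rz_iff]
    exact (hxy z).symm
  · intro x hx
    exact valid (valid_found (P := P) (G := G) (D := D)) ![] x hx
  · intro a b
    obtain ⟨c, hc⟩ := valid (valid_pair (P := P) (G := G) (D := D)) ![] a b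
    refine ⟨c, fun z => ?_⟩
    have := hc z
    rw [Fml.rz_iff] at this
    exact this
  · intro a
    obtain ⟨c, hc⟩ := valid (valid_union (P := P) (G := G) (D := D)) ![] a
    refine ⟨c, fun z => ?_⟩
    have := hc z
    rw [Fml.rz_iff] at this
    exact this
  · intro a
    obtain ⟨c, hc⟩ := valid (valid_power (P := P) (G := G) (D := D)) ![] a
    refine ⟨c, fun z => ?_⟩
    have := hc z
    rw [Fml.rz_iff, Fml.rz_fSub] at this
    exact this
  · obtain ⟨w, hw⟩ := valid (valid_inf (P := P) (G := G) (D := D)) ![]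
    rw [Fml.rz_fInd] at hw
    exact ⟨w, hw⟩
  · intro n φ v a
    obtain ⟨ψ, hψ⟩ := exists_fml φ
    obtain ⟨b, hb⟩ := sep ψ (v ∘ Fin.rev) a
    refine ⟨b, fun x => ?_⟩
    rw [hb, ← snoc_comp_rev, hψ]
  · intro n φ v a ha
    obtain ⟨ψ, hψ⟩ := exists_fml φ
    have h1 : ∀ x y, Fml.rz E ψ (Matrix.vecCons y (Matrix.vecCons x (v ∘ Fin.rev))) ↔
        Sat E φ (Fin.snoc (Fin.snoc v x : Fin (n + 1) → M) y) := by
      intro x y
      rw [← snoc_comp_rev, ← snoc_comp_rev, hψ]
    obtain ⟨b, hb⟩ := coll ψ (v ∘ Fin.rev) a fun x hx => by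
      obtain ⟨y, hy, _⟩ := ha x hx
      exact ⟨y, (h1 x y).2 hy⟩
    -- separate the image
    obtain ⟨c, hc⟩ := sep (n := n + 1) (Fml.ex (Fml.and (Fml.mem 0 2)
      (Fml.ren (Fin.cases 1 (Fin.cases 0 fun i => i.succ.succ.succ)) ψ)))
      (Matrix.vecCons a (v ∘ Fin.rev)) b
    refine ⟨c, fun y => ?_⟩
    rw [hc]
    have h2 : ∀ x y, (Matrix.vecCons x (Matrix.vecCons y (Matrix.vecCons a (v ∘ Fin.rev)))) ∘
        (Fin.cases 1 (Fin.cases 0 fun i => i.succ.succ.succ) : Fin (n + 2) → Fin (n + 3)) =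
        Matrix.vecCons y (Matrix.vecCons x (v ∘ Fin.rev)) := by
      intro x y
      funext i
      refine Fin.cases ?_ (fun i => ?_) i
      · rfl
      · refine Fin.cases ?_ (fun i => ?_) i <;> rfl
    have h3 : Fml.rz E (Fml.ex (Fml.and (Fml.mem 0 2)
        (Fml.ren (Fin.cases 1 (Fin.cases 0 fun i => i.succ.succ.succ)) ψ)))
        (Matrix.vecCons y (Matrix.vecCons a (v ∘ Fin.rev))) ↔
        ∃ x, E x a ∧ Sat E φ (Fin.snoc (Fin.snoc v x : Fin (n + 1) → M) y) := by
      rw [Fml.rz_ex]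
      refine exists_congr fun x => ?_
      rw [Fml.rz_and, Fml.rz_ren, h2, h1]
      rfl
    rw [h3]
    constructor
    · rintro ⟨_, h⟩
      exact h
    · rintro ⟨x, hx, hx'⟩
      refine ⟨?_, x, hx, hx'⟩
      obtain ⟨y', hy', hy''⟩ := hb x hx
      rw [h1] at hy''
      rw [(ha x hx).unique hx' hy'']
      exact hy'

end Pool.Agent.Lib_helper83
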